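import Pool.Agent.LibBS2.D03

/-!
D13. The class of `a` in `H_1(G; ℤ[G/⟨a⟩])` is not zero.

PLAN. The additive functional `(g; x) ↦ n(g⁻¹, x)` on the chains `G →₀ ℤ[X]` (`Finsupp.liftAddHom`,
`MonoidAlgebra` single) kills the boundaries: `d (g,h; x) = (h; g⁻¹ x) - (gh; x) + (g; x)` goes to
`n(h⁻¹, g⁻¹x) - n(h⁻¹ g⁻¹, x) + n(g⁻¹, x) = 0` by n_mul; its value at `(a; x0)` is `n(a⁻¹, x0) = -1`
(n_pow). `Representation.ofMulAction_single`.
-/

set_option autoImplicit false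

namespace Pool.Agent.LibBS2

open groupHomology

/-- the functional `x ↦ n(g⁻¹, x)` on the coefficients -/
noncomputable def D13_phi {G : Type} [Group G] {a : G} (C : Crd G a) (g : G) :
    (Rep.ofMulAction ℤ G (G ⧸ Subgroup.zpowers a)) →ₗ[ℤ] ℤ :=
  (Finsupp.linearCombination ℤ (fun x : G ⧸ Subgroup.zpowers a => C.n g⁻¹ x)).comp
    (MonoidAlgebra.coeffLinearEquiv ℤ).toLinearMap

theorem D13_phi_single {G : Type} [Group G] {a : G} (C : Crd G a) (g : G)
    (x : G ⧸ Subgroup.zpowers a) (r : ℤ) :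
    D13_phi C g (MonoidAlgebra.single x r) = r * C.n g⁻¹ x := by
  show (Finsupp.linearCombination ℤ (fun x : G ⧸ Subgroup.zpowers a => C.n g⁻¹ x))
    (Finsupp.single x r) = _
  rw [Finsupp.linearCombination_single, smul_eq_mul]

/-- the functional on the chains -/
noncomputable def D13_Lam {G : Type} [Group G] {a : G} (C : Crd G a) :
    (G →₀ (Rep.ofMulAction ℤ G (G ⧸ Subgroup.zpowers a))) →ₗ[ℤ] ℤ :=
  Finsupp.lsum ℤ (fun g => D13_phi C g)

theorem D13_Lam_single {G : Type} [Group G] {a : G} (C : Crd G a) (g : G)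
    (b : Rep.ofMulAction ℤ G (G ⧸ Subgroup.zpowers a)) :
    D13_Lam C (Finsupp.single g b) = D13_phi C g b := by
  rw [D13_Lam, Finsupp.lsum_single]

theorem D13_cocycle {G : Type} [Group G] {a : G} (ha : ∀ n : ℤ, n ≠ 0 → a ^ n ≠ 1) (C : Crd G a)
    (g h : G) (b : Rep.ofMulAction ℤ G (G ⧸ Subgroup.zpowers a)) :
    D13_phi C h ((Rep.ofMulAction ℤ G (G ⧸ Subgroup.zpowers a)).ρ g⁻¹ b) -
      D13_phi C (g * h) b + D13_phi C g b = 0 := by
  have key : ((D13_phi C h).comp ((Rep.ofMulAction ℤ G (G ⧸ Subgroup.zpowers a)).ρ g⁻¹) -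
      D13_phi C (g * h) + D13_phi C g) = 0 := by
    refine MonoidAlgebra.lhom_ext' fun x => LinearMap.ext_ring ?_
    show D13_phi C h (Representation.ofMulAction ℤ G (G ⧸ Subgroup.zpowers a) g⁻¹
      (MonoidAlgebra.single x 1)) - D13_phi C (g * h) (MonoidAlgebra.single x 1) +
      D13_phi C g (MonoidAlgebra.single x 1) = 0
    rw [Representation.ofMulAction_single, D13_phi_single, D13_phi_single, D13_phi_single,
      mul_inv_rev, C.n_mul ha]
    ring
  have h2 := LinearMap.congr_fun key b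
  exact h2

theorem not_boundary {G : Type} [Group G] {a : G} (ha : ∀ n : ℤ, n ≠ 0 → a ^ n ≠ 1) :
    (Finsupp.single a (MonoidAlgebra.single (QuotientGroup.mk 1 : G ⧸ Subgroup.zpowers a) (1 : ℤ)) :
      G →₀ (Rep.ofMulAction ℤ G (G ⧸ Subgroup.zpowers a))) ∉
      boundaries₁ (Rep.ofMulAction ℤ G (G ⧸ Subgroup.zpowers a)) := by
  obtain ⟨C⟩ := exists_crd a
  rintro ⟨y, hy⟩
  have hzero : (D13_Lam C).comp (d₂₁ (Rep.ofMulAction ℤ G (G ⧸ Subgroup.zpowers a))).hom = 0 := by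
    refine Finsupp.lhom_ext fun gh b => ?_
    show D13_Lam C ((d₂₁ (Rep.ofMulAction ℤ G (G ⧸ Subgroup.zpowers a))).hom
      (Finsupp.single gh b)) = 0
    have h1 := d₂₁_single (A := Rep.ofMulAction ℤ G (G ⧸ Subgroup.zpowers a)) gh b
    rw [h1, map_add, map_sub, D13_Lam_single, D13_Lam_single, D13_Lam_single]
    exact D13_cocycle ha C gh.1 gh.2 b
  have h1 := LinearMap.congr_fun hzero y
  have h2 : D13_Lam C ((d₂₁ (Rep.ofMulAction ℤ G (G ⧸ Subgroup.zpowers a))).hom y) = 0 := h1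
  rw [hy, D13_Lam_single, D13_phi_single, one_mul] at h2
  have h3 := C.n_pow ha (-1)
  rw [zpow_neg_one] at h3
  rw [h3] at h2
  omega

end Pool.Agent.LibBS2
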