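import Pool.Agent.LibBS2.B4c
import Pool.Agent.LibBS2.D13

/-!
The class of `a` dies in `H_1(G; N)`, but not in `H_1(G; ℤ[G ⧸ ⟨a⟩])`.
-/

set_option autoImplicit false

namespace Pool.Agent.LibBS2

open MeasureTheory CategoryTheory
open scoped ENNReal

variable {G : Type} [Group G]

theorem B4_R2 {a t : G} (ha : ∀ n : ℤ, n ≠ 0 → a ^ n ≠ 1) (C : Crd G a) (p q : ℕ) [NeZero q]
    (K : KDat C t q) (hp : 0 < p) (hc : Nat.Coprime p q)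
    (h : t * a ^ p * t⁻¹ = a ^ q)
    (T : LX (G ⧸ Subgroup.zpowers a) (Om q) (P q) →+ LX (G ⧸ Subgroup.zpowers a) (Om q) (P q))
    (hT : ∀ f x j, ∀ᵐ ω ∂(P q),
      (T f x : Om q → ℂ) (cons j ω) = f (K.y x j) (aff p (K.l x j) ω))
    (e o : LX (G ⧸ Subgroup.zpowers a) (Om q) (P q))
    (he : ∀ x, ∀ᵐ ω ∂(P q), (e x : Om q → ℂ) ω = eF a q x ω)
    (ho : ∀ x, ∀ᵐ ω ∂(P q), (o x : Om q → ℂ) ω = oF a x) :
    T o = ∑ i ∈ Finset.range p, (C.ext ha q).coc.op (t * a ^ i)⁻¹ e := by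
  ext x : 2
  refine ext_cons fun j => ?_
  have h7 := (qmp_cons j).ae (B4_trsum (C.ext ha q) e (eF a q) he (fun i => t * a ^ i) p x)
  have h9 := (aff_mp hc (K.l x j)).quasiMeasurePreserving.ae (ho (K.y x j))
  filter_upwards [hT o x j, h7, h9] with ω h10 h11 h13
  rw [h10, h13, h11]
  exact R2 ha K hp h x j ω

theorem B4_R1 {a : G} (ha : ∀ n : ℤ, n ≠ 0 → a ^ n ≠ 1) (C : Crd G a) (q : ℕ) [NeZero q]
    (e o : LX (G ⧸ Subgroup.zpowers a) (Om q) (P q))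
    (he : ∀ x, ∀ᵐ ω ∂(P q), (e x : Om q → ℂ) ω = eF a q x ω)
    (ho : ∀ x, ∀ᵐ ω ∂(P q), (o x : Om q → ℂ) ω = oF a x) :
    o = ∑ i ∈ Finset.range q, (C.ext ha q).coc.op (a ^ i)⁻¹ e := by
  refine B4_ext fun x => ?_
  filter_upwards [ho x, B4_trsum (C.ext ha q) e (eF a q) he (fun i => a ^ i) q x] with ω h1 h2
  rw [h1, h2]
  exact R1 ha x ω

theorem B4_R3 {a : G} (ha : ∀ n : ℤ, n ≠ 0 → a ^ n ≠ 1) (C : Crd G a) (q : ℕ) [NeZero q]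
    (e : LX (G ⧸ Subgroup.zpowers a) (Om q) (P q))
    (he : ∀ x, ∀ᵐ ω ∂(P q), (e x : Om q → ℂ) ω = eF a q x ω) :
    (C.ext ha q).coc.op (a ^ q) e = e := by
  refine B4_ext fun x => ?_
  have h1 := B4_tr (C.ext ha q) e (eF a q) he (a ^ q)⁻¹ x
  rw [inv_inv] at h1
  filter_upwards [h1, he x] with ω h2 h3
  rw [h2, h3]
  exact R3 ha x ω

theorem exists_ext_chain (a t : G) (ha : ∀ n : ℤ, n ≠ 0 → a ^ n ≠ 1) (p q : ℕ) [NeZero q]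
    (hp : 0 < p) (hpq : p < q) (hc : Nat.Coprime p q) (h : t * a ^ p * t⁻¹ = a ^ q) :
    ∃ (D : Ext G (G ⧸ Subgroup.zpowers a) (Om q) (P q)) (β : G × G →₀ D.NRep),
      groupHomology.d₂₁ D.NRep β =
        Finsupp.single a (D.iota.hom (MonoidAlgebra.single (QuotientGroup.mk 1) 1)) := by
  obtain ⟨C⟩ := exists_crd a
  obtain ⟨K⟩ := exists_kdat C t q
  obtain ⟨T, r, hr0, hr1, hTn, hTN, hTc, hT⟩ := B4_T ha C p q K hp hpq hc h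
  obtain ⟨e, he⟩ := B4_exists_e a q
  have ho := B4_o a q
  obtain ⟨β, hβ⟩ := B4_core (C.ext ha q) T hTN r hr0 hr1 hTn
    (closed_int (X := G ⧸ Subgroup.zpowers a) (P q)) hTc a t p q h e
    (iotaN (G ⧸ Subgroup.zpowers a) (P q) (MonoidAlgebra.single (QuotientGroup.mk 1) 1))
    (B4_R1 ha C q e.1 _ he ho) (B4_R3 ha C q e.1 he)
    (B4_R2 ha C p q K hp hc h T hT e.1 _ he ho)
  exact ⟨C.ext ha q, β, hβ⟩

theorem not_bounds (a : G) (ha : ∀ n : ℤ, n ≠ 0 → a ^ n ≠ 1)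
    (γ : G × G →₀ (Rep.ofMulAction ℤ G (G ⧸ Subgroup.zpowers a))) :
    groupHomology.d₂₁ (Rep.ofMulAction ℤ G (G ⧸ Subgroup.zpowers a)) γ ≠
      Finsupp.single a (MonoidAlgebra.single (QuotientGroup.mk 1) 1) := by
  intro h
  exact not_boundary ha ⟨γ, h⟩

end Pool.Agent.LibBS2
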