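import Mathlib

/-!
D12. If `1 - T` is bijective and `x - T x` is a boundary then `x` is a boundary.

PLAN. `x - T x = d₂₁ β₀`; choose `β` with `β - T β = β₀` (coefficientwise: `Finsupp.mapRange` by the
inverse of `1 - T`, an additive equivalence). `T` commutes with `d₂₁` (d₂₁_single, equivariance;
`Finsupp.induction_linear`). Then `(x - d β) - T (x - d β) = 0`, so every coefficient is fixed by `T`
and vanishes.
-/

set_option autoImplicit false

namespace Pool.Agent.LibBS2

open groupHomology

variable {G : Type} [Group G] (N : Rep.{0} ℤ G)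

private theorem D12_comm (T : N →+ N) (hT : ∀ (g : G) (n : N), T (N.ρ g n) = N.ρ g (T n))
    (β : G × G →₀ N) :
    (Finsupp.mapRange T (map_zero T) ((d₂₁ N).hom β : G →₀ N) : G →₀ N) =
      (d₂₁ N).hom (Finsupp.mapRange T (map_zero T) β) := by
  induction β using Finsupp.induction_linear with
  | zero =>
    rw [Finsupp.mapRange_zero, map_zero]
    exact Finsupp.mapRange_zero (hf := map_zero T)
  | add f g hf hg =>
    rw [map_add, Finsupp.mapRange_add' f g, map_add, ← hf, ← hg]
    exact Finsupp.mapRange_add' _ _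
  | single x n =>
    rw [Finsupp.mapRange_single]
    have h1 := d₂₁_single (A := N) x n
    have h2 := d₂₁_single (A := N) x (T n)
    have h3 : (d₂₁ N).hom (Finsupp.single x n) =
      (Finsupp.single x.2 (N.ρ x.1⁻¹ n) - Finsupp.single (x.1 * x.2) n + Finsupp.single x.1 n :
        G →₀ N) := h1
    have h4 : (d₂₁ N).hom (Finsupp.single x (T n)) =
      (Finsupp.single x.2 (N.ρ x.1⁻¹ (T n)) - Finsupp.single (x.1 * x.2) (T n) +
        Finsupp.single x.1 (T n) : G →₀ N) := h2
    rw [h3, h4, ← hT]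
    rw [Finsupp.mapRange_add', Finsupp.mapRange_sub', Finsupp.mapRange_single,
      Finsupp.mapRange_single, Finsupp.mapRange_single]

theorem boundary_of_neumann (T : N →+ N) (hT : ∀ (g : G) (n : N), T (N.ρ g n) = N.ρ g (T n))
    (hinj : ∀ n : N, n - T n = 0 → n = 0) (hsurj : ∀ n : N, ∃ b : N, b - T b = n)
    (x : G →₀ N) (hx : x - Finsupp.mapRange T (map_zero T) x ∈ boundaries₁ N) :
    x ∈ boundaries₁ N := by
  choose r hr using hsurj
  have hr0 : r 0 = 0 := hinj _ (hr 0)
  obtain ⟨β₀, hβ₀⟩ := hx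
  set β : G × G →₀ N := Finsupp.mapRange r hr0 β₀ with hβ
  have h1 : β - Finsupp.mapRange T (map_zero T) β = β₀ := by
    ext g
    rw [Finsupp.sub_apply, Finsupp.mapRange_apply, hβ, Finsupp.mapRange_apply]
    exact hr _
  have h2 : ((d₂₁ N).hom β : G →₀ N) -
      (Finsupp.mapRange T (map_zero T) ((d₂₁ N).hom β : G →₀ N) : G →₀ N) =
      x - Finsupp.mapRange T (map_zero T) x := by
    rw [D12_comm N T hT, ← hβ₀]
    have h3 := map_sub (d₂₁ N).hom β (Finsupp.mapRange T (map_zero T) β)
    rw [h1] at h3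
    exact h3.symm
  have h4 : x = ((d₂₁ N).hom β : G →₀ N) := by
    ext g
    have h5 := DFunLike.congr_fun h2 g
    rw [Finsupp.sub_apply, Finsupp.sub_apply, Finsupp.mapRange_apply, Finsupp.mapRange_apply] at h5
    have h6 := hinj (x g - ((d₂₁ N).hom β : G →₀ N) g) (by
      rw [map_sub, sub_sub_sub_comm, h5, sub_self])
    exact sub_eq_zero.mp h6
  exact ⟨β, h4.symm⟩

end Pool.Agent.LibBS2
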