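import Pool.Agent.LibBS2.D11
import Pool.Agent.LibBS2.D12

/-!
A cycle which is fixed by a contraction bounds: algebraic form.
-/

set_option autoImplicit false

namespace Pool.Agent.LibBS2

open groupHomology

theorem B4_rep {G : Type} [Group G] (N : Rep.{0} ℤ G) (TN : N →+ N)
    (hT : ∀ (g : G) (v : N), TN (N.ρ g v) = N.ρ g (TN v))
    (hsurj : ∀ n : N, ∃ b : N, b - TN b = n) (hinj : ∀ n : N, n - TN n = 0 → n = 0) (a t : G)
    (p q : ℕ) (h : t * a ^ p * t⁻¹ = a ^ q) (e o : N)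
    (hR1 : o = ∑ i ∈ Finset.range q, N.ρ (a ^ i)⁻¹ e) (hR3 : N.ρ (a ^ q) e = e)
    (hR2 : TN o = ∑ i ∈ Finset.range p, N.ρ (a ^ i)⁻¹ (N.ρ t⁻¹ e)) :
    (Finsupp.single a o : G →₀ N) ∈ boundaries₁ N := by
  refine boundary_of_neumann N TN hT hinj hsurj _ ?_
  rw [Finsupp.mapRange_single, hR2]
  have h1 := chain_identity N a t p q h e hR3
  rw [← hR1] at h1
  exact h1

end Pool.Agent.LibBS2
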