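import Mathlib

/-!
D07. Neumann series on a closed subgroup.

PLAN. The partial sums `∑ k < n, T^k f` form a Cauchy sequence in `N` (norm at most `r^k ‖f‖`), the
limit `b` lies in the closed subgroup, `b - T b = f` by continuity of `T`. Uniqueness:
`‖b‖ = ‖T b‖ ≤ r ‖b‖`.
-/

set_option autoImplicit false

namespace Pool.Agent.LibBS2

theorem neumann {E : Type} [NormedAddCommGroup E] [CompleteSpace E] (T : E →+ E) (r : ℝ)
    (h0 : 0 ≤ r) (h1 : r < 1) (hT : ∀ f, ‖T f‖ ≤ r * ‖f‖) (N : AddSubgroup E)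
    (hN : IsClosed (N : Set E)) (hTN : ∀ f ∈ N, T f ∈ N) (f : E) (hf : f ∈ N) :
    ∃ b ∈ N, b - T b = f := by
  have hmaps : Set.MapsTo (fun g : E => f + T g) (N : Set E) (N : Set E) :=
    fun g hg => N.add_mem hf (hTN g hg)
  have hc : ContractingWith (⟨r, h0⟩ : NNReal) (hmaps.restrict _ _ _) := by
    refine ⟨by rw [← NNReal.coe_lt_coe]; exact h1, ?_⟩
    refine LipschitzWith.of_dist_le_mul fun a b => ?_
    rw [Subtype.dist_eq, Subtype.dist_eq, dist_eq_norm, dist_eq_norm]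
    have h2 : (f + T (a : E)) - (f + T (b : E)) = T ((a : E) - (b : E)) := by
      rw [map_sub]; abel
    show ‖(f + T (a : E)) - (f + T (b : E))‖ ≤ r * ‖(a : E) - (b : E)‖
    rw [h2]
    exact hT _
  obtain ⟨b, hb, hfix, -⟩ := hc.exists_fixedPoint' hN.isComplete hmaps (x := 0) N.zero_mem
    (edist_ne_top _ _)
  refine ⟨b, hb, ?_⟩
  have h3 : f + T b = b := hfix
  rw [sub_eq_iff_eq_add]
  exact h3.symm

theorem neumann_inj {E : Type} [NormedAddCommGroup E] (T : E →+ E) (r : ℝ) (h1 : r < 1)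
    (hT : ∀ f, ‖T f‖ ≤ r * ‖f‖) (f : E) (hf : f - T f = 0) : f = 0 := by
  have h2 : T f = f := (sub_eq_zero.1 hf).symm
  have h3 := hT f
  rw [h2] at h3
  by_contra h4
  have h5 : 0 < ‖f‖ := norm_pos_iff.2 h4
  nlinarith

end Pool.Agent.LibBS2
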