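import Pool.Agent.LibBS2.NMod
import Pool.Agent.LibBS2.D07
import Pool.Agent.LibBS2.B4a

/-!
A cycle which is fixed by a contraction bounds: the module of integer valued functions.
-/

set_option autoImplicit false

namespace Pool.Agent.LibBS2

open MeasureTheory CategoryTheory Representation
open scoped ENNReal

variable {G X Ω : Type} [Group G] [MulAction G X] [MeasurableSpace Ω] {μ : Measure Ω}

/-- the contraction on the integer valued functions -/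
noncomputable def restrN (T : LX X Ω μ →+ LX X Ω μ) (hTN : ∀ f ∈ NN X Ω μ, T f ∈ NN X Ω μ) :
    NN X Ω μ →+ NN X Ω μ where
  toFun f := ⟨T f.1, hTN _ f.2⟩
  map_zero' := Subtype.ext (map_zero T)
  map_add' f f' := Subtype.ext (map_add T f.1 f'.1)

theorem restrN_coe (T : LX X Ω μ →+ LX X Ω μ) (hTN : ∀ f ∈ NN X Ω μ, T f ∈ NN X Ω μ)
    (f : NN X Ω μ) : (restrN T hTN f).1 = T f.1 := rfl

theorem restrN_surj (T : LX X Ω μ →+ LX X Ω μ) (hTN : ∀ f ∈ NN X Ω μ, T f ∈ NN X Ω μ) (r : ℝ)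
    (hr0 : 0 ≤ r) (hr1 : r < 1) (hTn : ∀ f, ‖T f‖ ≤ r * ‖f‖)
    (hcl : IsClosed (((NN X Ω μ).toAddSubgroup : AddSubgroup (LX X Ω μ)) : Set (LX X Ω μ)))
    (n : NN X Ω μ) : ∃ b : NN X Ω μ, b - restrN T hTN b = n := by
  obtain ⟨b, hb, hb2⟩ := neumann T r hr0 hr1 hTn (NN X Ω μ).toAddSubgroup hcl hTN n.1 n.2
  exact ⟨⟨b, hb⟩, Subtype.ext hb2⟩

theorem restrN_inj (T : LX X Ω μ →+ LX X Ω μ) (hTN : ∀ f ∈ NN X Ω μ, T f ∈ NN X Ω μ) (r : ℝ)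
    (hr1 : r < 1) (hTn : ∀ f, ‖T f‖ ≤ r * ‖f‖)
    (n : NN X Ω μ) (hn : n - restrN T hTN n = 0) : n = 0 := by
  have h1 : n.1 - T n.1 = 0 := congrArg Subtype.val hn
  exact Subtype.ext (neumann_inj T r hr1 hTn n.1 h1)

theorem sum_coe {ι : Type} (s : Finset ι) (f : ι → NN X Ω μ) :
    (∑ i ∈ s, f i : NN X Ω μ).1 = ∑ i ∈ s, (f i).1 :=
  map_sum (NN X Ω μ).subtype f s

theorem B4_core (D : Ext G X Ω μ) (T : LX X Ω μ →+ LX X Ω μ)
    (hTN : ∀ f ∈ NN X Ω μ, T f ∈ NN X Ω μ) (r : ℝ) (hr0 : 0 ≤ r) (hr1 : r < 1)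
    (hTn : ∀ f, ‖T f‖ ≤ r * ‖f‖)
    (hcl : IsClosed (((NN X Ω μ).toAddSubgroup : AddSubgroup (LX X Ω μ)) : Set (LX X Ω μ)))
    (hTc : ∀ g f, T (D.coc.op g f) = D.coc.op g (T f)) (a t : G) (p q : ℕ)
    (h : t * a ^ p * t⁻¹ = a ^ q) (e o : NN X Ω μ)
    (hR1 : o.1 = ∑ i ∈ Finset.range q, D.coc.op (a ^ i)⁻¹ e.1)
    (hR3 : D.coc.op (a ^ q) e.1 = e.1)
    (hR2 : T o.1 = ∑ i ∈ Finset.range p, D.coc.op (t * a ^ i)⁻¹ e.1) :
    (Finsupp.single a (show D.NRep from o) : G →₀ D.NRep) ∈ groupHomology.boundaries₁ D.NRep := by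
  have e1 : o = ∑ i ∈ Finset.range q, D.repN (a ^ i)⁻¹ e := by
    refine Subtype.ext ?_
    rw [sum_coe, hR1]
    rfl
  have e3 : D.repN (a ^ q) e = e := Subtype.ext hR3
  have e2 : restrN T hTN o = ∑ i ∈ Finset.range p, D.repN (a ^ i)⁻¹ (D.repN t⁻¹ e) := by
    refine Subtype.ext ?_
    rw [sum_coe, restrN_coe, hR2]
    refine Finset.sum_congr rfl fun i _ => ?_
    rw [mul_inv_rev, D.coc.op_mul]
    rfl
  have ec : ∀ (g : G) (v : NN X Ω μ), restrN T hTN (D.repN g v) = D.repN g (restrN T hTN v) :=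
    fun g v => Subtype.ext (hTc g v.1)
  exact B4_rep D.NRep (restrN T hTN) ec (restrN_surj T hTN r hr0 hr1 hTn hcl)
    (restrN_inj T hTN r hr1 hTn) a t p q h e o e1 e3 e2

end Pool.Agent.LibBS2
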