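import Pool.Agent.LibBS2.D05

/-!
D06. The operator `T f = f ∘ K`.

PLAN. `(T f) x = L (fun j => (f (y x j)) ∘ φ x j)` with `L` from exists_glue and
`Lp.compMeasurePreservingₗᵢ ℂ (φ x j) (hφ x j)`. `q ‖T f x‖² = ∑ j ‖f (y x j)‖²`. Sum over `x`:
`∑ (x,j) ‖f (y x j)‖² ≤ p ∑ z ‖f z‖²`: in `ℝ≥0∞` (memlp_iff in C00) or for finite partial sums: for a
finset `s` of pairs group by the value `z = y x j` (`Finset.sum_fiberwise`..), every fibre has at most
`p` elements. This gives Memℓp and the norm bound; `LinearMap.mkContinuous`.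
-/

set_option autoImplicit false

namespace Pool.Agent.LibBS2

open MeasureTheory
open scoped ENNReal

variable {q : ℕ} [NeZero q]

theorem exists_T {X : Type} {p : ℕ} (y : X → Fin q → X) (φ : X → Fin q → Om q → Om q)
    (hφ : ∀ x j, MeasurePreserving (φ x j) (P q) (P q))
    (hp : ∀ (z : X) (s : Finset (X × Fin q)), (∀ b ∈ s, y b.1 b.2 = z) → s.card ≤ p) :
    ∃ T : lp (fun _ : X => Lp ℂ 2 (P q)) 2 →L[ℂ] lp (fun _ : X => Lp ℂ 2 (P q)) 2,
      (∀ (f : lp (fun _ : X => Lp ℂ 2 (P q)) 2) (x : X) (j : Fin q), ∀ᵐ ω ∂(P q),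
        (T f x : Om q → ℂ) (cons j ω) = f (y x j) (φ x j ω)) ∧
      ∀ f : lp (fun _ : X => Lp ℂ 2 (P q)) 2, (q : ℝ) * ‖T f‖ ^ 2 ≤ p * ‖f‖ ^ 2 := by
  classical
  obtain ⟨L, hL, hLn⟩ := exists_glue (q := q)
  have hq : (0 : ℝ) < q := Nat.cast_pos.2 (Nat.pos_of_ne_zero (NeZero.ne q))
  have h2R : (2 : ℝ≥0∞).toReal = ((2 : ℕ) : ℝ) := by norm_num
  have h2pos : 0 < (2 : ℝ≥0∞).toReal := by norm_num
  -- the values
  let v : lp (fun _ : X => Lp ℂ 2 (P q)) 2 → X → Fin q → Lp ℂ 2 (P q) := fun f x j =>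
    Lp.compMeasurePreservingₗᵢ ℂ (φ x j) (hφ x j) (f (y x j))
  have hvn : ∀ f x j, ‖v f x j‖ = ‖f (y x j)‖ := fun f x j => LinearIsometry.norm_map _ _
  have hsum : ∀ (f : lp (fun _ : X => Lp ℂ 2 (P q)) 2) (s : Finset X),
      ∑ x ∈ s, ‖L (v f x)‖ ^ 2 ≤ p / q * ‖f‖ ^ 2 := by
    intro f s
    have h1 : (q : ℝ) * ∑ x ∈ s, ‖L (v f x)‖ ^ 2 =
        ∑ b ∈ s ×ˢ (Finset.univ : Finset (Fin q)), ‖f (y b.1 b.2)‖ ^ 2 := by
      rw [Finset.mul_sum, Finset.sum_product]
      refine Finset.sum_congr rfl fun x _ => ?_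
      rw [hLn]
      exact Finset.sum_congr rfl fun j _ => by rw [hvn]
    have hmaps : ∀ b ∈ s ×ˢ (Finset.univ : Finset (Fin q)), y b.1 b.2 ∈
        (s ×ˢ (Finset.univ : Finset (Fin q))).image (fun b => y b.1 b.2) :=
      fun b hb => Finset.mem_image_of_mem (fun b : X × Fin q => y b.1 b.2) hb
    have h2 : ∑ b ∈ s ×ˢ (Finset.univ : Finset (Fin q)), ‖f (y b.1 b.2)‖ ^ 2 ≤ p * ‖f‖ ^ 2 := by
      rw [← Finset.sum_fiberwise_of_maps_to hmaps]
      calc ∑ z ∈ (s ×ˢ (Finset.univ : Finset (Fin q))).image (fun b => y b.1 b.2),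
            ∑ b ∈ (s ×ˢ (Finset.univ : Finset (Fin q))).filter (fun b => y b.1 b.2 = z),
              ‖f (y b.1 b.2)‖ ^ 2
          ≤ ∑ z ∈ (s ×ˢ (Finset.univ : Finset (Fin q))).image (fun b => y b.1 b.2),
            (p : ℝ) * ‖f z‖ ^ 2 := by
            refine Finset.sum_le_sum fun z _ => ?_
            have h3 : ∀ b ∈ (s ×ˢ (Finset.univ : Finset (Fin q))).filter (fun b => y b.1 b.2 = z),
                ‖f (y b.1 b.2)‖ ^ 2 = ‖f z‖ ^ 2 := fun b hb => by
              rw [(Finset.mem_filter.1 hb).2]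
            rw [Finset.sum_congr rfl h3, Finset.sum_const, nsmul_eq_mul]
            refine mul_le_mul_of_nonneg_right ?_ (sq_nonneg _)
            exact_mod_cast hp z _ fun b hb => (Finset.mem_filter.1 hb).2
        _ = p * ∑ z ∈ (s ×ˢ (Finset.univ : Finset (Fin q))).image (fun b => y b.1 b.2),
            ‖f z‖ ^ 2 := by rw [Finset.mul_sum]
        _ ≤ p * ‖f‖ ^ 2 := by
            refine mul_le_mul_of_nonneg_left ?_ (Nat.cast_nonneg _)
            have h3 := lp.sum_rpow_le_norm_rpow h2pos f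
              ((s ×ˢ (Finset.univ : Finset (Fin q))).image (fun b => y b.1 b.2))
            rw [h2R] at h3
            simp only [Real.rpow_natCast] at h3
            exact h3
    rw [div_mul_eq_mul_div, le_div_iff₀ hq, mul_comm, h1]
    exact h2
  have hmem : ∀ f : lp (fun _ : X => Lp ℂ 2 (P q)) 2,
      Memℓp (fun x => L (v f x)) 2 := by
    intro f
    refine memℓp_gen' (C := p / q * ‖f‖ ^ 2) fun s => ?_
    rw [h2R]
    simp only [Real.rpow_natCast]
    exact hsum f s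
  let T₀ : lp (fun _ : X => Lp ℂ 2 (P q)) 2 →ₗ[ℂ] lp (fun _ : X => Lp ℂ 2 (P q)) 2 :=
    { toFun := fun f => ⟨fun x => L (v f x), hmem f⟩
      map_add' := by
        intro f g
        apply lp.ext
        funext x
        have h1 : v (f + g) x = v f x + v g x := by
          funext j
          change Lp.compMeasurePreservingₗᵢ ℂ (φ x j) (hφ x j) ((f + g) (y x j)) = _
          rw [lp.coeFn_add, Pi.add_apply, map_add]
          rfl
        change L (v (f + g) x) = L (v f x) + L (v g x)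
        rw [h1, map_add]
      map_smul' := by
        intro c f
        apply lp.ext
        funext x
        have h1 : v (c • f) x = c • v f x := by
          funext j
          change Lp.compMeasurePreservingₗᵢ ℂ (φ x j) (hφ x j) ((c • f) (y x j)) = _
          rw [lp.coeFn_smul, Pi.smul_apply, map_smul]
          rfl
        change L (v (c • f) x) = c • L (v f x)
        rw [h1, map_smul] }
  have hT₀ : ∀ f x, T₀ f x = L (v f x) := fun f x => rfl
  have hC : 0 ≤ Real.sqrt (p / q : ℝ) := Real.sqrt_nonneg _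
  have hpq : 0 ≤ (p / q : ℝ) := div_nonneg (Nat.cast_nonneg _) hq.le
  have hbound : ∀ f, ‖T₀ f‖ ≤ Real.sqrt (p / q : ℝ) * ‖f‖ := by
    intro f
    refine lp.norm_le_of_forall_sum_le h2pos (mul_nonneg hC (norm_nonneg f)) fun s => ?_
    rw [h2R]
    simp only [Real.rpow_natCast]
    rw [mul_pow, Real.sq_sqrt hpq]
    exact hsum f s
  refine ⟨T₀.mkContinuous (Real.sqrt (p / q : ℝ)) hbound, ?_, ?_⟩
  · intro f x j
    have h1 := hL (v f x) j
    have h2 : (v f x j : Om q → ℂ) =ᵐ[P q] (f (y x j) : Om q → ℂ) ∘ φ x j :=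
      Lp.coeFn_compMeasurePreserving (f (y x j)) (hφ x j)
    filter_upwards [h1, h2] with ω h3 h4
    rw [LinearMap.mkContinuous_apply, hT₀, h3, h4]
    rfl
  · intro f
    rw [LinearMap.mkContinuous_apply]
    have h1 := pow_le_pow_left₀ (norm_nonneg _) (hbound f) 2
    rw [mul_pow, Real.sq_sqrt hpq] at h1
    have h2 := mul_le_mul_of_nonneg_left h1 hq.le
    have h3 : (q : ℝ) * (p / q * ‖f‖ ^ 2) = p * ‖f‖ ^ 2 := by
      field_simp
    rwa [h3] at h2

end Pool.Agent.LibBS2
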