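import Pool.Agent.LibBS2.D05

/-!
D08. The integer valued functions form a closed subgroup, preserved by `T`.

PLAN. closed_int: `f ↦ f x` is continuous, so it is enough that
`{F : Lp ℂ 2 μ | ∀ᵐ ω, ∃ n : ℤ, F ω = n}` is closed: if `F_k → F` in `L²` then a subsequence converges
a.e. (`tendstoInMeasure_of_tendsto_Lp`, `TendstoInMeasure.exists_seq_tendsto_ae`), and the image of
`ℤ` in `ℂ` is closed. (sequential closedness: `isSeqClosed`.) T_int: ae_of_cons, transport by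
`(hφ x j).quasiMeasurePreserving.ae`.
-/

set_option autoImplicit false

namespace Pool.Agent.LibBS2

open MeasureTheory
open scoped ENNReal

private theorem D08_closed_int : IsClosed {z : ℂ | ∃ n : ℤ, z = n} := by
  have h1 : {z : ℂ | ∃ n : ℤ, z = n} = Set.range (fun n : ℤ => ((n : ℝ) : ℂ)) := by
    ext z
    simp only [Set.mem_ofPred_eq, Set.mem_range]
    constructor
    · rintro ⟨n, rfl⟩
      exact ⟨n, by push_cast; rfl⟩
    · rintro ⟨n, rfl⟩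
      exact ⟨n, by push_cast; rfl⟩
  rw [h1]
  have h2 : Topology.IsClosedEmbedding (fun n : ℤ => ((n : ℝ) : ℂ)) :=
    Complex.isometry_ofReal.isClosedEmbedding.comp Int.isClosedEmbedding_coe_real
  exact h2.isClosed_range

private theorem D08_Lp {Ω : Type} [MeasurableSpace Ω] (μ : Measure Ω) :
    IsClosed {F : Lp ℂ 2 μ | ∀ᵐ ω ∂μ, ∃ n : ℤ, (F : Ω → ℂ) ω = n} := by
  refine IsSeqClosed.isClosed ?_
  intro F G hF hG
  obtain ⟨ns, -, hns⟩ := (tendstoInMeasure_of_tendsto_Lp hG).exists_seq_tendsto_ae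
  have h1 : ∀ᵐ ω ∂μ, ∀ k : ℕ, ∃ n : ℤ, (F (ns k) : Ω → ℂ) ω = n :=
    ae_all_iff.2 fun k => hF (ns k)
  filter_upwards [hns, h1] with ω h2 h3
  exact D08_closed_int.mem_of_tendsto h2 (Filter.Eventually.of_forall h3)

theorem closed_int {X Ω : Type} [MeasurableSpace Ω] (μ : Measure Ω) :
    IsClosed {f : lp (fun _ : X => Lp ℂ 2 μ) 2 | ∀ x, ∀ᵐ ω ∂μ, ∃ n : ℤ, (f x : Ω → ℂ) ω = n} := by
  have h1 : {f : lp (fun _ : X => Lp ℂ 2 μ) 2 | ∀ x, ∀ᵐ ω ∂μ, ∃ n : ℤ, (f x : Ω → ℂ) ω = n} =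
      ⋂ x, (fun f : lp (fun _ : X => Lp ℂ 2 μ) 2 => f x) ⁻¹'
        {F : Lp ℂ 2 μ | ∀ᵐ ω ∂μ, ∃ n : ℤ, (F : Ω → ℂ) ω = n} := by
    ext f
    simp only [Set.mem_ofPred_eq, Set.mem_iInter, Set.mem_preimage]
  rw [h1]
  refine isClosed_iInter fun x => (D08_Lp μ).preimage ?_
  refine LipschitzWith.continuous (K := 1) (LipschitzWith.of_dist_le_mul fun f g => ?_)
  rw [dist_eq_norm, dist_eq_norm, NNReal.coe_one, one_mul]
  exact lp.norm_apply_le_norm (by norm_num) (f - g) x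

theorem T_int {q : ℕ} [NeZero q] {X : Type} {y : X → Fin q → X} {φ : X → Fin q → Om q → Om q}
    (hφ : ∀ x j, MeasurePreserving (φ x j) (P q) (P q))
    (f f' : lp (fun _ : X => Lp ℂ 2 (P q)) 2)
    (hf' : ∀ (x : X) (j : Fin q), ∀ᵐ ω ∂(P q),
      (f' x : Om q → ℂ) (cons j ω) = f (y x j) (φ x j ω))
    (hf : ∀ x, ∀ᵐ ω ∂(P q), ∃ n : ℤ, (f x : Om q → ℂ) ω = n) (x : X) :
    ∀ᵐ ω ∂(P q), ∃ n : ℤ, (f' x : Om q → ℂ) ω = n := by
  refine ae_of_cons fun j => ?_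
  have h1 := (hφ x j).quasiMeasurePreserving.ae (hf (y x j))
  filter_upwards [hf' x j, h1] with ω h2 h3
  rw [h2]
  exact h3

end Pool.Agent.LibBS2
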