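import Pool.Agent.LibBS2.Defs

/-!
N02. The product measure and `cons`.

PLAN. P_eq: `Measure.eq_infinitePi` for the measure `ν = ∑ i, m⁻¹ • (P m).map (cons i)` (or for the image
of `(uni m).prod (P m)` under `(i, ω) ↦ cons i ω`): the preimage of the box `pi s t` under `cons i` is
empty if `0 ∈ s` and `i ∉ t 0`, and otherwise the box over `{k | k + 1 ∈ s}` with sides `t (k + 1)`;
`infinitePi_pi`. (One may replace `s` by `Finset.range N` with `N` large, `t k = univ` outside `s`, then
`Finset.prod_range_succ'`.) `cons i` is a measurable embedding (measurable, injective, and a left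
inverse `shift 1` on the measurable range `{ω | ω 0 = i}`; `MeasurableEmbedding.of_measurable_inverse`).
The other statements follow: `P m ≥ m⁻¹ • map (cons i)`. For pairs: `lint_cons_le` twice and
`lintegral_prod` (Tonelli).
-/

set_option autoImplicit false

namespace Pool.Agent.LibBS2

open MeasureTheory
open scoped ENNReal

variable {m : ℕ} [NeZero m]

theorem measurable_cons (i : Fin m) : Measurable (cons i : Om m → Om m) := by
  refine measurable_pi_iff.2 fun k => ?_
  cases k with
  | zero => exact measurable_const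
  | succ k => exact measurable_pi_apply k

theorem measurable_cons2 (i : Fin m) : Measurable (cons2 i : Om m × Om m → Om m × Om m) := by
  exact ((measurable_cons i).comp measurable_fst).prodMk ((measurable_cons i).comp measurable_snd)

theorem measurable_shift (k : ℕ) : Measurable (shift k : Om m → Om m) := by
  exact measurable_pi_iff.2 fun j => measurable_pi_apply (j + k)

theorem P_eq : P m = ∑ i : Fin m, (m : ℝ≥0∞)⁻¹ • (P m).map (cons i) := by
  refine (Measure.eq_infinitePi (μ := fun _ : ℕ => uni m) fun s t ht => ?_).symm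
  obtain ⟨N, hN⟩ : ∃ N : ℕ, s ⊆ Finset.range (N + 1) := by
    obtain ⟨N, hN⟩ := s.exists_nat_subset_range
    exact ⟨N, hN.trans (Finset.range_mono (Nat.le_succ N))⟩
  let T : ℕ → Set (Fin m) := fun k => if k ∈ s then t k else Set.univ
  have hT : ∀ k, MeasurableSet (T k) := fun k => MeasurableSet.of_discrete
  have hst : (Set.pi (s : Set ℕ) t : Set (Om m)) = Set.pi (Finset.range (N + 1) : Set ℕ) T := by
    ext ω
    simp only [Set.mem_pi, T]
    constructor
    · intro h k _
      by_cases hk : k ∈ s
      · rw [if_pos hk]; exact h k hk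
      · rw [if_neg hk]; exact Set.mem_univ _
    · intro h k hk
      have h1 := h k (hN hk)
      rwa [if_pos (show k ∈ s from hk)] at h1
  have hprod : ∏ k ∈ s, uni m (t k) = ∏ k ∈ Finset.range (N + 1), uni m (T k) := by
    rw [← Finset.prod_subset hN (fun k _ hk => by
      show uni m (if k ∈ s then t k else Set.univ) = 1
      rw [if_neg hk, measure_univ])]
    refine Finset.prod_congr rfl fun k hk => ?_
    show uni m (t k) = uni m (if k ∈ s then t k else Set.univ)
    rw [if_pos hk]
  rw [hst, hprod, Finset.prod_range_succ', Measure.finsetSum_apply]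
  have hbox : ∀ i : Fin m, ((P m).map (cons i)) (Set.pi (Finset.range (N + 1) : Set ℕ) T) =
      (T 0).indicator 1 i * ∏ k ∈ Finset.range N, uni m (T (k + 1)) := by
    intro i
    rw [Measure.map_apply (measurable_cons i)
      (MeasurableSet.pi (Finset.countable_toSet _) fun k _ => hT k)]
    by_cases hi : i ∈ T 0
    · have h1 : (cons i ⁻¹' Set.pi (Finset.range (N + 1) : Set ℕ) T : Set (Om m)) =
          Set.pi (Finset.range N : Set ℕ) fun k => T (k + 1) := by
        ext ω
        simp only [Set.mem_preimage, Set.mem_pi, Finset.coe_range, Set.mem_Iio]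
        constructor
        · intro h k hk
          exact h (k + 1) (by omega)
        · intro h k hk
          cases k with
          | zero => exact hi
          | succ k => exact h k (by omega)
      rw [h1, P, Measure.infinitePi_pi _ (fun k _ => hT (k + 1)), Set.indicator_of_mem hi,
        Pi.one_apply, one_mul]
    · have h1 : (cons i ⁻¹' Set.pi (Finset.range (N + 1) : Set ℕ) T : Set (Om m)) = ∅ := by
        ext ω
        simp only [Set.mem_preimage, Set.mem_pi, Finset.coe_range, Set.mem_Iio,
          Set.mem_empty_iff_false, iff_false]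
        intro h
        exact hi (h 0 (by omega))
      rw [h1, measure_empty, Set.indicator_of_notMem hi, zero_mul]
  have huni : uni m (T 0) = ∑ i : Fin m, (m : ℝ≥0∞)⁻¹ * (T 0).indicator 1 i := by
    rw [← lintegral_indicator_one (hT 0), uni, lintegral_smul_measure, lintegral_fintype,
      smul_eq_mul, Finset.mul_sum]
    refine Finset.sum_congr rfl fun i _ => ?_
    rw [Measure.count_singleton, mul_one]
  rw [huni, Finset.mul_sum]
  refine Finset.sum_congr rfl fun i _ => ?_
  rw [Measure.smul_apply, hbox i, smul_eq_mul]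
  ring

theorem lint_cons {φ : Om m → ℝ≥0∞} (hφ : Measurable φ) :
    ∫⁻ ω, φ ω ∂(P m) = (m : ℝ≥0∞)⁻¹ * ∑ i : Fin m, ∫⁻ ω, φ (cons i ω) ∂(P m) := by
  conv_lhs => rw [P_eq]
  rw [lintegral_finset_sum_measure, Finset.mul_sum]
  refine Finset.sum_congr rfl fun i _ => ?_
  rw [lintegral_smul_measure, lintegral_map hφ (measurable_cons i), smul_eq_mul]

theorem N02_emb (i : Fin m) : MeasurableEmbedding (cons i : Om m → Om m) := by
  have hm0 : Measurable fun ω : Om m => ω 0 := measurable_pi_apply 0
  have h0 : MeasurableSet {ω : Om m | ω 0 = i} := hm0 (MeasurableSet.singleton i)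
  have h1 : Set.range (cons i : Om m → Om m) = {ω : Om m | ω 0 = i} := by
    ext ω
    constructor
    · rintro ⟨ω', rfl⟩
      rfl
    · intro h
      refine ⟨shift 1 ω, ?_⟩
      funext k
      cases k with
      | zero => exact (show ω 0 = i from h).symm
      | succ k => rfl
  refine MeasurableEmbedding.of_measurable_inverse (measurable_cons i) (h1 ▸ h0)
    (measurable_shift 1) fun ω => ?_
  funext k
  rfl

/-- a property which holds almost surely below every child holds almost surely -/
theorem ae_of_cons {p : Om m → Prop} (h : ∀ i : Fin m, ∀ᵐ ω ∂(P m), p (cons i ω)) :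
    ∀ᵐ ω ∂(P m), p ω := by
  rw [ae_iff, P_eq, Measure.finsetSum_apply]
  refine Finset.sum_eq_zero fun i _ => ?_
  rw [Measure.smul_apply, (N02_emb i).map_apply]
  have h1 := h i
  rw [ae_iff] at h1
  rw [smul_eq_mul]
  have h2 : (cons i ⁻¹' {ω | ¬ p ω} : Set (Om m)) = {ω | ¬ p (cons i ω)} := rfl
  rw [h2, h1, mul_zero]

theorem qmp_cons (i : Fin m) :
    Measure.QuasiMeasurePreserving (cons i : Om m → Om m) (P m) (P m) := by
  refine ⟨measurable_cons i, Measure.AbsolutelyContinuous.mk fun s hs h0 => ?_⟩
  rw [P_eq, Measure.finsetSum_apply, Finset.sum_eq_zero_iff] at h0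
  have h1 := h0 i (Finset.mem_univ i)
  rw [Measure.smul_apply, smul_eq_mul, mul_eq_zero] at h1
  exact h1.resolve_left (ENNReal.inv_ne_zero.2 (ENNReal.natCast_ne_top m))

theorem qmp_cons2 (i : Fin m) :
    Measure.QuasiMeasurePreserving (cons2 i : Om m × Om m → Om m × Om m) (PP m) (PP m) := by
  refine ⟨measurable_cons2 i, ?_⟩
  have h1 : (PP m).map (cons2 i) = ((P m).map (cons i)).prod ((P m).map (cons i)) :=
    (Measure.map_prod_map (P m) (P m) (measurable_cons i) (measurable_cons i)).symm
  rw [h1]
  exact (qmp_cons i).2.prod (qmp_cons i).2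

theorem lint_cons_le (i : Fin m) {φ : Om m → ℝ≥0∞} (hφ : Measurable φ) :
    ∫⁻ ω, φ (cons i ω) ∂(P m) ≤ m * ∫⁻ ω, φ ω ∂(P m) := by
  rw [lint_cons hφ, ← mul_assoc, ENNReal.mul_inv_cancel (by simpa using NeZero.ne m)
    (ENNReal.natCast_ne_top m), one_mul]
  exact Finset.single_le_sum (f := fun i : Fin m => ∫⁻ ω, φ (cons i ω) ∂(P m))
    (fun _ _ => bot_le) (Finset.mem_univ i)

theorem lint_cons2_le (i : Fin m) {φ : Om m × Om m → ℝ≥0∞} (hφ : Measurable φ) :
    ∫⁻ z, φ (cons2 i z) ∂(PP m) ≤ m ^ 2 * ∫⁻ z, φ z ∂(PP m) := by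
  rw [lintegral_prod (fun z => φ (cons2 i z)) (hφ.comp (measurable_cons2 i)).aemeasurable,
    lintegral_prod _ hφ.aemeasurable]
  have hG : Measurable fun x : Om m => ∫⁻ y, φ (x, y) ∂(P m) := hφ.lintegral_prod_right'
  calc ∫⁻ x, ∫⁻ y, φ (cons2 i (x, y)) ∂(P m) ∂(P m) ≤
      ∫⁻ x, m * ∫⁻ y, φ (cons i x, y) ∂(P m) ∂(P m) := by
        refine lintegral_mono fun x => ?_
        exact lint_cons_le i (φ := fun y => φ (cons i x, y))
          (hφ.comp (measurable_const.prodMk measurable_id))
    _ = m * ∫⁻ x, (fun x : Om m => ∫⁻ y, φ (x, y) ∂(P m)) (cons i x) ∂(P m) :=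
        lintegral_const_mul _ (hG.comp (measurable_cons i))
    _ ≤ m * (m * ∫⁻ x, (∫⁻ y, φ (x, y) ∂(P m)) ∂(P m)) := by
        gcongr
        exact lint_cons_le i hG
    _ = m ^ 2 * ∫⁻ x, ∫⁻ y, φ (x, y) ∂(P m) ∂(P m) := by ring

end Pool.Agent.LibBS2
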