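import Pool.Agent.LibBS2.C00
import Pool.Agent.LibBS2.N02

/-!
D05. Gluing of functions on the space of digits.

PLAN. `F ω = v (ω 0) (shift 1 ω)` for (strongly) measurable representatives of the `v j` (a finite
piecewise function: measurable). MemLp: `lint_cons` for `‖F‖ₑ²`; enorm_sq_Lp (C00). Uniqueness and
linearity: ae_of_cons (N02). As the statement is an existence statement, construct the linear map with
`IsLinearMap`/`LinearMap.mk` from the a.e. characterisation (Lp.ext + ae_of_cons; the a.e. equalities of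
the representatives of a sum are transported to the a.e. statement after `cons j` by `qmp_cons`).
-/

set_option autoImplicit false

namespace Pool.Agent.LibBS2

open MeasureTheory
open scoped ENNReal

variable {q : ℕ} [NeZero q]

/-- two elements which agree below every first digit are equal -/
theorem ext_cons {F F' : Lp ℂ 2 (P q)}
    (h : ∀ j : Fin q, ∀ᵐ ω ∂(P q), (F : Om q → ℂ) (cons j ω) = F' (cons j ω)) : F = F' :=
  Lp.ext (ae_of_cons h)

private noncomputable def D05_glue (v : Fin q → Lp ℂ 2 (P q)) (ω : Om q) : ℂ :=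
  (v (ω 0) : Om q → ℂ) (shift 1 ω)

private theorem D05_shift_cons (j : Fin q) (ω : Om q) : shift 1 (cons j ω) = ω := by
  funext k
  rfl

private theorem D05_glue_cons (v : Fin q → Lp ℂ 2 (P q)) (j : Fin q) (ω : Om q) :
    D05_glue v (cons j ω) = v j ω := by
  rw [D05_glue, D05_shift_cons]
  rfl

private theorem D05_meas (v : Fin q → Lp ℂ 2 (P q)) : Measurable (D05_glue v) := by
  have h1 : D05_glue v = fun ω : Om q => ∑ j : Fin q,
      if ω 0 = j then (v j : Om q → ℂ) (shift 1 ω) else 0 := by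
    funext ω
    rw [Finset.sum_ite_eq, if_pos (Finset.mem_univ _)]
    rfl
  rw [h1]
  refine Finset.measurable_sum _ fun j _ => Measurable.ite ?_ ?_ measurable_const
  · exact measurableSet_eq_fun (measurable_pi_apply (0 : ℕ)) measurable_const
  · exact (Lp.stronglyMeasurable (v j)).measurable.comp (measurable_shift 1)

private theorem D05_lint (v : Fin q → Lp ℂ 2 (P q)) :
    ∫⁻ ω, ‖D05_glue v ω‖ₑ ^ 2 ∂(P q) = (q : ℝ≥0∞)⁻¹ * ∑ j : Fin q, ‖v j‖ₑ ^ 2 := by
  rw [lint_cons ((D05_meas v).enorm.pow_const 2)]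
  congr 1
  refine Finset.sum_congr rfl fun j _ => ?_
  rw [enorm_sq_Lp]
  simp only [D05_glue_cons]

private theorem D05_memLp (v : Fin q → Lp ℂ 2 (P q)) : MemLp (D05_glue v) 2 (P q) := by
  refine ⟨(D05_meas v).aestronglyMeasurable, ?_⟩
  have h := eLpNorm_nnreal_pow_eq_lintegral (f := D05_glue v) (μ := P q) (p := 2) (by norm_num)
  have h2 : ((2 : NNReal) : ℝ) = ((2 : ℕ) : ℝ) := by norm_num
  simp only [h2, ENNReal.rpow_natCast] at h
  have h3 : ∫⁻ ω, ‖D05_glue v ω‖ₑ ^ 2 ∂(P q) ≠ ∞ := by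
    rw [D05_lint]
    refine ENNReal.mul_ne_top ?_ ?_
    · exact ENNReal.inv_ne_top.2 (by simpa using NeZero.ne q)
    · refine (ENNReal.sum_lt_top.2 fun j _ => ?_).ne
      exact ENNReal.pow_lt_top enorm_lt_top
  rw [← h] at h3
  by_contra h4
  rw [not_lt, top_le_iff] at h4
  apply h3
  have h5 : eLpNorm (D05_glue v) ((2 : NNReal) : ℝ≥0∞) (P q) = ⊤ := h4
  rw [h5]
  simp

private theorem D05_spec (v : Fin q → Lp ℂ 2 (P q)) (j : Fin q) :
    ∀ᵐ ω ∂(P q), ((D05_memLp v).toLp (D05_glue v) : Om q → ℂ) (cons j ω) = v j ω := by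
  have h1 := (qmp_cons j).ae (MemLp.coeFn_toLp (D05_memLp v))
  filter_upwards [h1] with ω hω
  rw [hω, D05_glue_cons]

theorem exists_glue : ∃ L : (Fin q → Lp ℂ 2 (P q)) →ₗ[ℂ] Lp ℂ 2 (P q),
    (∀ (v : Fin q → Lp ℂ 2 (P q)) (j : Fin q), ∀ᵐ ω ∂(P q), (L v : Om q → ℂ) (cons j ω) = v j ω) ∧
    ∀ v : Fin q → Lp ℂ 2 (P q), (q : ℝ) * ‖L v‖ ^ 2 = ∑ j, ‖v j‖ ^ 2 := by
  refine ⟨{ toFun := fun v => (D05_memLp v).toLp (D05_glue v)
            map_add' := fun v v' => ext_cons fun j => ?_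
            map_smul' := fun c v => ext_cons fun j => ?_ }, ?_, ?_⟩
  · have h1 := (qmp_cons j).ae (Lp.coeFn_add ((D05_memLp v).toLp (D05_glue v))
      ((D05_memLp v').toLp (D05_glue v')))
    filter_upwards [D05_spec (v + v') j, D05_spec v j, D05_spec v' j, h1,
      Lp.coeFn_add (v j) (v' j)] with ω e1 e2 e3 e4 e5
    rw [e1, e4, Pi.add_apply, e5, Pi.add_apply, Pi.add_apply, e2, e3]
  · have h1 := (qmp_cons j).ae (Lp.coeFn_smul c ((D05_memLp v).toLp (D05_glue v)))
    filter_upwards [D05_spec (c • v) j, D05_spec v j, h1, Lp.coeFn_smul c (v j)] with ω e1 e2 e3 e4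
    rw [e1, RingHom.id_apply, e3, Pi.smul_apply, e4, Pi.smul_apply, Pi.smul_apply, e2]
  · intro v j
    exact D05_spec v j
  · intro v
    have h1 : ‖(D05_memLp v).toLp (D05_glue v)‖ₑ ^ 2 =
        (q : ℝ≥0∞)⁻¹ * ∑ j : Fin q, ‖v j‖ₑ ^ 2 := by
      rw [enorm_sq_Lp, ← D05_lint]
      refine lintegral_congr_ae ?_
      filter_upwards [MemLp.coeFn_toLp (D05_memLp v)] with ω e1
      rw [e1]
    have h2 := congrArg ENNReal.toReal h1
    rw [ENNReal.toReal_pow, ENNReal.toReal_mul, ENNReal.toReal_inv, ENNReal.toReal_natCast,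
      ENNReal.toReal_sum (fun j _ => (ENNReal.pow_lt_top enorm_lt_top).ne)] at h2
    simp only [ENNReal.toReal_pow, toReal_enorm] at h2
    have h3 : (q : ℝ) ≠ 0 := by exact_mod_cast NeZero.ne q
    show (q : ℝ) * ‖(D05_memLp v).toLp (D05_glue v)‖ ^ 2 = ∑ j, ‖v j‖ ^ 2
    rw [h2, mul_inv_cancel_left₀ h3]

end Pool.Agent.LibBS2
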