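import Pool.Agent.LibBS2.D04
import Pool.Agent.LibBS2.D05

/-!
D09. `T` commutes with the action of `G`.

`f' = g f`, `F = T f`, `F' = T f'`; then `F' = g F`.

PLAN. ae_of_cons: it is enough to check at `(x, cons j ω)`. There
`F' x (cons j ω) = f' (y x j) (aff p (l x j) ω) = f (g⁻¹ y x j) (aff 1 (n g⁻¹ (y x j)) (aff p (l x j) ω))`
(hf' transported by `aff_mp`), `= f (g⁻¹ y x j) (aff p (n g⁻¹ (y x j) + l x j) ω)` (aff_aff), and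
`F (g⁻¹ x) (aff 1 (n g⁻¹ x) (cons j ω)) = F (g⁻¹ x) (cons j' (aff 1 l' ω))` (aff_cons, `j' = dig (..)`,
`l' = (..)/q`) `= f (y (g⁻¹ x) j') (aff p (l (g⁻¹ x) j') (aff 1 l' ω))` (hF transported by `aff_mp`),
`= f (y (g⁻¹ x) j') (aff p (l (g⁻¹ x) j' + p l') ω)`; y_equiv, l_equiv.
-/

set_option autoImplicit false

namespace Pool.Agent.LibBS2

open MeasureTheory
open scoped ENNReal

theorem T_comm {G : Type} [Group G] {a t : G} (ha : ∀ n : ℤ, n ≠ 0 → a ^ n ≠ 1) {C : Crd G a}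
    {p q : ℕ} [NeZero q] (D : KDat C t q) (h : t * a ^ p * t⁻¹ = a ^ q) (hpq : Nat.Coprime p q)
    (g : G) (f f' F F' : lp (fun _ : G ⧸ Subgroup.zpowers a => Lp ℂ 2 (P q)) 2)
    (hf' : ∀ x, ∀ᵐ ω ∂(P q),
      (f' x : Om q → ℂ) ω = f (g⁻¹ • x) ((C.ext ha q).act g⁻¹ x ω))
    (hF : ∀ x j, ∀ᵐ ω ∂(P q), (F x : Om q → ℂ) (cons j ω) = f (D.y x j) (aff p (D.l x j) ω))
    (hF' : ∀ x j, ∀ᵐ ω ∂(P q), (F' x : Om q → ℂ) (cons j ω) = f' (D.y x j) (aff p (D.l x j) ω))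
    (x : G ⧸ Subgroup.zpowers a) :
    ∀ᵐ ω ∂(P q), (F' x : Om q → ℂ) ω = F (g⁻¹ • x) ((C.ext ha q).act g⁻¹ x ω) := by
  refine ae_of_cons fun j => ?_
  have h1 := hF' x j
  have h2 := (aff_mp hpq (D.l x j)).quasiMeasurePreserving.ae (hf' (D.y x j))
  have h3 := (aff_mp (Nat.coprime_one_left q)
    ((C.n g⁻¹ x + ((j : ℕ) : ℤ)) / (q : ℤ))).quasiMeasurePreserving.ae
      (hF (g⁻¹ • x) (dig q (C.n g⁻¹ x + ((j : ℕ) : ℤ))))
  filter_upwards [h1, h2, h3] with ω e1 e2 e3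
  have e4 : (C.ext ha q).act g⁻¹ x (cons j ω) =
      cons (dig q (C.n g⁻¹ x + ((j : ℕ) : ℤ)))
        (aff 1 ((C.n g⁻¹ x + ((j : ℕ) : ℤ)) / (q : ℤ)) ω) := by
    change aff 1 (C.n g⁻¹ x) (cons j ω) = _
    rw [aff_cons, Nat.cast_one, one_mul]
  have e5 : (C.ext ha q).act g⁻¹ (D.y x j) (aff p (D.l x j) ω) =
      aff p (C.n g⁻¹ (D.y x j) + D.l x j) ω := by
    change aff 1 (C.n g⁻¹ (D.y x j)) (aff p (D.l x j) ω) = _
    rw [aff_aff, one_mul, Nat.cast_one, one_mul]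
  rw [e1, e2, e4, e3, e5, aff_aff, mul_one, D.y_equiv h, D.l_equiv ha h]

end Pool.Agent.LibBS2
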