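import Pool.Agent.LibBS2.D04

/-!
D10. The identities between the indicator functions (pointwise, no measure theory).

`eF x ω` is the indicator function of the set `x_1 = ⟨a^q⟩`, i.e. `x` is the base point and the first
digit is zero.

-/

set_option autoImplicit false

namespace Pool.Agent.LibBS2

open MeasureTheory
open scoped ENNReal

open Classical in
/-- the indicator function of the subgroup `⟨a^q⟩` -/
noncomputable def eF {G : Type} [Group G] (a : G) (q : ℕ) [NeZero q]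
    (x : G ⧸ Subgroup.zpowers a) (ω : Om q) : ℂ :=
  if x = QuotientGroup.mk 1 ∧ ω 0 = 0 then 1 else 0

open Classical in
/-- the indicator function of the fibre over the base point -/
noncomputable def oF {G : Type} [Group G] (a : G) (x : G ⧸ Subgroup.zpowers a) : ℂ :=
  if x = QuotientGroup.mk 1 then 1 else 0

variable {G : Type} [Group G] {a t : G} (ha : ∀ n : ℤ, n ≠ 0 → a ^ n ≠ 1) {C : Crd G a}
  {p q : ℕ} [NeZero q]

theorem D10_sum (p : ℕ) (hp : 0 < p) (m : ℤ) :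
    ∑ i ∈ Finset.range p, (if (p : ℤ) ∣ (i : ℤ) + m then (1 : ℂ) else 0) = 1 := by
  have hp' : (0 : ℤ) < p := by exact_mod_cast hp
  have h0 := Int.emod_nonneg (-m) hp'.ne'
  have h1 := Int.emod_lt_of_pos (-m) hp'
  have h2 := Int.emod_add_mul_ediv (-m) (p : ℤ)
  rw [Finset.sum_eq_single ((-m) % (p : ℤ)).toNat]
  · rw [if_pos]
    rw [Int.toNat_of_nonneg h0]
    exact ⟨-((-m) / (p : ℤ)), by linarith⟩
  · intro i hi hne
    rw [if_neg]
    rintro ⟨c, hc⟩
    apply hne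
    have h3 : ((i : ℤ)) = (-m) % (p : ℤ) := by
      have h4 : -m = (i : ℤ) + (p : ℤ) * (-c) := by linarith
      rw [h4, Int.add_mul_emod_self_left]
      exact (Int.emod_eq_of_lt (by positivity) (by exact_mod_cast Finset.mem_range.1 hi)).symm
    rw [← h3, Int.toNat_natCast]
  · intro h
    exact absurd (Finset.mem_range.2 (by omega)) h

theorem D10_dig (q : ℕ) [NeZero q] (z : ℤ) : dig q z = 0 ↔ (q : ℤ) ∣ z := by
  have h0 : dig q 0 = (0 : Fin q) := by
    apply Fin.ext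
    have h1 := dig_val q 0
    rw [Int.zero_emod] at h1
    rw [Fin.val_zero]
    exact_mod_cast h1
  rw [← h0, dig_eq_iff, sub_zero]

theorem D10_act (C : Crd G a) (ha : ∀ n : ℤ, n ≠ 0 → a ^ n ≠ 1) (g : G)
    (x : G ⧸ Subgroup.zpowers a) (ω : Om q) :
    ((C.ext ha q).act g x ω) 0 = 0 ↔ (q : ℤ) ∣ C.n g x + ((ω 0 : ℕ) : ℤ) := by
  have h1 : ((C.ext ha q).act g x ω) 0 = dig q (C.n g x + ((1 : ℕ) : ℤ) * ((ω 0 : ℕ) : ℤ)) := rfl
  rw [h1, D10_dig, Nat.cast_one, one_mul]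

theorem D10_mk (a : G) (i : ℤ) : (QuotientGroup.mk (a ^ i) : G ⧸ Subgroup.zpowers a) =
    QuotientGroup.mk 1 := by
  rw [QuotientGroup.eq]
  exact Subgroup.mem_zpowers_iff.2 ⟨-i, by simp⟩

theorem D10_smul (a : G) (i : ℤ) (x : G ⧸ Subgroup.zpowers a) :
    a ^ i • x = QuotientGroup.mk 1 ↔ x = QuotientGroup.mk 1 := by
  have h1 : ∀ i : ℤ, a ^ i • (QuotientGroup.mk 1 : G ⧸ Subgroup.zpowers a) =
      QuotientGroup.mk 1 := by
    intro i
    rw [MulAction.Quotient.smul_mk, smul_eq_mul, mul_one]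
    exact D10_mk a i
  constructor
  · intro h
    have h2 := congrArg (fun y => a ^ (-i) • y) h
    rw [smul_smul, ← zpow_add, neg_add_cancel, zpow_zero, one_smul, h1] at h2
    exact h2
  · rintro rfl
    exact h1 i

theorem R1 (x : G ⧸ Subgroup.zpowers a) (ω : Om q) :
    oF a x = ∑ i ∈ Finset.range q, eF a q (a ^ i • x) ((C.ext ha q).act (a ^ i) x ω) := by
  unfold oF eF
  by_cases hx : x = QuotientGroup.mk 1
  · rw [if_pos hx]
    refine (D10_sum q (Nat.pos_of_ne_zero (NeZero.ne q)) ((ω 0 : ℕ) : ℤ)).symm.trans ?_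
    refine Finset.sum_congr rfl fun i _ => ?_
    have h1 : (a ^ i • x = QuotientGroup.mk 1 ∧ ((C.ext ha q).act (a ^ i) x ω) 0 = 0) ↔
        (q : ℤ) ∣ (i : ℤ) + ((ω 0 : ℕ) : ℤ) := by
      have h2 := D10_smul a i x
      rw [zpow_natCast] at h2
      have h3 : C.n (a ^ i) x = i := by
        rw [hx, ← zpow_natCast]
        exact C.n_pow ha i
      rw [h2, D10_act, h3]
      exact and_iff_right hx
    simp only [h1]
  · rw [if_neg hx]
    symm
    refine Finset.sum_eq_zero fun i _ => ?_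
    rw [if_neg]
    rintro ⟨h1, -⟩
    have h2 := D10_smul a i x
    rw [zpow_natCast] at h2
    exact hx (h2.1 h1)

theorem R3 (x : G ⧸ Subgroup.zpowers a) (ω : Om q) :
    eF a q ((a ^ q)⁻¹ • x) ((C.ext ha q).act (a ^ q)⁻¹ x ω) = eF a q x ω := by
  have h0 : (a ^ q)⁻¹ = a ^ (-(q : ℤ)) := by
    rw [zpow_neg, zpow_natCast]
  have h1 : ((a ^ q)⁻¹ • x = QuotientGroup.mk 1 ∧ ((C.ext ha q).act (a ^ q)⁻¹ x ω) 0 = 0) ↔
      (x = QuotientGroup.mk 1 ∧ ω 0 = 0) := by
    rw [D10_act, h0, D10_smul]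
    refine and_congr_right fun hx => ?_
    rw [hx, C.n_pow ha]
    constructor
    · rintro ⟨c, hc⟩
      have h2 : (((ω 0 : Fin q) : ℕ) : ℤ) = (q : ℤ) * (c + 1) := by linarith
      have h3 : (((ω 0 : Fin q) : ℕ) : ℤ) < q := by exact_mod_cast (ω 0).2
      have h4 : (0 : ℤ) ≤ (((ω 0 : Fin q) : ℕ) : ℤ) := by positivity
      have h5 : (((ω 0 : Fin q) : ℕ) : ℤ) = 0 := by
        have h6 : (q : ℤ) ∣ (((ω 0 : Fin q) : ℕ) : ℤ) := ⟨c + 1, h2⟩
        exact Int.eq_zero_of_dvd_of_nonneg_of_lt h4 h3 h6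
      apply Fin.ext
      rw [Fin.val_zero]
      exact_mod_cast h5
    · intro h2
      rw [h2, Fin.val_zero]
      exact ⟨-1, by push_cast; ring⟩
  unfold eF
  simp only [h1]

theorem R2 (D : KDat C t q) (hp : 0 < p) (h : t * a ^ p * t⁻¹ = a ^ q)
    (x : G ⧸ Subgroup.zpowers a) (j : Fin q) (ω : Om q) :
    oF a (D.y x j) = ∑ i ∈ Finset.range p,
      eF a q ((t * a ^ i) • x) ((C.ext ha q).act (t * a ^ i) x (cons j ω)) := by
  have hk : ∀ k : ℤ, t * a ^ ((p : ℤ) * k) * t⁻¹ = a ^ ((q : ℤ) * k) := by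
    intro k
    rw [zpow_mul, zpow_mul, zpow_natCast, zpow_natCast, ← h, conj_zpow]
  have key : ∀ i : ℕ, ((t * a ^ i) • x = QuotientGroup.mk 1 ∧
      ((C.ext ha q).act (t * a ^ i) x (cons j ω)) 0 = 0) ↔
      ∃ k : ℤ, a ^ (i : ℤ) * (C.σ x * a ^ ((j : ℕ) : ℤ) * t) = a ^ ((p : ℤ) * k) := by
    intro i
    have hs := C.n_spec (t * a ^ i) x
    rw [D10_act]
    have hc : ((cons j ω : Om q) 0) = j := rfl
    rw [hc]
    constructor
    · rintro ⟨h1, k, h2⟩
      rw [h1, C.σ_one, one_mul] at hs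
      refine ⟨k, ?_⟩
      have h3 : t * (a ^ (i : ℤ) * (C.σ x * a ^ ((j : ℕ) : ℤ) * t)) * t⁻¹ =
          t * a ^ ((p : ℤ) * k) * t⁻¹ := by
        rw [hk, ← h2, zpow_add, ← hs, zpow_natCast a i]
        group
      exact mul_left_cancel (mul_right_cancel h3)
    · rintro ⟨k, h1⟩
      have h2 : t * a ^ i * C.σ x = a ^ ((q : ℤ) * k - ((j : ℕ) : ℤ)) := by
        have h3 : t * (a ^ (i : ℤ) * (C.σ x * a ^ ((j : ℕ) : ℤ) * t)) * t⁻¹ =
            a ^ ((q : ℤ) * k) := by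
          rw [h1, hk]
        rw [zpow_sub, ← h3, zpow_natCast a i]
        group
      have h4 : (t * a ^ i) • x = QuotientGroup.mk 1 := by
        have h5 : (t * a ^ i) • x = QuotientGroup.mk (t * a ^ i * C.σ x) := by
          conv_lhs => rw [← C.mk_σ x]
          rfl
        rw [h5, h2]
        exact D10_mk a _
      refine ⟨h4, ?_⟩
      rw [h4, C.σ_one, one_mul, h2] at hs
      have h6 := zpow_inj ha hs
      rw [← h6]
      exact ⟨k, by ring⟩
  unfold oF eF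
  by_cases hy : D.y x j = QuotientGroup.mk 1
  · rw [if_pos hy]
    have hy' := hy
    rw [D.y_def, eq_comm, QuotientGroup.eq, inv_one, one_mul, Subgroup.mem_zpowers_iff] at hy'
    obtain ⟨m, hm⟩ := hy'
    refine (D10_sum p hp m).symm.trans ?_
    refine Finset.sum_congr rfl fun i _ => ?_
    have h1 : ((t * a ^ i) • x = QuotientGroup.mk 1 ∧
        ((C.ext ha q).act (t * a ^ i) x (cons j ω)) 0 = 0) ↔ (p : ℤ) ∣ (i : ℤ) + m := by
      rw [key, ← hm]
      constructor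
      · rintro ⟨k, hk'⟩
        rw [← zpow_add] at hk'
        exact ⟨k, zpow_inj ha hk'⟩
      · rintro ⟨k, hk'⟩
        refine ⟨k, ?_⟩
        rw [← zpow_add, hk']
    simp only [h1]
  · rw [if_neg hy]
    symm
    refine Finset.sum_eq_zero fun i _ => ?_
    rw [if_neg]
    rw [key]
    rintro ⟨k, hk'⟩
    apply hy
    rw [D.y_def]
    have h1 : C.σ x * a ^ ((j : ℕ) : ℤ) * t = a ^ (-(i : ℤ) + (p : ℤ) * k) := by
      rw [zpow_add, ← hk', zpow_neg]
      group
    rw [h1]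
    exact D10_mk a _

end Pool.Agent.LibBS2
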