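import Pool.Agent.LibBS2.B4b
import Pool.Agent.LibBS2.D06
import Pool.Agent.LibBS2.D08
import Pool.Agent.LibBS2.D09
import Pool.Agent.LibBS2.D10

/-!
The contraction `T` on the functions on the `q`-adic extension of `G ⧸ ⟨a⟩`, and the indicator
functions.
-/

set_option autoImplicit false

namespace Pool.Agent.LibBS2

open MeasureTheory
open scoped ENNReal

/-- equality of elements of `ℓ²(X; L²)` -/
theorem B4_ext {X Ω : Type} [MeasurableSpace Ω] {μ : Measure Ω} {f f' : LX X Ω μ}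
    (h : ∀ x, ∀ᵐ ω ∂μ, (f x : Ω → ℂ) ω = f' x ω) : f = f' := by
  ext x : 2
  exact Lp.ext (h x)

/-- the coordinates of the translate -/
theorem B4_op {G X Ω : Type} [Group G] [MulAction G X] [MeasurableSpace Ω] {μ : Measure Ω}
    (D : Ext G X Ω μ) (g : G) (f : LX X Ω μ) (x : X) :
    ∀ᵐ ω ∂μ, (D.coc.op g f x : Ω → ℂ) ω = f (g⁻¹ • x) (D.act g⁻¹ x ω) := by
  filter_upwards [D.coc_apply g x (f (g⁻¹ • x))] with ω h
  rw [VCoc.op_apply, h]

/-- finite sums -/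
theorem B4_sum {X Ω : Type} [MeasurableSpace Ω] {μ : Measure Ω} {ι : Type} (s : Finset ι)
    (f : ι → LX X Ω μ) (x : X) :
    ∀ᵐ ω ∂μ, ((∑ i ∈ s, f i : LX X Ω μ) x : Ω → ℂ) ω = ∑ i ∈ s, (f i x : Ω → ℂ) ω := by
  classical
  induction s using Finset.induction_on with
  | empty =>
    filter_upwards [Lp.coeFn_zero ℂ 2 μ] with ω h
    simp only [Finset.sum_empty]
    show ((0 : Lp ℂ 2 μ) : Ω → ℂ) ω = 0
    rw [h]
    rfl
  | insert i s hi ih =>
    rw [Finset.sum_insert hi]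
    filter_upwards [ih, Lp.coeFn_add (f i x) ((∑ i ∈ s, f i : LX X Ω μ) x)] with ω h1 h2
    show ((f i x + (∑ i ∈ s, f i : LX X Ω μ) x : Lp ℂ 2 μ) : Ω → ℂ) ω = _
    rw [h2, Pi.add_apply, h1, Finset.sum_insert hi]

variable {G : Type} [Group G] {a t : G}

/-- the indicator function of the subset `⟨a^q⟩` -/
theorem B4_exists_e (a : G) (q : ℕ) [NeZero q] :
    ∃ e : NN (G ⧸ Subgroup.zpowers a) (Om q) (P q),
      ∀ x, ∀ᵐ ω ∂(P q), (e.1 x : Om q → ℂ) ω = eF a q x ω := by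
  classical
  have hms : MeasurableSet {ω : Om q | ω 0 = 0} :=
    (measurable_pi_apply 0 : Measurable fun ω : Om q => ω 0) (measurableSet_singleton 0)
  let v : Lp ℂ 2 (P q) := indicatorConstLp 2 hms (measure_ne_top _ _) 1
  have hv : ∀ᵐ ω ∂(P q), (v : Om q → ℂ) ω = if ω 0 = 0 then 1 else 0 := by
    filter_upwards [indicatorConstLp_coeFn (p := 2) (μ := P q) (hs := hms)
      (hμs := measure_ne_top _ _) (c := (1 : ℂ))] with ω h
    rw [h, Set.indicator_apply]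
    rfl
  let e0 : LX (G ⧸ Subgroup.zpowers a) (Om q) (P q) := lp.single 2 (QuotientGroup.mk 1) v
  have he0 : ∀ x, ∀ᵐ ω ∂(P q), (e0 x : Om q → ℂ) ω = eF a q x ω := by
    intro x
    by_cases hx : x = QuotientGroup.mk 1
    · subst hx
      filter_upwards [hv] with ω h
      have h1 : e0 (QuotientGroup.mk 1) = v := lp.single_apply_self _ _ _
      rw [h1, h, eF]
      simp
    · have h1 : e0 x = 0 := lp.single_apply_ne _ _ _ hx
      rw [h1]
      filter_upwards [Lp.coeFn_zero ℂ 2 (P q)] with ω h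
      rw [h, eF]
      simp [hx]
  refine ⟨⟨e0, fun x => ?_⟩, he0⟩
  filter_upwards [he0 x] with ω h
  rw [h, eF]
  split_ifs
  · exact ⟨1, by simp⟩
  · exact ⟨0, by simp⟩

/-- the indicator function of the fibre over the base point -/
theorem B4_o (a : G) (q : ℕ) [NeZero q] (x : G ⧸ Subgroup.zpowers a) :
    ∀ᵐ ω ∂(P q), (iotaL (G ⧸ Subgroup.zpowers a) (P q)
      (MonoidAlgebra.single (QuotientGroup.mk 1) 1) x : Om q → ℂ) ω = oF a x := by
  classical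
  rw [iotaL_apply]
  filter_upwards [Lp.coeFn_smul
    (((MonoidAlgebra.single (QuotientGroup.mk 1 : G ⧸ Subgroup.zpowers a) (1 : ℤ)).coeff x : ℤ)
        : ℂ) (one1 (P q)), one1_ae (μ := P q)] with ω h2 h3
  rw [h2, Pi.smul_apply, h3, smul_eq_mul, mul_one, MonoidAlgebra.coeff_single,
    Finsupp.single_apply, oF]
  by_cases hx : x = QuotientGroup.mk 1
  · rw [if_pos hx.symm, if_pos hx, Int.cast_one]
  · rw [if_neg (fun h => hx h.symm), if_neg hx, Int.cast_zero]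

/-- translates of the indicator function -/
theorem B4_tr {X Ω : Type} [MulAction G X] [MeasurableSpace Ω] {μ : Measure Ω} (D : Ext G X Ω μ)
    (e : LX X Ω μ) (ε : X → Ω → ℂ) (he : ∀ x, ∀ᵐ ω ∂μ, (e x : Ω → ℂ) ω = ε x ω) (g : G) (x : X) :
    ∀ᵐ ω ∂μ, (D.coc.op g⁻¹ e x : Ω → ℂ) ω = ε (g • x) (D.act g x ω) := by
  have h2 := (D.mp g x).quasiMeasurePreserving.ae (he (g • x))
  have h3 := B4_op D g⁻¹ e x
  rw [inv_inv] at h3
  filter_upwards [h2, h3] with ω h4 h5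
  rw [h5, h4]

/-- sums of translates of the indicator function -/
theorem B4_trsum {X Ω : Type} [MulAction G X] [MeasurableSpace Ω] {μ : Measure Ω} (D : Ext G X Ω μ)
    (e : LX X Ω μ) (ε : X → Ω → ℂ) (he : ∀ x, ∀ᵐ ω ∂μ, (e x : Ω → ℂ) ω = ε x ω) (γ : ℕ → G)
    (n : ℕ) (x : X) :
    ∀ᵐ ω ∂μ, ((∑ i ∈ Finset.range n, D.coc.op (γ i)⁻¹ e : LX X Ω μ) x : Ω → ℂ) ω =
      ∑ i ∈ Finset.range n, ε (γ i • x) (D.act (γ i) x ω) := by
  have h1 : ∀ᵐ ω ∂μ, ∀ i ∈ Finset.range n, (D.coc.op (γ i)⁻¹ e x : Ω → ℂ) ω =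
      ε (γ i • x) (D.act (γ i) x ω) :=
    (Filter.eventually_all_finset (Finset.range n)).2 fun i _ => B4_tr D e ε he (γ i) x
  filter_upwards [B4_sum (Finset.range n) (fun i => D.coc.op (γ i)⁻¹ e) x, h1] with ω h5 h6
  rw [h5, Finset.sum_congr rfl h6]

/-- the contraction -/
theorem B4_T (ha : ∀ n : ℤ, n ≠ 0 → a ^ n ≠ 1) (C : Crd G a) (p q : ℕ) [NeZero q]
    (K : KDat C t q) (hp : 0 < p) (hpq : p < q) (hc : Nat.Coprime p q)
    (h : t * a ^ p * t⁻¹ = a ^ q) :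
    ∃ (T : LX (G ⧸ Subgroup.zpowers a) (Om q) (P q) →+ LX (G ⧸ Subgroup.zpowers a) (Om q) (P q))
      (r : ℝ), 0 ≤ r ∧ r < 1 ∧ (∀ f, ‖T f‖ ≤ r * ‖f‖) ∧
      (∀ f ∈ NN (G ⧸ Subgroup.zpowers a) (Om q) (P q),
        T f ∈ NN (G ⧸ Subgroup.zpowers a) (Om q) (P q)) ∧
      (∀ g f, T ((C.ext ha q).coc.op g f) = (C.ext ha q).coc.op g (T f)) ∧
      ∀ f x j, ∀ᵐ ω ∂(P q),
        (T f x : Om q → ℂ) (cons j ω) = f (K.y x j) (aff p (K.l x j) ω) := by
  obtain ⟨T, hT1, hT2⟩ := exists_T (q := q) (p := p) K.y (fun x j => aff p (K.l x j))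
    (fun x j => aff_mp hc _) (fun z s hs => K.card_fibre ha hp h z s hs)
  have hq0 : (0 : ℝ) < q := by exact_mod_cast Nat.pos_of_ne_zero (NeZero.ne q)
  refine ⟨AddMonoidHom.mk' (fun f => T f) (fun f f' => map_add T f f'), Real.sqrt (p / q),
    Real.sqrt_nonneg _, ?_, ?_, ?_, ?_, hT1⟩
  · rw [Real.sqrt_lt' one_pos, one_pow, div_lt_one hq0]
    exact_mod_cast hpq
  · intro f
    have h1 : ‖T f‖ ^ 2 ≤ (Real.sqrt (p / q) * ‖f‖) ^ 2 := by
      rw [mul_pow, Real.sq_sqrt (by positivity), div_mul_eq_mul_div, le_div_iff₀ hq0, mul_comm]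
      exact hT2 f
    exact (sq_le_sq₀ (norm_nonneg _) (mul_nonneg (Real.sqrt_nonneg _) (norm_nonneg _))).1 h1
  · intro f hf x
    exact T_int (fun x j => aff_mp hc _) f (T f) (hT1 f) hf x
  · intro g f
    show T ((C.ext ha q).coc.op g f) = (C.ext ha q).coc.op g (T f)
    refine B4_ext fun x => ?_
    have h1 := T_comm ha K h hc g f ((C.ext ha q).coc.op g f) (T f)
      (T ((C.ext ha q).coc.op g f)) (B4_op (C.ext ha q) g f) (hT1 f)
      (hT1 _) x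
    filter_upwards [h1, B4_op (C.ext ha q) g (T f) x] with ω h2 h3
    rw [h2, h3]

end Pool.Agent.LibBS2
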