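import Pool.Agent.LibBS2.CDefs

/-!
C00. Conversions between square summability over the reals and extended nonnegative reals.
-/

set_option autoImplicit false

namespace Pool.Agent.LibBS2

open MeasureTheory
open scoped ENNReal

variable {X : Type}

theorem sq_iff (c : X → ℝ) : Sq c ↔ ∑' x, ‖c x‖ₑ ^ 2 ≠ ∞ := by
  have h1 : (fun x => ‖c x‖ₑ ^ 2) = fun x => (((‖c x‖₊ ^ 2 : NNReal)) : ℝ≥0∞) := by
    funext x
    rw [enorm_eq_nnnorm, ENNReal.coe_pow]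
  rw [h1, ENNReal.tsum_coe_ne_top_iff_summable, ← NNReal.summable_coe, Sq]
  have h2 : (fun x => |c x| ^ 2) = fun x => ((‖c x‖₊ ^ 2 : NNReal) : ℝ) := by
    funext x
    simp
  rw [h2]

/-- the square of the norm in `L²` -/
theorem enorm_sq_Lp {α : Type} [MeasurableSpace α] {μ : Measure α} (f : Lp ℂ 2 μ) :
    ‖f‖ₑ ^ 2 = ∫⁻ z, ‖f z‖ₑ ^ 2 ∂μ := by
  have h := eLpNorm_nnreal_pow_eq_lintegral (f := (f : α → ℂ)) (μ := μ) (p := 2) (by norm_num)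
  rw [Lp.enorm_def]
  have h2 : ((2 : NNReal) : ℝ) = ((2 : ℕ) : ℝ) := by norm_num
  simp only [h2, ENNReal.rpow_natCast] at h
  exact h

/-- membership in `ℓ²` -/
theorem memlp_iff {E : Type} [NormedAddCommGroup E] (f : X → E) :
    Memℓp f 2 ↔ ∑' x, ‖f x‖ₑ ^ 2 ≠ ∞ := by
  have h := sq_iff (fun x => ‖f x‖)
  have h1 : (∑' x, ‖(‖f x‖ : ℝ)‖ₑ ^ 2) = ∑' x, ‖f x‖ₑ ^ 2 := by
    simp only [enorm_norm]
  rw [h1] at h
  rw [← h, memℓp_gen_iff (by norm_num)]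
  unfold Sq
  have h2 : (fun x => ‖f x‖ ^ (2 : ℝ≥0∞).toReal) = fun x => |‖f x‖| ^ 2 := by
    funext x
    rw [abs_norm, ENNReal.toReal_ofNat]
    exact Real.rpow_two _
  rw [h2]

end Pool.Agent.LibBS2
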