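import Pool.Agent.LibBS2.CDefs
import Pool.Agent.LibBS2.C00

/-!
C01. Elementary facts on measured extensions.

PLAN. act_inv, act_mul_inv: `D.mul`, `D.one`. act2_mp, act3_mp: `MeasurePreserving.prod`. SqE: sums as
for `Sq` (`‖a + b‖ₑ² ≤ 2 ‖a‖ₑ² + 2 ‖b‖ₑ²`, `ENNReal.tsum_add`), SqE.act: `MeasurePreserving.lintegral_comp`
and reindexing of the sum by `x ↦ g⁻¹ • x`.
-/

set_option autoImplicit false

namespace Pool.Agent.LibBS2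

open MeasureTheory
open scoped ENNReal
open Pool.Agent.LibCod83 (ex)

variable {G X Ω : Type} [Group G] [MulAction G X] [MeasurableSpace Ω] {μ : Measure Ω}

private theorem C01_sq (a b : ℝ) : ‖a + b‖ₑ ^ 2 ≤ 2 * ‖a‖ₑ ^ 2 + 2 * ‖b‖ₑ ^ 2 := by
  have h : ∀ t : ℝ, ‖t‖ₑ ^ 2 = ENNReal.ofReal (t ^ 2) := by
    intro t
    rw [Real.enorm_eq_ofReal_abs, ← ENNReal.ofReal_pow (abs_nonneg t), sq_abs]
  have h2 : (2 : ℝ≥0∞) = ENNReal.ofReal 2 := by norm_num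
  rw [h, h, h, h2, ← ENNReal.ofReal_mul (by norm_num), ← ENNReal.ofReal_mul (by norm_num),
    ← ENNReal.ofReal_add (by positivity) (by positivity)]
  apply ENNReal.ofReal_le_ofReal
  nlinarith [sq_nonneg (a - b)]

theorem SqE.add {c d : X → Ω → ℝ} (hc : SqE μ c) (hd : SqE μ d) :
    SqE μ fun x ω => c x ω + d x ω := by
  refine ⟨fun x => (hc.1 x).add (hd.1 x), ?_⟩
  have h1 : ∑' x, ∫⁻ ω, ‖c x ω + d x ω‖ₑ ^ 2 ∂μ ≤
      2 * ∑' x, ∫⁻ ω, ‖c x ω‖ₑ ^ 2 ∂μ + 2 * ∑' x, ∫⁻ ω, ‖d x ω‖ₑ ^ 2 ∂μ := by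
    rw [← ENNReal.tsum_mul_left, ← ENNReal.tsum_mul_left, ← ENNReal.tsum_add]
    refine ENNReal.tsum_le_tsum fun x => ?_
    calc ∫⁻ ω, ‖c x ω + d x ω‖ₑ ^ 2 ∂μ
        ≤ ∫⁻ ω, (2 * ‖c x ω‖ₑ ^ 2 + 2 * ‖d x ω‖ₑ ^ 2) ∂μ := lintegral_mono fun ω => C01_sq _ _
      _ = 2 * ∫⁻ ω, ‖c x ω‖ₑ ^ 2 ∂μ + 2 * ∫⁻ ω, ‖d x ω‖ₑ ^ 2 ∂μ := by
          rw [lintegral_add_left (((hc.1 x).enorm.pow_const 2).const_mul 2),
            lintegral_const_mul _ ((hc.1 x).enorm.pow_const 2),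
            lintegral_const_mul _ ((hd.1 x).enorm.pow_const 2)]
  refine ne_top_of_le_ne_top ?_ h1
  exact ENNReal.add_ne_top.2 ⟨ENNReal.mul_ne_top (by norm_num) hc.2,
    ENNReal.mul_ne_top (by norm_num) hd.2⟩

theorem SqE.neg {c : X → Ω → ℝ} (hc : SqE μ c) : SqE μ fun x ω => - c x ω := by
  refine ⟨fun x => (hc.1 x).neg, ?_⟩
  simp only [enorm_neg]
  exact hc.2

theorem SqE.sub {c d : X → Ω → ℝ} (hc : SqE μ c) (hd : SqE μ d) :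
    SqE μ fun x ω => c x ω - d x ω := by
  have h := hc.add hd.neg
  simpa only [sub_eq_add_neg] using h

theorem SqE.of_sq [IsProbabilityMeasure μ] {r : X → ℝ} (hr : Sq r) :
    SqE μ fun x (_ : Ω) => r x := by
  refine ⟨fun x => measurable_const, ?_⟩
  simp only [lintegral_const, measure_univ, mul_one]
  exact (sq_iff r).1 hr

namespace Ext

variable (D : Ext G X Ω μ)

theorem act_inv (g : G) (x : X) (ω : Ω) : D.act g⁻¹ (g • x) (D.act g x ω) = ω := by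
  rw [← D.mul, inv_mul_cancel, D.one]

theorem act_mul_inv (g h : G) (x : X) (ω : Ω) :
    D.act (g * h)⁻¹ x ω = D.act h⁻¹ (g⁻¹ • x) (D.act g⁻¹ x ω) := by
  rw [mul_inv_rev, D.mul]

theorem act2_mp [SFinite μ] (g : G) (x : X) :
    MeasurePreserving (D.act2 g x) (μ.prod μ) (μ.prod μ) :=
  (D.mp g x).prod (D.mp g x)

theorem act3_mp [SFinite μ] (g : G) (x : X) :
    MeasurePreserving (D.act3 g x) (μ.prod (μ.prod μ)) (μ.prod (μ.prod μ)) :=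
  (D.mp g x).prod ((D.mp g x).prod (D.mp g x))

theorem sqE_act (g : G) {c : X → Ω → ℝ} (hc : SqE μ c) :
    SqE μ fun x ω => c (g⁻¹ • x) (D.act g⁻¹ x ω) := by
  refine ⟨fun x => (hc.1 _).comp (D.mp g⁻¹ x).measurable, ?_⟩
  have h1 : ∀ x, ∫⁻ ω, ‖c (g⁻¹ • x) (D.act g⁻¹ x ω)‖ₑ ^ 2 ∂μ =
      ∫⁻ ω, ‖c (g⁻¹ • x) ω‖ₑ ^ 2 ∂μ := by
    intro x
    exact (D.mp g⁻¹ x).lintegral_comp (f := fun ω => ‖c (g⁻¹ • x) ω‖ₑ ^ 2)
      ((hc.1 _).enorm.pow_const 2)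
  rw [tsum_congr h1]
  have h2 := (MulAction.toPerm g⁻¹ : X ≃ X).tsum_eq (fun x => ∫⁻ ω, ‖c x ω‖ₑ ^ 2 ∂μ)
  simp only [MulAction.toPerm_apply] at h2
  rw [h2]
  exact hc.2

end Ext

end Pool.Agent.LibBS2
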