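import Pool.Agent.LibBS2.C01

/-!
C02. The unimodular functions `sgE c`.

PLAN. `norm_ex`, `ex_add`, `ex_neg`, `ex_int` (LibCod83.Elem). sgE_mul: TameE for `IsCoc`: for a.e.
`ω`: `c h (g⁻¹ x) (g⁻¹ ω) - c (gh) x ω + c g x ω = r + n(ω)`; take the difference at the two
coordinates of the pair (`Measure.quasiMeasurePreserving_fst/snd` `.ae`). energy_sgE:
`‖ex t - 1‖ ≤ 2π|t|` (norm_ex_sub_one), `|a - b|² ≤ 2 a² + 2 b²`, lintegral over the product of a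
function of one coordinate (`lintegral_prod`, probability measure), SqE.
-/

set_option autoImplicit false

namespace Pool.Agent.LibBS2

open MeasureTheory
open scoped ENNReal
open Pool.Agent.LibCod83 (ex)

variable {G X Ω : Type} [Group G] [MulAction G X] [MeasurableSpace Ω] {μ : Measure Ω}

theorem norm_sgE (c : X → Ω → ℝ) (x : X) (z : Ω × Ω) : ‖sgE c x z‖ = 1 := by
  unfold sgE
  exact Pool.Agent.LibCod83.norm_ex _

theorem C02_measurable_ex : Measurable ex := by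
  unfold Pool.Agent.LibCod83.ex
  fun_prop

theorem measurable_sgE {c : X → Ω → ℝ} (hc : ∀ x, Measurable (c x)) (x : X) :
    Measurable (sgE c x) := by
  unfold sgE
  exact C02_measurable_ex.comp
    (((hc x).comp measurable_fst).sub ((hc x).comp measurable_snd))

/-- the additive triple relation, exact -/
theorem sgE_trip (c : X → Ω → ℝ) (x : X) (ξ η ζ : Ω) :
    sgE c x (ξ, η) * sgE c x (η, ζ) = sgE c x (ξ, ζ) := by
  simp only [sgE]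
  rw [← Pool.Agent.LibCod83.ex_add]
  congr 1
  ring

variable [IsProbabilityMeasure μ]

theorem C02_bound (a b : ℝ) :
    ‖ex (a - b) - 1‖ₑ ^ 2 ≤ ENNReal.ofReal (8 * Real.pi ^ 2) * (‖a‖ₑ ^ 2 + ‖b‖ₑ ^ 2) := by
  have h1 : ‖ex (a - b) - 1‖ ≤ 2 * Real.pi * |a - b| := Pool.Agent.LibCod83.norm_ex_sub_one _
  have h2 : ‖ex (a - b) - 1‖ ^ 2 ≤ 8 * Real.pi ^ 2 * (‖a‖ ^ 2 + ‖b‖ ^ 2) := by
    have h3 : ‖ex (a - b) - 1‖ ^ 2 ≤ (2 * Real.pi * |a - b|) ^ 2 :=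
      pow_le_pow_left₀ (norm_nonneg _) h1 2
    have h4 : (2 * Real.pi * |a - b|) ^ 2 = 4 * Real.pi ^ 2 * (a - b) ^ 2 := by
      rw [mul_pow, sq_abs]; ring
    have h5 : (a - b) ^ 2 ≤ 2 * (a ^ 2 + b ^ 2) := by nlinarith [sq_nonneg (a + b)]
    have h6 : ‖a‖ ^ 2 = a ^ 2 := by rw [Real.norm_eq_abs, sq_abs]
    have h7 : ‖b‖ ^ 2 = b ^ 2 := by rw [Real.norm_eq_abs, sq_abs]
    rw [h6, h7]
    have h8 : 0 ≤ 4 * Real.pi ^ 2 := by positivity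
    nlinarith [mul_le_mul_of_nonneg_left h5 h8]
  have e1 : ‖ex (a - b) - 1‖ₑ ^ 2 = ENNReal.ofReal (‖ex (a - b) - 1‖ ^ 2) := by
    rw [← ofReal_norm, ENNReal.ofReal_pow (norm_nonneg _)]
  have e2 : ∀ t : ℝ, ‖t‖ₑ ^ 2 = ENNReal.ofReal (‖t‖ ^ 2) := fun t => by
    rw [← ofReal_norm, ENNReal.ofReal_pow (norm_nonneg _)]
  rw [e1, e2 a, e2 b, ← ENNReal.ofReal_add (by positivity) (by positivity),
    ← ENNReal.ofReal_mul (by positivity)]
  exact ENNReal.ofReal_le_ofReal h2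

theorem energy_sgE {c : X → Ω → ℝ} (hc : SqE μ c) :
    ∑' x, ∫⁻ z, ‖sgE c x z - 1‖ₑ ^ 2 ∂(μ.prod μ) ≠ ∞ := by
  obtain ⟨hm, hs⟩ := hc
  have key : ∀ x, ∫⁻ z, ‖sgE c x z - 1‖ₑ ^ 2 ∂(μ.prod μ) ≤
      ENNReal.ofReal (8 * Real.pi ^ 2) * (2 * ∫⁻ ω, ‖c x ω‖ₑ ^ 2 ∂μ) := by
    intro x
    have hmx : Measurable fun ω => ‖c x ω‖ₑ ^ 2 := ((hm x).enorm.pow_const 2)
    calc ∫⁻ z, ‖sgE c x z - 1‖ₑ ^ 2 ∂(μ.prod μ)
        ≤ ∫⁻ z, ENNReal.ofReal (8 * Real.pi ^ 2) * (‖c x z.1‖ₑ ^ 2 + ‖c x z.2‖ₑ ^ 2)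
            ∂(μ.prod μ) := by
          refine lintegral_mono fun z => ?_
          exact C02_bound _ _
      _ = ENNReal.ofReal (8 * Real.pi ^ 2) *
            ∫⁻ z, (‖c x z.1‖ₑ ^ 2 + ‖c x z.2‖ₑ ^ 2) ∂(μ.prod μ) := by
          rw [lintegral_const_mul]
          exact (hmx.comp measurable_fst).add (hmx.comp measurable_snd)
      _ = ENNReal.ofReal (8 * Real.pi ^ 2) * (2 * ∫⁻ ω, ‖c x ω‖ₑ ^ 2 ∂μ) := by
          have hm1 : Measurable fun z : Ω × Ω => ‖c x z.1‖ₑ ^ 2 := hmx.comp measurable_fst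
          rw [lintegral_add_left hm1, two_mul]
          congr 2
          · exact (measurePreserving_fst (μ := μ) (ν := μ)).lintegral_comp hmx
          · exact (measurePreserving_snd (μ := μ) (ν := μ)).lintegral_comp hmx
  have h2 : ∑' x, ∫⁻ z, ‖sgE c x z - 1‖ₑ ^ 2 ∂(μ.prod μ) ≤
      ENNReal.ofReal (8 * Real.pi ^ 2) * (2 * ∑' x, ∫⁻ ω, ‖c x ω‖ₑ ^ 2 ∂μ) := by
    rw [← ENNReal.tsum_mul_left, ← ENNReal.tsum_mul_left]
    exact ENNReal.tsum_le_tsum key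
  refine ne_top_of_le_ne_top ?_ h2
  exact ENNReal.mul_ne_top ENNReal.ofReal_ne_top (ENNReal.mul_ne_top (by simp) hs)

namespace Ext

variable (D : Ext G X Ω μ)

theorem sgE_mul {c : G → X → Ω → ℝ} (hc : D.IsCoc c) (g h : G) (x : X) :
    ∀ᵐ z ∂(μ.prod μ), sgE (c (g * h)) x z =
      sgE (c g) x z * sgE (c h) (g⁻¹ • x) (D.act2 g⁻¹ x z) := by
  obtain ⟨r, hr⟩ := hc.2 g h x
  have h1 := (Measure.quasiMeasurePreserving_fst (μ := μ) (ν := μ)).ae hr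
  have h2 := (Measure.quasiMeasurePreserving_snd (μ := μ) (ν := μ)).ae hr
  filter_upwards [h1, h2] with z hz1 hz2
  obtain ⟨n1, e1⟩ := hz1
  obtain ⟨n2, e2⟩ := hz2
  simp only [sgE, act2]
  rw [← Pool.Agent.LibCod83.ex_add]
  have e3 : c (g * h) x z.1 - c (g * h) x z.2 =
      (c g x z.1 - c g x z.2 + (c h (g⁻¹ • x) (D.act g⁻¹ x z.1) -
        c h (g⁻¹ • x) (D.act g⁻¹ x z.2))) + ((n2 - n1 : ℤ) : ℝ) := by
    push_cast
    linarith
  rw [e3, Pool.Agent.LibCod83.ex_add, Pool.Agent.LibCod83.ex_int, mul_one]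

theorem sgE_one {c : G → X → Ω → ℝ} (hc : D.IsCoc c) (x : X) :
    ∀ᵐ z ∂(μ.prod μ), sgE (c 1) x z = 1 := by
  filter_upwards [D.sgE_mul hc 1 1 x] with z hz
  have e : D.act2 1⁻¹ x z = z := by
    simp only [act2, inv_one, D.one]
  rw [e, inv_one, one_smul, mul_one] at hz
  have hn : sgE (c 1) x z ≠ 0 := by
    intro h0
    have := norm_sgE (c 1) x z
    rw [h0, norm_zero] at this
    exact zero_ne_one this
  exact mul_left_cancel₀ hn (by rw [mul_one]; exact hz.symm)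

end Ext

end Pool.Agent.LibBS2
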