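import Mathlib

/-!
N08. The weighted composition operator on `L²`.

PLAN. `opU σ T f` is the class of `z ↦ σ z * f (T z)`: `MemLp` by `MemLp.comp_measurePreserving`
(or `Lp.compMeasurePreserving`) and multiplication by a bounded measurable function of modulus one
(`MemLp.of_le`/ `memLp_congr_norm`); norm: `Lp.norm_def`, `eLpNorm_congr_norm_ae`,
`eLpNorm_comp_measurePreserving`. Linear: a.e. equalities (`Lp.coeFn_add`, `Lp.coeFn_smul`,
`QuasiMeasurePreserving.ae`).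
-/

set_option autoImplicit false

namespace Pool.Agent.LibBS2

open MeasureTheory
open scoped ENNReal

variable {α : Type} [MeasurableSpace α] {μ : Measure α}

theorem exists_opU (σ : α → ℂ) (hσ : Measurable σ) (h1 : ∀ z, ‖σ z‖ = 1) (T : α → α)
    (hT : MeasurePreserving T μ μ) :
    ∃ U : Lp ℂ 2 μ →ₗᵢ[ℂ] Lp ℂ 2 μ, ∀ f : Lp ℂ 2 μ, ∀ᵐ z ∂μ, (U f : α → ℂ) z = σ z * f (T z) := by
  have hmem : ∀ f : Lp ℂ 2 μ, MemLp (fun z => σ z * (f : α → ℂ) (T z)) 2 μ := by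
    intro f
    have h2 : MemLp (fun z => (f : α → ℂ) (T z)) 2 μ := (Lp.memLp f).comp_measurePreserving hT
    refine h2.congr_norm (hσ.aestronglyMeasurable.mul h2.1) ?_
    exact Filter.Eventually.of_forall fun z => by rw [norm_mul, h1, one_mul]
  have hcoe : ∀ f : Lp ℂ 2 μ, ∀ᵐ z ∂μ, ((hmem f).toLp _ : α → ℂ) z = σ z * (f : α → ℂ) (T z) :=
    fun f => (hmem f).coeFn_toLp
  refine ⟨⟨⟨⟨fun f => (hmem f).toLp _, ?_⟩, ?_⟩, ?_⟩, fun f => hcoe f⟩
  · intro f g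
    refine Lp.ext ?_
    have ha := hT.quasiMeasurePreserving.ae (Lp.coeFn_add f g)
    filter_upwards [hcoe (f + g), hcoe f, hcoe g, ha,
      Lp.coeFn_add ((hmem f).toLp _) ((hmem g).toLp _)] with z h1 h2 h3 h4 h5
    rw [h1, h4, h5, Pi.add_apply, Pi.add_apply, h2, h3, mul_add]
  · intro c f
    refine Lp.ext ?_
    have ha := hT.quasiMeasurePreserving.ae (Lp.coeFn_smul c f)
    filter_upwards [hcoe (c • f), hcoe f, ha,
      Lp.coeFn_smul ((RingHom.id ℂ) c) ((hmem f).toLp _)] with z h1 h2 h3 h4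
    change (((hmem (c • f)).toLp _ : Lp ℂ 2 μ) : α → ℂ) z
      = (((RingHom.id ℂ) c • (hmem f).toLp _ : Lp ℂ 2 μ) : α → ℂ) z
    rw [h1, h3, h4, Pi.smul_apply, Pi.smul_apply, h2, smul_eq_mul, smul_eq_mul, RingHom.id_apply]
    ring
  · intro f
    change ‖((hmem f).toLp _ : Lp ℂ 2 μ)‖ = ‖f‖
    rw [Lp.norm_toLp, Lp.norm_def]
    congr 1
    have h3 : eLpNorm (fun z => σ z * (f : α → ℂ) (T z)) 2 μ
        = eLpNorm ((f : α → ℂ) ∘ T) 2 μ :=
      eLpNorm_congr_norm_ae (Filter.Eventually.of_forall fun z => by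
        rw [norm_mul, h1, one_mul]; rfl)
    rw [h3]
    exact eLpNorm_comp_measurePreserving (Lp.memLp f).1 hT

end Pool.Agent.LibBS2
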