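import Pool.Agent.LibBS2.C02
import Pool.Agent.LibBS2.N08

/-!
C03. The vector valued cocycle of a cocycle modulo integer valued functions and `ℓ²(X)`.

PLAN. Near copy of BS_N09.lean in the team store: `U g x` from exists_opU with `σ = sgE (c g) x`,
`T = act2 g⁻¹ x`; `mul`: sgE_mul, act_mul_inv, the a.e. statement for `U h (g⁻¹ • x) v` is transported by
`(act2_mp ..).quasiMeasurePreserving.ae`. `one`: sgE_one, `D.one`.
-/

set_option autoImplicit false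

namespace Pool.Agent.LibBS2.Ext

open MeasureTheory
open scoped ENNReal
open Pool.Agent.LibCod83 (ex)

variable {G X Ω : Type} [Group G] [MulAction G X] [MeasurableSpace Ω] {μ : Measure Ω}
  [IsProbabilityMeasure μ] (D : Ext G X Ω μ)

theorem exists_vcoc {c : G → X → Ω → ℝ} (hc : D.IsCoc c) :
    ∃ C : VCoc G X (Lp ℂ 2 (μ.prod μ)), ∀ (g : G) (x : X) (f : Lp ℂ 2 (μ.prod μ)),
      ∀ᵐ z ∂(μ.prod μ), (C.U g x f : Ω × Ω → ℂ) z = sgE (c g) x z * f (D.act2 g⁻¹ x z) := by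
  have hex : ∀ (g : G) (x : X), ∃ U : Lp ℂ 2 (μ.prod μ) →ₗᵢ[ℂ] Lp ℂ 2 (μ.prod μ),
      ∀ f : Lp ℂ 2 (μ.prod μ),
      ∀ᵐ z ∂(μ.prod μ), (U f : Ω × Ω → ℂ) z = sgE (c g) x z * f (D.act2 g⁻¹ x z) :=
    fun g x => exists_opU (sgE (c g) x) (measurable_sgE (hc.1 g).1 x) (norm_sgE (c g) x)
      (D.act2 g⁻¹ x) (D.act2_mp g⁻¹ x)
  choose U hU using hex
  refine ⟨⟨U, ?_, ?_⟩, hU⟩
  · intro x v
    refine Lp.ext ?_
    filter_upwards [hU 1 x v, D.sgE_one hc x] with z h1 h2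
    have h3 : D.act2 (1 : G)⁻¹ x z = z := by
      rw [inv_one]
      exact Prod.ext (D.one x z.1) (D.one x z.2)
    rw [h1, h2, h3, one_mul]
  · intro g h x v
    refine Lp.ext ?_
    have ha := (D.act2_mp g⁻¹ x).quasiMeasurePreserving.ae (hU h (g⁻¹ • x) v)
    filter_upwards [hU (g * h) x v, hU g x (U h (g⁻¹ • x) v), ha, D.sgE_mul hc g h x]
      with z h1 h2 h3 h4
    have h5 : D.act2 (g * h)⁻¹ x z = D.act2 h⁻¹ (g⁻¹ • x) (D.act2 g⁻¹ x z) :=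
      Prod.ext (D.act_mul_inv g h x z.1) (D.act_mul_inv g h x z.2)
    rw [h1, h2, h3, h4, h5, mul_assoc]

end Pool.Agent.LibBS2.Ext
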