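import Pool.Agent.LibBS2.C03

/-!
C04. The fixed point.

PLAN. Near copy of BS_N10.lean in the team store (exists_fix); `N10_enorm_sq` and `N10_mem` are now
`enorm_sq_Lp` and `memlp_iff` in C00.
-/

set_option autoImplicit false

namespace Pool.Agent.LibBS2.Ext

open MeasureTheory
open scoped ENNReal
open Pool.Agent.LibCod83 (ex)

variable {G X Ω : Type} [Group G] [MulAction G X] [MeasurableSpace Ω] {μ : Measure Ω}
  [IsProbabilityMeasure μ] (D : Ext G X Ω μ)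

theorem exists_fix (H : H1V G X (Lp ℂ 2 (μ.prod μ))) {c : G → X → Ω → ℝ} (hc : D.IsCoc c) :
    ∃ w : X → Ω × Ω → ℂ, D.Fix c w := by
  obtain ⟨C, hC⟩ := D.exists_vcoc hc
  have hmem : ∀ (g : G) (x : X), MemLp (fun z => sgE (c g) x z - 1) 2 (μ.prod μ) := by
    intro g x
    refine MemLp.of_bound ((measurable_sgE (hc.1 g).1 x).sub_const 1).aestronglyMeasurable 2 ?_
    refine Filter.Eventually.of_forall fun z => ?_
    calc ‖sgE (c g) x z - 1‖ ≤ ‖sgE (c g) x z‖ + ‖(1 : ℂ)‖ := norm_sub_le _ _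
      _ = 2 := by rw [norm_sgE, norm_one]; norm_num
  let b0 : G → X → Lp ℂ 2 (μ.prod μ) := fun g x => (hmem g x).toLp _
  have hb0 : ∀ g x, ∀ᵐ z ∂(μ.prod μ), (b0 g x : Ω × Ω → ℂ) z = sgE (c g) x z - 1 :=
    fun g x => (hmem g x).coeFn_toLp
  have hb1 : ∀ g, Memℓp (b0 g) 2 := by
    intro g
    rw [memlp_iff]
    have h1 : ∀ x, ‖b0 g x‖ₑ ^ 2 = ∫⁻ z, ‖sgE (c g) x z - 1‖ₑ ^ 2 ∂(μ.prod μ) := by
      intro x
      rw [enorm_sq_Lp]
      refine lintegral_congr_ae ?_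
      filter_upwards [hb0 g x] with z hz
      rw [hz]
    simp only [h1]
    exact energy_sgE (hc.1 g)
  let b : G → lp (fun _ : X => Lp ℂ 2 (μ.prod μ)) 2 := fun g => ⟨b0 g, hb1 g⟩
  have hcoc : ∀ (g h : G) (x : X), b (g * h) x = b g x + C.U g x (b h (g⁻¹ • x)) := by
    intro g h x
    change b0 (g * h) x = b0 g x + C.U g x (b0 h (g⁻¹ • x))
    refine Lp.ext ?_
    filter_upwards [hb0 (g * h) x, hb0 g x, hC g x (b0 h (g⁻¹ • x)), D.sgE_mul hc g h x,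
      Lp.coeFn_add (b0 g x) (C.U g x (b0 h (g⁻¹ • x))),
      (D.act2_mp g⁻¹ x).quasiMeasurePreserving.ae (hb0 h (g⁻¹ • x))] with z h1 h2 h3 h4 h5 h6
    rw [h1, h5, Pi.add_apply, h2, h3, h4, h6]
    ring
  obtain ⟨v, hv⟩ := H C b hcoc
  refine ⟨fun x z => 1 - (v x : Ω × Ω → ℂ) z, ?_, ?_, ?_⟩
  · intro x
    exact measurable_const.sub (Lp.stronglyMeasurable (v x)).measurable
  · have h1 : ∀ x, ∫⁻ z, ‖(1 - (v x : Ω × Ω → ℂ) z) - 1‖ₑ ^ 2 ∂(μ.prod μ) = ‖v x‖ₑ ^ 2 := by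
      intro x
      rw [enorm_sq_Lp]
      refine lintegral_congr fun z => ?_
      have : (1 - (v x : Ω × Ω → ℂ) z) - 1 = - (v x : Ω × Ω → ℂ) z := by ring
      rw [this, enorm_neg]
    simp only [h1]
    exact (memlp_iff (fun x => v x)).1 (lp.memℓp v)
  · intro g x
    have hg := hv g x
    change b0 g x = C.U g x (v (g⁻¹ • x)) - v x at hg
    filter_upwards [hb0 g x, hC g x (v (g⁻¹ • x)),
      Lp.coeFn_sub (C.U g x (v (g⁻¹ • x))) (v x)] with z h1 h2 h3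
    rw [hg, h3, Pi.sub_apply, h2] at h1
    linear_combination -h1

end Pool.Agent.LibBS2.Ext
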