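import Pool.Agent.LibBS2.Defs

/-!
N11. Invariant functions on infinite orbits.

PLAN. zero_of_inv: an infinite orbit carries infinitely many points with the value `φ x`; if `φ x ≠ 0`
the sum over the orbit is infinite (`ENNReal.tsum_const_eq_top_of_ne_zero` on the subtype,
`ENNReal.tsum_subtype_le`..). ae_one_of_inv: `φ x = ∫⁻ ‖u x z - 1‖ₑ ^ 2 ∂μ` is invariant by
`MeasurePreserving.lintegral_comp`; `lintegral_eq_zero_iff`.
-/

set_option autoImplicit false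

namespace Pool.Agent.LibBS2

open MeasureTheory
open scoped ENNReal

variable {G : Type} [Group G] {X : Type} [MulAction G X]

theorem zero_of_inv (horb : InfOrb G X) (φ : X → ℝ≥0∞) (hφ : ∑' x, φ x ≠ ∞)
    (hinv : ∀ (g : G) (x : X), φ (g⁻¹ • x) = φ x) (x : X) : φ x = 0 := by
  by_contra h
  have hinf : Infinite (MulAction.orbit G x) := (horb x).to_subtype
  apply hφ
  have h1 : ∑' y : MulAction.orbit G x, φ y ≤ ∑' x, φ x :=
    ENNReal.tsum_comp_le_tsum_of_injective Subtype.val_injective φ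
  have h2 : ∀ y : MulAction.orbit G x, φ y = φ x := by
    rintro ⟨y, g, rfl⟩
    have := hinv g⁻¹ x
    rwa [inv_inv] at this
  have h3 : ∑' y : MulAction.orbit G x, φ y = ∞ := by
    rw [tsum_congr h2]
    exact ENNReal.tsum_const_eq_top_of_ne_zero h
  rw [h3] at h1
  exact top_le_iff.1 h1

theorem ae_one_of_inv (horb : InfOrb G X) {α : Type} [MeasurableSpace α] (μ : Measure α)
    (T : G → X → α → α) (hT : ∀ g x, MeasurePreserving (T g x) μ μ) (u : X → α → ℂ)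
    (hu : ∀ x, Measurable (u x)) (hsum : ∑' x, ∫⁻ z, ‖u x z - 1‖ₑ ^ 2 ∂μ ≠ ∞)
    (hinv : ∀ (g : G) (x : X), ∀ᵐ z ∂μ, u (g⁻¹ • x) (T g x z) = u x z) (x : X) :
    ∀ᵐ z ∂μ, u x z = 1 := by
  have hm : ∀ x, Measurable fun z => ‖u x z - 1‖ₑ ^ 2 := fun x =>
    (((hu x).sub_const 1).enorm).pow_const 2
  have h0 := zero_of_inv horb (fun x => ∫⁻ z, ‖u x z - 1‖ₑ ^ 2 ∂μ) hsum (by
    intro g x
    have h1 := (hT g x).lintegral_comp (hm (g⁻¹ • x))
    change ∫⁻ z, ‖u (g⁻¹ • x) z - 1‖ₑ ^ 2 ∂μ = ∫⁻ z, ‖u x z - 1‖ₑ ^ 2 ∂μ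
    rw [← h1]
    refine lintegral_congr_ae ?_
    filter_upwards [hinv g x] with z hz
    rw [hz]) x
  have h2 := (lintegral_eq_zero_iff (hm x)).1 h0
  filter_upwards [h2] with z hz
  have h3 : ‖u x z - 1‖ₑ ^ 2 = 0 := hz
  rw [pow_eq_zero_iff two_ne_zero, enorm_eq_zero, sub_eq_zero] at h3
  exact h3

end Pool.Agent.LibBS2
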