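import Pool.Agent.LibBS2.C02
import Pool.Agent.LibBS2.N11

/-!
C05. The fixed point has modulus one and satisfies the triple relation.

PLAN. norm_one: ae_one_of_inv with `u x z = (‖w x z‖ : ℂ)`, `T g x = act2 g⁻¹ x`,
`|‖w‖ - 1| ≤ ‖w - 1‖`, norm_sgE. trip: ae_one_of_inv on triples (`T g x = act3 g⁻¹ x`, act3_mp) with
`u x (ξ,η,ζ) = w(ξ,η) * w(η,ζ) * conj w(ξ,ζ)`: invariance from sgE_trip and Fix.eq (the a.e. statements
for the three pairs are transported by the three projections `Ω×(Ω×Ω) → Ω×Ω`, which are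
measure preserving: measurePreserving_fst/snd, prod; then `conj (sg) = 1/sg`, norm_sgE);
`|u - 1| ≤ |w(ξ,η)-1| + |w(η,ζ)-1| + |w(ξ,ζ)-1|` a.e. for numbers of modulus one, so
`‖u - 1‖ₑ² ≤ 3 (..)` or any bound, sums finite. Then `u = 1` gives the relation (multiply by w(ξ,ζ)).
-/

set_option autoImplicit false

namespace Pool.Agent.LibBS2.Ext

open MeasureTheory
open scoped ENNReal ComplexConjugate
open Pool.Agent.LibCod83 (ex)

variable {G X Ω : Type} [Group G] [MulAction G X] [MeasurableSpace Ω] {μ : Measure Ω}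
  [IsProbabilityMeasure μ] (D : Ext G X Ω μ)

theorem norm_one (horb : InfOrb G X) {c : G → X → Ω → ℝ} {w : X → Ω × Ω → ℂ} (hw : D.Fix c w)
    (x : X) : ∀ᵐ z ∂(μ.prod μ), ‖w x z‖ = 1 := by
  have h := ae_one_of_inv horb (μ.prod μ) (fun g x => D.act2 g⁻¹ x) (fun g x => D.act2_mp g⁻¹ x)
    (fun x z => ((‖w x z‖ : ℝ) : ℂ)) (fun x => Complex.measurable_ofReal.comp (hw.meas x).norm)
    (by
      refine ne_top_of_le_ne_top hw.sum (ENNReal.tsum_le_tsum fun x => lintegral_mono fun z => ?_)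
      have h1 : ‖((‖w x z‖ : ℝ) : ℂ) - 1‖ₑ ≤ ‖w x z - 1‖ₑ := by
        rw [← ofReal_norm, ← ofReal_norm]
        apply ENNReal.ofReal_le_ofReal
        have h2 := abs_norm_sub_norm_le (w x z) 1
        rw [show ‖(1:ℂ)‖ = 1 by simp] at h2
        have h3 : ((‖w x z‖ : ℝ) : ℂ) - 1 = ((‖w x z‖ - 1 : ℝ) : ℂ) := by push_cast; rfl
        rw [h3, Complex.norm_real]
        exact h2
      exact pow_le_pow_left' h1 2)
    (by
      intro g x
      filter_upwards [hw.eq g x] with z hz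
      have h1 := congrArg norm hz
      rw [norm_mul, norm_sgE, one_mul] at h1
      simp only [h1]) x
  filter_upwards [h] with z hz
  exact_mod_cast hz

theorem C05_real (a b c : ℂ) (hb : ‖b‖ = 1) (hc : ‖c‖ = 1) :
    ‖a * b * (starRingEnd ℂ) c - 1‖ ≤ ‖a - 1‖ + ‖b - 1‖ + ‖c - 1‖ := by
  have h1 : (starRingEnd ℂ) c * c = 1 := by
    rw [mul_comm, Complex.mul_conj, Complex.normSq_eq_norm_sq, hc]
    norm_num
  have h2 : a * b * (starRingEnd ℂ) c - 1 = (a * b - c) * (starRingEnd ℂ) c := by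
    linear_combination h1
  rw [h2, norm_mul, RCLike.norm_conj, hc, mul_one]
  have h3 : a * b - c = (a - 1) * b + (b - 1) - (c - 1) := by ring
  rw [h3]
  refine (norm_sub_le _ _).trans (add_le_add ((norm_add_le _ _).trans (add_le_add ?_ le_rfl)) le_rfl)
  rw [norm_mul, hb, mul_one]

theorem C05_enorm (a b c : ℂ) (hb : ‖b‖ = 1) (hc : ‖c‖ = 1) :
    ‖a * b * (starRingEnd ℂ) c - 1‖ₑ ^ 2 ≤ 3 * (‖a - 1‖ₑ ^ 2 + ‖b - 1‖ₑ ^ 2 + ‖c - 1‖ₑ ^ 2) := by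
  have h := C05_real a b c hb hc
  have e : ∀ v : ℂ, ‖v‖ₑ ^ 2 = ENNReal.ofReal (‖v‖ ^ 2) := by
    intro v
    rw [← ofReal_norm, ENNReal.ofReal_pow (norm_nonneg v)]
  rw [e, e, e, e, ← ENNReal.ofReal_add (by positivity) (by positivity),
    ← ENNReal.ofReal_add (by positivity) (by positivity)]
  have h3 : (3 : ℝ≥0∞) = ENNReal.ofReal 3 := by norm_num
  rw [h3, ← ENNReal.ofReal_mul (by norm_num)]
  apply ENNReal.ofReal_le_ofReal
  have h4 : ‖a * b * (starRingEnd ℂ) c - 1‖ ^ 2 ≤ (‖a - 1‖ + ‖b - 1‖ + ‖c - 1‖) ^ 2 :=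
    pow_le_pow_left₀ (norm_nonneg _) h 2
  nlinarith [sq_nonneg (‖a - 1‖ - ‖b - 1‖), sq_nonneg (‖a - 1‖ - ‖c - 1‖), sq_nonneg (‖b - 1‖ - ‖c - 1‖)]

theorem C05_p12 : MeasurePreserving (fun t : Ω × Ω × Ω => (t.1, t.2.1)) (μ.prod (μ.prod μ)) (μ.prod μ) := by
  have h := (MeasurePreserving.id μ).prod (measurePreserving_fst (μ := μ) (ν := μ))
  exact h

theorem C05_p13 : MeasurePreserving (fun t : Ω × Ω × Ω => (t.1, t.2.2)) (μ.prod (μ.prod μ)) (μ.prod μ) := by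
  have h := (MeasurePreserving.id μ).prod (measurePreserving_snd (μ := μ) (ν := μ))
  exact h

theorem C05_p23 : MeasurePreserving (fun t : Ω × Ω × Ω => (t.2.1, t.2.2)) (μ.prod (μ.prod μ)) (μ.prod μ) := by
  have h := measurePreserving_snd (μ := μ) (ν := μ.prod μ)
  exact h

theorem trip (horb : InfOrb G X) {c : G → X → Ω → ℝ} {w : X → Ω × Ω → ℂ} (hw : D.Fix c w)
    (x : X) : ∀ᵐ t ∂(μ.prod (μ.prod μ)), w x (t.1, t.2.1) * w x (t.2.1, t.2.2) = w x (t.1, t.2.2) := by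
  have hm12 : Measurable fun t : Ω × Ω × Ω => (t.1, t.2.1) := (C05_p12 (μ := μ)).measurable
  have hm13 : Measurable fun t : Ω × Ω × Ω => (t.1, t.2.2) := (C05_p13 (μ := μ)).measurable
  have hm23 : Measurable fun t : Ω × Ω × Ω => (t.2.1, t.2.2) := (C05_p23 (μ := μ)).measurable
  have n12 : ∀ x, ∀ᵐ t ∂(μ.prod (μ.prod μ)), ‖w x (t.1, t.2.1)‖ = 1 := fun x =>
    (C05_p12 (μ := μ)).quasiMeasurePreserving.ae (D.norm_one horb hw x)
  have n13 : ∀ x, ∀ᵐ t ∂(μ.prod (μ.prod μ)), ‖w x (t.1, t.2.2)‖ = 1 := fun x =>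
    (C05_p13 (μ := μ)).quasiMeasurePreserving.ae (D.norm_one horb hw x)
  have n23 : ∀ x, ∀ᵐ t ∂(μ.prod (μ.prod μ)), ‖w x (t.2.1, t.2.2)‖ = 1 := fun x =>
    (C05_p23 (μ := μ)).quasiMeasurePreserving.ae (D.norm_one horb hw x)
  have hme : Measurable fun v : ℂ => ‖v - 1‖ₑ ^ 2 := by fun_prop
  have h := ae_one_of_inv horb (μ.prod (μ.prod μ)) (fun g x => D.act3 g⁻¹ x) (fun g x => D.act3_mp g⁻¹ x)
    (fun x t => w x (t.1, t.2.1) * w x (t.2.1, t.2.2) * (starRingEnd ℂ) (w x (t.1, t.2.2)))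
    (fun x => (((hw.meas x).comp hm12).mul ((hw.meas x).comp hm23)).mul
      (Complex.continuous_conj.measurable.comp ((hw.meas x).comp hm13)))
    (by
      have h1 : ∀ x, ∫⁻ t, ‖w x (t.1, t.2.1) * w x (t.2.1, t.2.2) *
          (starRingEnd ℂ) (w x (t.1, t.2.2)) - 1‖ₑ ^ 2 ∂(μ.prod (μ.prod μ)) ≤
          9 * ∫⁻ z, ‖w x z - 1‖ₑ ^ 2 ∂(μ.prod μ) := by
        intro x
        have e12 := (C05_p12 (μ := μ)).lintegral_comp (hme.comp (hw.meas x))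
        have e13 := (C05_p13 (μ := μ)).lintegral_comp (hme.comp (hw.meas x))
        have e23 := (C05_p23 (μ := μ)).lintegral_comp (hme.comp (hw.meas x))
        have l1 : ∫⁻ t, ‖w x (t.1, t.2.1) * w x (t.2.1, t.2.2) *
            (starRingEnd ℂ) (w x (t.1, t.2.2)) - 1‖ₑ ^ 2 ∂(μ.prod (μ.prod μ)) ≤
            ∫⁻ t, 3 * (‖w x (t.1, t.2.1) - 1‖ₑ ^ 2 + ‖w x (t.2.1, t.2.2) - 1‖ₑ ^ 2 +
              ‖w x (t.1, t.2.2) - 1‖ₑ ^ 2) ∂(μ.prod (μ.prod μ)) := by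
          apply lintegral_mono_ae
          filter_upwards [n12 x, n13 x, n23 x] with t h12 h13 h23
          exact C05_enorm _ _ _ h23 h13
        refine l1.trans (le_of_eq ?_)
        have m12 : Measurable fun t : Ω × Ω × Ω => ‖w x (t.1, t.2.1) - 1‖ₑ ^ 2 :=
          hme.comp ((hw.meas x).comp hm12)
        have m23 : Measurable fun t : Ω × Ω × Ω => ‖w x (t.2.1, t.2.2) - 1‖ₑ ^ 2 :=
          hme.comp ((hw.meas x).comp hm23)
        have m13 : Measurable fun t : Ω × Ω × Ω => ‖w x (t.1, t.2.2) - 1‖ₑ ^ 2 :=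
          hme.comp ((hw.meas x).comp hm13)
        have mm : Measurable fun t : Ω × Ω × Ω => ‖w x (t.1, t.2.1) - 1‖ₑ ^ 2 +
          ‖w x (t.2.1, t.2.2) - 1‖ₑ ^ 2 + ‖w x (t.1, t.2.2) - 1‖ₑ ^ 2 := (m12.add m23).add m13
        rw [lintegral_const_mul _ mm, lintegral_add_right _ m13, lintegral_add_right _ m23]
        have f12 : ∫⁻ t, ‖w x (t.1, t.2.1) - 1‖ₑ ^ 2 ∂(μ.prod (μ.prod μ)) = ∫⁻ z, ‖w x z - 1‖ₑ ^ 2 ∂(μ.prod μ) := e12
        have f13 : ∫⁻ t, ‖w x (t.1, t.2.2) - 1‖ₑ ^ 2 ∂(μ.prod (μ.prod μ)) = ∫⁻ z, ‖w x z - 1‖ₑ ^ 2 ∂(μ.prod μ) := e13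
        have f23 : ∫⁻ t, ‖w x (t.2.1, t.2.2) - 1‖ₑ ^ 2 ∂(μ.prod (μ.prod μ)) = ∫⁻ z, ‖w x z - 1‖ₑ ^ 2 ∂(μ.prod μ) := e23
        rw [f12, f13, f23]
        ring
      refine ne_top_of_le_ne_top ?_ (ENNReal.tsum_le_tsum h1)
      rw [ENNReal.tsum_mul_left]
      exact ENNReal.mul_ne_top (by norm_num) hw.sum)
    (by
      intro g x
      have a12 := (C05_p12 (μ := μ)).quasiMeasurePreserving.ae (hw.eq g x)
      have a13 := (C05_p13 (μ := μ)).quasiMeasurePreserving.ae (hw.eq g x)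
      have a23 := (C05_p23 (μ := μ)).quasiMeasurePreserving.ae (hw.eq g x)
      filter_upwards [a12, a13, a23] with t h12 h13 h23
      have hs := sgE_trip (c g) x t.1 t.2.1 t.2.2
      have hn : (starRingEnd ℂ) (sgE (c g) x (t.1, t.2.2)) * sgE (c g) x (t.1, t.2.2) = 1 := by
        rw [mul_comm, Complex.mul_conj, Complex.normSq_eq_norm_sq, norm_sgE]
        norm_num
      change w (g⁻¹ • x) (D.act g⁻¹ x t.1, D.act g⁻¹ x t.2.1) *
        w (g⁻¹ • x) (D.act g⁻¹ x t.2.1, D.act g⁻¹ x t.2.2) *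
        (starRingEnd ℂ) (w (g⁻¹ • x) (D.act g⁻¹ x t.1, D.act g⁻¹ x t.2.2)) = _
      have g12 : sgE (c g) x (t.1, t.2.1) * w (g⁻¹ • x) (D.act g⁻¹ x t.1, D.act g⁻¹ x t.2.1) =
        w x (t.1, t.2.1) := h12
      have g13 : sgE (c g) x (t.1, t.2.2) * w (g⁻¹ • x) (D.act g⁻¹ x t.1, D.act g⁻¹ x t.2.2) =
        w x (t.1, t.2.2) := h13
      have g23 : sgE (c g) x (t.2.1, t.2.2) * w (g⁻¹ • x) (D.act g⁻¹ x t.2.1, D.act g⁻¹ x t.2.2) =
        w x (t.2.1, t.2.2) := h23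
      rw [← g12, ← g13, ← g23, map_mul]
      generalize w (g⁻¹ • x) (D.act g⁻¹ x t.1, D.act g⁻¹ x t.2.1) = A
      generalize w (g⁻¹ • x) (D.act g⁻¹ x t.2.1, D.act g⁻¹ x t.2.2) = B
      generalize (starRingEnd ℂ) (w (g⁻¹ • x) (D.act g⁻¹ x t.1, D.act g⁻¹ x t.2.2)) = C
      rw [← hs] at hn
      rw [← hs]
      linear_combination (-(A * B * C)) * hn) x
  filter_upwards [h, n13 x] with t ht hn
  have h1 : (starRingEnd ℂ) (w x (t.1, t.2.2)) * w x (t.1, t.2.2) = 1 := by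
    rw [mul_comm, Complex.mul_conj, Complex.normSq_eq_norm_sq, hn]
    norm_num
  have ht' : w x (t.1, t.2.1) * w x (t.2.1, t.2.2) * (starRingEnd ℂ) (w x (t.1, t.2.2)) = 1 := ht
  linear_combination w x (t.1, t.2.2) * ht' - w x (t.1, t.2.1) * w x (t.2.1, t.2.2) * h1

end Pool.Agent.LibBS2.Ext
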