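import Mathlib

/-!
N14. Splitting a multiplicative pair function.

PLAN. By Fubini for a.e. `ζ`, for a.e. `(ξ,η)` the triple relation holds and, for a.e. `ξ`,
`‖w (ξ,ζ)‖ = 1`. (The triple measure is `μ × (μ × μ)` with coordinates `(ξ, η, ζ)`; rearrange with
`Measure.ae_ae_of_ae_prod`, `measurePreserving_prodAssoc`, `Measure.prod_swap`.)
`∫ ζ, ∫ ξ ‖w(ξ,ζ)-1‖² = ∫∫ ‖w-1‖²`: choose `ζ` outside of the null set with
`∫ ξ ‖w(ξ,ζ)-1‖² ≤` the mean (`exists_notMem_null_le_lintegral`, or `exists_not_mem_null_le_laverage`).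
Let `V ξ = w (ξ,ζ)` where it has norm one, `1` elsewhere. Then
`w (ξ,η) * V η = V ξ` a.e., multiply by `conj (V η)`.
-/

set_option autoImplicit false

namespace Pool.Agent.LibBS2

open MeasureTheory
open scoped ENNReal ComplexConjugate

variable {α : Type} [MeasurableSpace α] (μ : Measure α) [IsProbabilityMeasure μ]

private theorem N14_conj {v : ℂ} (hv : ‖v‖ = 1) : v * conj v = 1 := by
  rw [Complex.mul_conj, Complex.normSq_eq_norm_sq, hv]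
  norm_num

theorem exists_split (w : α × α → ℂ) (hw : Measurable w) (h1 : ∀ᵐ z ∂(μ.prod μ), ‖w z‖ = 1)
    (h3 : ∀ᵐ t ∂(μ.prod (μ.prod μ)), w (t.1, t.2.1) * w (t.2.1, t.2.2) = w (t.1, t.2.2)) :
    ∃ V : α → ℂ, Measurable V ∧ (∀ ξ, ‖V ξ‖ = 1) ∧
      (∀ᵐ z ∂(μ.prod μ), w z = V z.1 * conj (V z.2)) ∧
      ∫⁻ ξ, ‖V ξ - 1‖ₑ ^ 2 ∂μ ≤ ∫⁻ z, ‖w z - 1‖ₑ ^ 2 ∂(μ.prod μ) := by
  classical
  -- the triple relation for almost every third coordinate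
  have hmp : MeasurePreserving (fun s : α × (α × α) => (s.2.1, (s.2.2, s.1)))
      (μ.prod (μ.prod μ)) (μ.prod (μ.prod μ)) :=
    (measurePreserving_prodAssoc μ μ μ).comp
      (Measure.measurePreserving_swap (μ := μ) (ν := μ.prod μ))
  have h3' : ∀ᵐ s ∂(μ.prod (μ.prod μ)),
      w (s.2.1, s.2.2) * w (s.2.2, s.1) = w (s.2.1, s.1) := hmp.quasiMeasurePreserving.ae h3
  have hA : ∀ᵐ ζ ∂μ, ∀ᵐ z ∂(μ.prod μ), w (z.1, z.2) * w (z.2, ζ) = w (z.1, ζ) :=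
    Measure.ae_ae_of_ae_prod h3'
  have h1' : ∀ᵐ z ∂(μ.prod μ), ‖w (z.2, z.1)‖ = 1 :=
    (Measure.measurePreserving_swap (μ := μ) (ν := μ)).quasiMeasurePreserving.ae h1
  have hB : ∀ᵐ ζ ∂μ, ∀ᵐ ξ ∂μ, ‖w (ξ, ζ)‖ = 1 := Measure.ae_ae_of_ae_prod h1'
  have hF : Measurable fun z : α × α => ‖w z - 1‖ₑ ^ 2 := ((hw.sub_const 1).enorm).pow_const 2
  have hint : ∫⁻ z, ‖w z - 1‖ₑ ^ 2 ∂(μ.prod μ) = ∫⁻ ζ, ∫⁻ ξ, ‖w (ξ, ζ) - 1‖ₑ ^ 2 ∂μ ∂μ :=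
    lintegral_prod_symm' _ hF
  have hAB := hA.and hB
  obtain ⟨ζ, hζ, hle⟩ := exists_notMem_null_le_lintegral (μ := μ)
    (f := fun ζ => ∫⁻ ξ, ‖w (ξ, ζ) - 1‖ₑ ^ 2 ∂μ) (hF.lintegral_prod_left').aemeasurable
    (ae_iff.1 hAB)
  have hζ2 : (∀ᵐ z ∂(μ.prod μ), w (z.1, z.2) * w (z.2, ζ) = w (z.1, ζ)) ∧
      ∀ᵐ ξ ∂μ, ‖w (ξ, ζ)‖ = 1 := by
    by_contra hcon
    exact hζ hcon
  obtain ⟨hA2, hB2⟩ := hζ2
  have hwζ : Measurable fun ξ : α => w (ξ, ζ) := hw.comp (measurable_id.prodMk measurable_const)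
  obtain ⟨V, hV⟩ : ∃ V : α → ℂ, V = fun ξ => if ‖w (ξ, ζ)‖ = 1 then w (ξ, ζ) else 1 := ⟨_, rfl⟩
  have hVn : ∀ ξ, ‖V ξ‖ = 1 := by
    intro ξ
    rw [hV]
    by_cases h : ‖w (ξ, ζ)‖ = 1
    · simp only [h, if_true]
    · simp only [h, if_false, norm_one]
  have hVe : ∀ᵐ ξ ∂μ, V ξ = w (ξ, ζ) := by
    filter_upwards [hB2] with ξ hξ
    rw [hV]
    simp only [hξ, if_true]
  refine ⟨V, ?_, hVn, ?_, ?_⟩
  · rw [hV]
    exact Measurable.ite (measurableSet_eq_fun hwζ.norm measurable_const) hwζ measurable_const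
  · have e1 : ∀ᵐ z ∂(μ.prod μ), V z.1 = w (z.1, ζ) :=
      Measure.quasiMeasurePreserving_fst.ae hVe
    have e2 : ∀ᵐ z ∂(μ.prod μ), V z.2 = w (z.2, ζ) :=
      Measure.quasiMeasurePreserving_snd.ae hVe
    filter_upwards [hA2, e1, e2] with z h4 h5 h6
    have h7 : w z * V z.2 = V z.1 := by
      rw [h5, h6]
      exact h4
    rw [← h7, mul_assoc, N14_conj (hVn z.2), mul_one]
  · have e3 : ∫⁻ ξ, ‖V ξ - 1‖ₑ ^ 2 ∂μ = ∫⁻ ξ, ‖w (ξ, ζ) - 1‖ₑ ^ 2 ∂μ := by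
      refine lintegral_congr_ae ?_
      filter_upwards [hVe] with ξ hξ
      rw [hξ]
    rw [e3, hint]
    exact hle

/-- if `a(ξ) conj a(η) = b(ξ) conj b(η)` then `a` is a constant multiple of `b` -/
theorem exists_const (a b : α → ℂ) (ha : Measurable a) (hb : Measurable b)
    (ha1 : ∀ ξ, ‖a ξ‖ = 1) (hb1 : ∀ ξ, ‖b ξ‖ = 1)
    (h : ∀ᵐ z ∂(μ.prod μ), a z.1 * conj (a z.2) = b z.1 * conj (b z.2)) :
    ∃ κ : ℂ, ‖κ‖ = 1 ∧ ∀ᵐ ξ ∂μ, a ξ = κ * b ξ := by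
  have h2 : ∀ᵐ ξ ∂μ, ∀ᵐ η ∂μ, a ξ * conj (a η) = b ξ * conj (b η) := Measure.ae_ae_of_ae_prod h
  obtain ⟨ξ, hξ⟩ := h2.exists
  refine ⟨a ξ * conj (b ξ), ?_, ?_⟩
  · rw [norm_mul, RCLike.norm_conj, ha1, hb1, mul_one]
  · filter_upwards [hξ] with η hη
    have h3 := congrArg conj hη
    simp only [map_mul, Complex.conj_conj] at h3
    calc a η = (a ξ * conj (a ξ)) * a η := by rw [N14_conj (ha1 ξ), one_mul]
      _ = a ξ * (conj (a ξ) * a η) := by ring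
      _ = a ξ * (conj (b ξ) * b η) := by rw [h3]
      _ = a ξ * conj (b ξ) * b η := by ring

/-- a function whose pair function is one is constant -/
theorem exists_const' (a : α → ℂ) (ha : Measurable a) (ha1 : ∀ ξ, ‖a ξ‖ = 1)
    (h : ∀ᵐ z ∂(μ.prod μ), a z.1 * conj (a z.2) = 1) :
    ∃ κ : ℂ, ‖κ‖ = 1 ∧ ∀ᵐ ξ ∂μ, a ξ = κ := by
  obtain ⟨κ, hκ, h2⟩ := exists_const μ a (fun _ => 1) ha measurable_const ha1
    (fun _ => norm_one) (by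
      filter_upwards [h] with z hz
      rw [hz]
      simp)
  refine ⟨κ, hκ, ?_⟩
  filter_upwards [h2] with ξ hξ
  rw [hξ, mul_one]

end Pool.Agent.LibBS2
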