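import Pool.Agent.LibBS2.C05
import Pool.Agent.LibBS2.N14

/-!
C06. The logarithm of the fixed point.

PLAN. For every `x` take `V x` from exists_split (N14), with norm_one and trip (`choose`). Put
`l x ω = arg (V x ω) / (2π)` (measurable: `Complex.measurable_arg`): `ex (l x ω) = V x ω` and
`|l x ω| ≤ ‖V x ω - 1‖` as in the proof of `exists_log` (LibCod83.Elem; prove the version with the
explicit formula by copying that proof). `w x z = V x z.1 * conj (V x z.2) = sgE l x z`.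
The sum: `∫⁻ ‖l x‖ₑ² ≤ ∫⁻ ‖V x - 1‖ₑ² ≤ ∫⁻ ‖w x - 1‖ₑ²`, Fix.sum.
-/

set_option autoImplicit false

namespace Pool.Agent.LibBS2.Ext

open MeasureTheory
open scoped ENNReal ComplexConjugate
open Pool.Agent.LibCod83 (ex)

variable {G X Ω : Type} [Group G] [MulAction G X] [MeasurableSpace Ω] {μ : Measure Ω}
  [IsProbabilityMeasure μ] (D : Ext G X Ω μ)

theorem C06_log (z : ℂ) (hz : ‖z‖ = 1) :
    ex (z.arg / (2 * Real.pi)) = z ∧ |z.arg / (2 * Real.pi)| ≤ ‖z - 1‖ := by
  refine ⟨?_, ?_⟩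
  · rw [Pool.Agent.LibCod83.ex_eq]
    have h1 : 2 * Real.pi * (z.arg / (2 * Real.pi)) = z.arg := by
      field_simp
    rw [h1]
    have h2 := Complex.norm_mul_exp_arg_mul_I z
    rw [hz, Complex.ofReal_one, one_mul] at h2
    exact h2
  · have hz0 : z = Complex.exp (z.arg * Complex.I) := by
      have h2 := Complex.norm_mul_exp_arg_mul_I z
      rw [hz, Complex.ofReal_one, one_mul] at h2
      exact h2.symm
    have h3 : ‖z - 1‖ = 2 * |Real.sin (z.arg / 2)| := by
      conv_lhs => rw [hz0]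
      have h4 := Complex.norm_exp_I_mul_ofReal_sub_one (x := z.arg)
      rw [mul_comm, h4, norm_mul, Real.norm_eq_abs, Real.norm_eq_abs, abs_of_pos (two_pos)]
    rw [h3, abs_div, abs_of_pos (by positivity : (0 : ℝ) < 2 * Real.pi)]
    have h5 : |z.arg / 2| ≤ Real.pi / 2 := by
      rw [abs_div, abs_of_pos (two_pos : (0 : ℝ) < 2)]
      have := Complex.abs_arg_le_pi z
      linarith
    have h6 := Real.mul_abs_le_abs_sin h5
    rw [abs_div, abs_of_pos (two_pos : (0 : ℝ) < 2)] at h6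
    have h7 : |z.arg| / (2 * Real.pi) ≤ 2 * (2 / Real.pi * (|z.arg| / 2)) := by
      have hpi := Real.pi_pos
      rw [div_le_iff₀ (by positivity)]
      have e : 2 * (2 / Real.pi * (|z.arg| / 2)) * (2 * Real.pi) = 4 * |z.arg| := by
        field_simp
        ring
      rw [e]
      have := abs_nonneg z.arg
      linarith
    linarith

theorem exists_l (horb : InfOrb G X) {c : G → X → Ω → ℝ} {w : X → Ω × Ω → ℂ} (hw : D.Fix c w) :
    ∃ l : X → Ω → ℝ, SqE μ l ∧ ∀ x, ∀ᵐ z ∂(μ.prod μ), w x z = sgE l x z := by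
  choose V hVm hV1 hVw hVs using fun x =>
    exists_split μ (w x) (hw.meas x) (D.norm_one horb hw x) (D.trip horb hw x)
  refine ⟨fun x ω => (V x ω).arg / (2 * Real.pi), ⟨fun x => ?_, ?_⟩, fun x => ?_⟩
  · exact (Complex.measurable_arg.comp (hVm x)).div_const _
  · have hle : ∀ x, ∫⁻ ω, ‖(V x ω).arg / (2 * Real.pi)‖ₑ ^ 2 ∂μ ≤
        ∫⁻ z, ‖w x z - 1‖ₑ ^ 2 ∂(μ.prod μ) := by
      intro x
      refine le_trans (lintegral_mono fun ω => ?_) (hVs x)
      refine pow_le_pow_left' ?_ 2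
      rw [← ofReal_norm_eq_enorm, ← ofReal_norm_eq_enorm, Real.norm_eq_abs]
      exact ENNReal.ofReal_le_ofReal (C06_log _ (hV1 x ω)).2
    exact ne_top_of_le_ne_top hw.sum (ENNReal.tsum_le_tsum hle)
  · filter_upwards [hVw x] with z hz
    rw [hz, sgE, sub_eq_add_neg, Pool.Agent.LibCod83.ex_add, Pool.Agent.LibCod83.ex_neg,
      (C06_log _ (hV1 x z.1)).1, (C06_log _ (hV1 x z.2)).1, Complex.inv_eq_conj (hV1 x z.2)]

end Pool.Agent.LibBS2.Ext
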