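import Pool.Agent.LibBS2.C02

/-!
C07. The corrected cochain has trivial pair functions.

PLAN. For `θ x ω = c g x ω - l x ω + l (g⁻¹ x) (g⁻¹ ω)`, exactly:
`sgE θ x z = sgE (c g) x z * conj (sgE l x z) * sgE l (g⁻¹ x) (act2 g⁻¹ x z)` (ex_add, ex_neg, modulus
one), then Fix.eq with `w = sgE l` (at `x`, and at `g⁻¹ x` transported by act2_mp).
-/

set_option autoImplicit false

namespace Pool.Agent.LibBS2.Ext

open MeasureTheory
open scoped ENNReal ComplexConjugate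
open Pool.Agent.LibCod83 (ex)

variable {G X Ω : Type} [Group G] [MulAction G X] [MeasurableSpace Ω] {μ : Measure Ω}
  [IsProbabilityMeasure μ] (D : Ext G X Ω μ)

theorem sg_theta {c : G → X → Ω → ℝ} {w : X → Ω × Ω → ℂ} (hw : D.Fix c w) {l : X → Ω → ℝ}
    (h : ∀ x, ∀ᵐ z ∂(μ.prod μ), w x z = sgE l x z) (g : G) (x : X) :
    ∀ᵐ z ∂(μ.prod μ),
      sgE (fun y ω => c g y ω - l y ω + l (g⁻¹ • y) (D.act g⁻¹ y ω)) x z = 1 := by
  filter_upwards [hw.eq g x, h x,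
    (D.act2_mp g⁻¹ x).quasiMeasurePreserving.ae (h (g⁻¹ • x))] with z h3 h4 h5
  rw [h4, h5] at h3
  have hne : sgE l x z ≠ 0 := by
    intro h0
    have := norm_sgE l x z
    rw [h0, norm_zero] at this
    exact zero_ne_one this
  have e : sgE (fun y ω => c g y ω - l y ω + l (g⁻¹ • y) (D.act g⁻¹ y ω)) x z =
      sgE (c g) x z * (sgE l x z)⁻¹ * sgE l (g⁻¹ • x) (D.act2 g⁻¹ x z) := by
    unfold sgE
    rw [← LibCod83.ex_neg, ← LibCod83.ex_add, ← LibCod83.ex_add]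
    congr 1
    simp only [act2]
    ring
  rw [e]
  calc sgE (c g) x z * (sgE l x z)⁻¹ * sgE l (g⁻¹ • x) (D.act2 g⁻¹ x z)
      = (sgE (c g) x z * sgE l (g⁻¹ • x) (D.act2 g⁻¹ x z)) * (sgE l x z)⁻¹ := by ring
    _ = 1 := by rw [h3, mul_inv_cancel₀ hne]

end Pool.Agent.LibBS2.Ext
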