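import Pool.Agent.LibBS2.C02
import Pool.Agent.LibBS2.N14

/-!
C08. Functions with trivial pair functions are constant modulo the integers.

PLAN. By exists_const' (N14) with `a ω = ex (θ x ω)`: there is `u x` of modulus one with
`ex (θ x ω) = u x` for a.e. `ω`; exists_log (LibCod83.Elem): `r x` with `ex (r x) = u x`,
`|r x| ≤ ‖u x - 1‖`; `‖u x - 1‖ₑ² = ∫⁻ ‖ex (θ x ω) - 1‖ₑ² ≤ (2π)² ∫⁻ ‖θ x ω‖ₑ²` (norm_ex_sub_one), so
`r` is square summable (sq_iff in C00). `ex (θ x ω - r x) = 1`: exists_int_of_ex_eq_one.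
-/

set_option autoImplicit false

namespace Pool.Agent.LibBS2

open MeasureTheory
open scoped ENNReal ComplexConjugate
open Pool.Agent.LibCod83 (ex)

variable {X Ω : Type} [MeasurableSpace Ω] {μ : Measure Ω} [IsProbabilityMeasure μ]

private theorem C08_enorm_ex (t : ℝ) : ‖ex t - 1‖ₑ ≤ ENNReal.ofReal (2 * Real.pi) * ‖t‖ₑ := by
  rw [← ofReal_norm_eq_enorm, ← ofReal_norm_eq_enorm, ← ENNReal.ofReal_mul (by positivity),
    Real.norm_eq_abs]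
  exact ENNReal.ofReal_le_ofReal (Pool.Agent.LibCod83.norm_ex_sub_one t)

private theorem C08_measurable_ex : Measurable ex := by
  have h : Continuous ex := by
    unfold Pool.Agent.LibCod83.ex
    fun_prop
  exact h.measurable

theorem tame_of_sgE {θ : X → Ω → ℝ} (hθ : SqE μ θ)
    (h : ∀ x, ∀ᵐ z ∂(μ.prod μ), sgE θ x z = 1) : TameE μ θ := by
  classical
  have hc : ∀ x, ∃ κ : ℂ, ‖κ‖ = 1 ∧ ∀ᵐ ω ∂μ, ex (θ x ω) = κ := by
    intro x
    refine exists_const' μ (fun ω => ex (θ x ω))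
      (C08_measurable_ex.comp (hθ.1 x)) (fun ω => Pool.Agent.LibCod83.norm_ex _) ?_
    filter_upwards [h x] with z hz
    rw [sgE, sub_eq_add_neg, Pool.Agent.LibCod83.ex_add, Pool.Agent.LibCod83.ex_neg] at hz
    rw [← hz, Complex.inv_eq_conj (Pool.Agent.LibCod83.norm_ex _)]
  choose u hu1 hu using hc
  choose r hr1 hr2 using fun x => Pool.Agent.LibCod83.exists_log (u x) (hu1 x)
  have hr : Sq r := by
    rw [sq_iff]
    have hle : ∀ x, ‖r x‖ₑ ^ 2 ≤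
        ENNReal.ofReal (2 * Real.pi) ^ 2 * ∫⁻ ω, ‖θ x ω‖ₑ ^ 2 ∂μ := by
      intro x
      have h1 : ‖r x‖ₑ ≤ ‖u x - 1‖ₑ := by
        rw [← ofReal_norm_eq_enorm, ← ofReal_norm_eq_enorm, Real.norm_eq_abs]
        exact ENNReal.ofReal_le_ofReal (hr2 x)
      have h2 : ‖u x - 1‖ₑ ^ 2 = ∫⁻ ω, ‖ex (θ x ω) - 1‖ₑ ^ 2 ∂μ := by
        have h3 : ∫⁻ ω, ‖ex (θ x ω) - 1‖ₑ ^ 2 ∂μ = ∫⁻ _, ‖u x - 1‖ₑ ^ 2 ∂μ := by
          refine lintegral_congr_ae ?_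
          filter_upwards [hu x] with ω hω
          rw [hω]
        rw [h3, lintegral_const, measure_univ, mul_one]
      calc ‖r x‖ₑ ^ 2 ≤ ‖u x - 1‖ₑ ^ 2 := pow_le_pow_left' h1 2
        _ = ∫⁻ ω, ‖ex (θ x ω) - 1‖ₑ ^ 2 ∂μ := h2
        _ ≤ ∫⁻ ω, ENNReal.ofReal (2 * Real.pi) ^ 2 * ‖θ x ω‖ₑ ^ 2 ∂μ := by
            refine lintegral_mono fun ω => ?_
            rw [← mul_pow]
            exact pow_le_pow_left' (C08_enorm_ex _) 2
        _ = ENNReal.ofReal (2 * Real.pi) ^ 2 * ∫⁻ ω, ‖θ x ω‖ₑ ^ 2 ∂μ := by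
            rw [lintegral_const_mul _ ((hθ.1 x).enorm.pow_const 2)]
    have hsum : ∑' x, ‖r x‖ₑ ^ 2 ≤
        ENNReal.ofReal (2 * Real.pi) ^ 2 * ∑' x, ∫⁻ ω, ‖θ x ω‖ₑ ^ 2 ∂μ := by
      rw [← ENNReal.tsum_mul_left]
      exact ENNReal.tsum_le_tsum hle
    refine ne_top_of_le_ne_top ?_ hsum
    exact ENNReal.mul_ne_top (ENNReal.pow_ne_top ENNReal.ofReal_ne_top) hθ.2
  have hu0 : ∀ x, u x ≠ 0 := by
    intro x h0
    have h1 := hu1 x
    rw [h0, norm_zero] at h1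
    exact zero_ne_one h1
  refine ⟨r, hr, fun x => ?_⟩
  filter_upwards [hu x] with ω hω
  obtain ⟨n, hn⟩ := Pool.Agent.LibCod83.exists_int_of_ex_eq_one (θ x ω - r x) (by
    rw [sub_eq_add_neg, Pool.Agent.LibCod83.ex_add, Pool.Agent.LibCod83.ex_neg, hr1, hω]
    exact mul_inv_cancel₀ (hu0 _))
  exact ⟨n, by linarith⟩

end Pool.Agent.LibBS2
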