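import Pool.Agent.LibBS2.C04
import Pool.Agent.LibBS2.C06
import Pool.Agent.LibBS2.C07
import Pool.Agent.LibBS2.C08

/-!
The relative theorem, analytic form.
-/

set_option autoImplicit false

namespace Pool.Agent.LibBS2.Ext

open MeasureTheory
open scoped ENNReal ComplexConjugate
open Pool.Agent.LibCod83 (ex)

variable {G X Ω : Type} [Group G] [MulAction G X] [MeasurableSpace Ω] {μ : Measure Ω}
  [IsProbabilityMeasure μ] (D : Ext G X Ω μ)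

theorem main_rel (horb : InfOrb G X) (H : H1V G X (Lp ℂ 2 (μ.prod μ))) {c : G → X → Ω → ℝ}
    (hc : D.IsCoc c) :
    ∃ l : X → Ω → ℝ, SqE μ l ∧
      ∀ g : G, TameE μ fun y ω => c g y ω - l y ω + l (g⁻¹ • y) (D.act g⁻¹ y ω) := by
  obtain ⟨w, hw⟩ := D.exists_fix H hc
  obtain ⟨l, hl, hwl⟩ := D.exists_l horb hw
  refine ⟨l, hl, fun g => ?_⟩
  exact tame_of_sgE (((hc.1 g).sub hl).add (D.sqE_act g hl)) fun x => D.sg_theta hw hwl g x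

/-- the same statement, unfolded -/
theorem rel_main (horb : InfOrb G X) (H : H1V G X (Lp ℂ 2 (μ.prod μ))) (c : G → X → Ω → ℝ)
    (hm : ∀ g x, Measurable (c g x)) (hs : ∀ g, ∑' x, ∫⁻ ω, ‖c g x ω‖ₑ ^ 2 ∂μ ≠ ∞)
    (hc : ∀ (g h : G) (x : X), ∃ r : ℝ, ∀ᵐ ω ∂μ, ∃ n : ℤ,
      c h (g⁻¹ • x) (D.act g⁻¹ x ω) - c (g * h) x ω + c g x ω = r + n) :
    ∃ l : X → Ω → ℝ, (∀ x, Measurable (l x)) ∧ ∑' x, ∫⁻ ω, ‖l x ω‖ₑ ^ 2 ∂μ ≠ ∞ ∧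
      ∀ g : G, ∃ r : X → ℝ, Sq r ∧ ∀ x, ∀ᵐ ω ∂μ, ∃ n : ℤ,
        c g x ω - l x ω + l (g⁻¹ • x) (D.act g⁻¹ x ω) = r x + n := by
  obtain ⟨l, hl, h⟩ := D.main_rel horb H (c := c) ⟨fun g => ⟨hm g, hs g⟩, hc⟩
  exact ⟨l, hl.1, hl.2, h⟩

end Pool.Agent.LibBS2.Ext
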