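import Pool.Agent.LibBS2.Defs

/-!
Measured extensions of a `G`-set by probability spaces.

`EE = X × Ω` with the action `g (x, ω) = (g x, act g x ω)`, every `act g x` preserves the probability
measure `μ` of `Ω`.
-/

set_option autoImplicit false

namespace Pool.Agent.LibBS2

open MeasureTheory
open scoped ENNReal
open Pool.Agent.LibCod83 (ex)

/-- every `2`-cocycle with values in a vector valued twisted monomial representation on
`ℓ²(X; K)` is a coboundary -/
def H2V (G X K : Type) [Group G] [MulAction G X] [NormedAddCommGroup K]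
    [InnerProductSpace ℂ K] : Prop :=
  ∀ (C : VCoc G X K) (b : G → G → lp (fun _ : X => K) 2),
    (∀ (g h k : G) (x : X),
      C.U g x (b h k (g⁻¹ • x)) - b (g * h) k x + b g (h * k) x - b g h x = 0) →
    ∃ c : G → lp (fun _ : X => K) 2, ∀ (g h : G) (x : X),
      b g h x = C.U g x (c h (g⁻¹ • x)) - c (g * h) x + c g x

/-- a measured extension of the `G`-set `X` with fibre `Ω` -/
structure Ext (G X Ω : Type) [Group G] [MulAction G X] [MeasurableSpace Ω] (μ : Measure Ω) where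
  /-- the action in coordinates -/
  act : G → X → Ω → Ω
  one : ∀ (x : X) (ω : Ω), act 1 x ω = ω
  mul : ∀ (g h : G) (x : X) (ω : Ω), act (g * h) x ω = act g (h • x) (act h x ω)
  mp : ∀ (g : G) (x : X), MeasurePreserving (act g x) μ μ

section

variable {X Ω : Type} [MeasurableSpace Ω]

/-- measurable and square integrable on `X × Ω` -/
def SqE (μ : Measure Ω) (c : X → Ω → ℝ) : Prop :=
  (∀ x, Measurable (c x)) ∧ ∑' x, ∫⁻ ω, ‖c x ω‖ₑ ^ 2 ∂μ ≠ ∞

/-- `exp 2πi (c ξ - c η)` -/
noncomputable def sgE (c : X → Ω → ℝ) (x : X) (z : Ω × Ω) : ℂ := ex (c x z.1 - c x z.2)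

/-- on every fibre constant modulo the integers; the constants are square summable -/
def TameE (μ : Measure Ω) (θ : X → Ω → ℝ) : Prop :=
  ∃ r : X → ℝ, Sq r ∧ ∀ x, ∀ᵐ ω ∂μ, ∃ n : ℤ, θ x ω = r x + n

end

namespace Ext

variable {G X Ω : Type} [Group G] [MulAction G X] [MeasurableSpace Ω] {μ : Measure Ω}
  (D : Ext G X Ω μ)

/-- the action on pairs -/
def act2 (g : G) (x : X) (z : Ω × Ω) : Ω × Ω := (D.act g x z.1, D.act g x z.2)

/-- the action on triples -/
def act3 (g : G) (x : X) (z : Ω × Ω × Ω) : Ω × Ω × Ω :=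
  (D.act g x z.1, D.act g x z.2.1, D.act g x z.2.2)

/-- `c : G → L²(X × Ω; ℝ)` is a cocycle modulo the functions which are, on every fibre, a constant plus
an integer valued function -/
def IsCoc (c : G → X → Ω → ℝ) : Prop :=
  (∀ g, SqE μ (c g)) ∧
    ∀ (g h : G) (x : X), ∃ r : ℝ, ∀ᵐ ω ∂μ, ∃ n : ℤ,
      c h (g⁻¹ • x) (D.act g⁻¹ x ω) - c (g * h) x ω + c g x ω = r + n

/-- the equation of a fixed point of the twisted action on the functions on pairs, with the
normalisation `w - 1 ∈ L²` -/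
structure Fix (c : G → X → Ω → ℝ) (w : X → Ω × Ω → ℂ) : Prop where
  meas : ∀ x, Measurable (w x)
  sum : ∑' x, ∫⁻ z, ‖w x z - 1‖ₑ ^ 2 ∂(μ.prod μ) ≠ ∞
  eq : ∀ (g : G) (x : X), ∀ᵐ z ∂(μ.prod μ),
    sgE (c g) x z * w (g⁻¹ • x) (D.act2 g⁻¹ x z) = w x z

end Ext

end Pool.Agent.LibBS2
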