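import Pool.Agent.LibBS2.N02

/-!
D01. Self-similar families of maps of the space of digits preserve the product measure.
-/

set_option autoImplicit false

namespace Pool.Agent.LibBS2

open MeasureTheory
open scoped ENNReal

theorem cons_head_tail {m : ℕ} (ω : Om m) : cons (ω 0) (shift 1 ω) = ω := by
  funext k
  cases k with
  | zero => rfl
  | succ k => rfl

section transducer

variable {m : ℕ} [NeZero m] {St : Type} (Φ : St → Om m → Om m) (π : St → Fin m → Fin m)
  (δ : St → Fin m → St) (h : ∀ s i ω, Φ s (cons i ω) = cons (π s i) (Φ (δ s i) ω))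

include h

theorem D01_meas (s : St) : Measurable (Φ s) := by
  refine measurable_pi_iff.2 fun k => ?_
  induction k generalizing s with
  | zero =>
    have h1 : (fun ω : Om m => Φ s ω 0) = fun ω => π s (ω 0) := by
      funext ω
      conv_lhs => rw [← cons_head_tail ω, h]
      rfl
    rw [h1]
    exact (measurable_of_finite (π s)).comp (measurable_pi_apply 0)
  | succ k ih =>
    intro S hS
    have h1 : (fun ω : Om m => Φ s ω (k + 1)) ⁻¹' S =
        ⋃ i : Fin m, ({ω : Om m | ω 0 = i} ∩ {ω : Om m | Φ (δ s i) (shift 1 ω) k ∈ S}) := by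
      ext ω
      simp only [Set.mem_preimage, Set.mem_iUnion, Set.mem_inter_iff, Set.mem_ofPred_eq]
      have h2 : Φ s ω (k + 1) = Φ (δ s (ω 0)) (shift 1 ω) k := by
        conv_lhs => rw [← cons_head_tail ω, h]
        rfl
      rw [h2]
      constructor
      · intro h3
        exact ⟨ω 0, rfl, h3⟩
      · rintro ⟨i, hi, h3⟩
        rw [← hi] at h3
        exact h3
    rw [h1]
    refine MeasurableSet.iUnion fun i => MeasurableSet.inter ?_ ?_
    · exact (measurable_pi_apply 0 : Measurable fun ω : Om m => ω 0) (measurableSet_singleton i)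
    · exact ((ih (δ s i)).comp (measurable_shift 1)) hS

variable (hπ : ∀ s, Function.Bijective (π s))

include hπ

theorem D01_lint (N : ℕ) (s : St) (φ : Om m → ℝ≥0∞) (hφ : Measurable φ)
    (hN : ∀ ω ω' : Om m, (∀ k < N, ω k = ω' k) → φ ω = φ ω') :
    ∫⁻ ω, φ (Φ s ω) ∂(P m) = ∫⁻ ω, φ ω ∂(P m) := by
  induction N generalizing s φ with
  | zero =>
    refine lintegral_congr fun ω => hN _ _ fun k hk => absurd hk (Nat.not_lt_zero k)
  | succ N ih =>
    have hm : Measurable fun ω => φ (Φ s ω) := hφ.comp (D01_meas Φ π δ h s)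
    rw [lint_cons hm, lint_cons hφ]
    congr 1
    have h1 : ∀ i : Fin m, ∫⁻ ω, φ (Φ s (cons i ω)) ∂(P m) =
        ∫⁻ ω, φ (cons (π s i) ω) ∂(P m) := by
      intro i
      have h2 : ∀ ω : Om m, φ (Φ s (cons i ω)) = φ (cons (π s i) (Φ (δ s i) ω)) := fun ω => by
        rw [h]
      simp_rw [h2]
      refine ih (δ s i) (fun ω => φ (cons (π s i) ω)) (hφ.comp (measurable_cons _)) ?_
      intro ω ω' hω
      apply hN
      intro k hk
      cases k with
      | zero => rfl
      | succ k => exact hω k (by omega)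
    simp_rw [h1]
    exact (hπ s).sum_comp (fun j => ∫⁻ ω, φ (cons j ω) ∂(P m))

theorem transducer_mp (s : St) : MeasurePreserving (Φ s) (P m) (P m) := by
  have hmeas := D01_meas Φ π δ h s
  refine ⟨hmeas, ?_⟩
  conv_rhs => rw [P]
  apply Measure.eq_infinitePi
  intro S t ht
  have hms : MeasurableSet (Set.pi (S : Set ℕ) t) :=
    MeasurableSet.pi S.countable_toSet fun i _ => ht i
  have h0 : P m (Set.pi (S : Set ℕ) t) = ∏ i ∈ S, uni m (t i) := by
    rw [P]
    exact Measure.infinitePi_pi _ fun i _ => ht i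
  rw [Measure.map_apply hmeas hms, ← h0]
  have h1 := D01_lint Φ π δ h hπ (S.sup id + 1) s ((Set.pi (S : Set ℕ) t).indicator 1)
    (measurable_one.indicator hms) (by
      intro ω ω' h
      have h2 : ω ∈ Set.pi (S : Set ℕ) t ↔ ω' ∈ Set.pi (S : Set ℕ) t := by
        simp only [Set.mem_pi, Finset.mem_coe]
        refine forall₂_congr fun i hi => ?_
        rw [h i (Nat.lt_succ_of_le (Finset.le_sup (f := id) hi))]
      by_cases h3 : ω ∈ Set.pi (S : Set ℕ) t
      · rw [Set.indicator_of_mem h3, Set.indicator_of_mem (h2.1 h3)]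
        rfl
      · rw [Set.indicator_of_notMem h3, Set.indicator_of_notMem (fun h4 => h3 (h2.2 h4))])
  rw [lintegral_indicator_one hms] at h1
  rw [← h1]
  have h4 : ∀ ω : Om m, (Set.pi (S : Set ℕ) t).indicator (1 : Om m → ℝ≥0∞) (Φ s ω) =
      (Φ s ⁻¹' Set.pi (S : Set ℕ) t).indicator (1 : Om m → ℝ≥0∞) ω := fun ω => rfl
  simp_rw [h4]
  rw [lintegral_indicator_one (hmeas hms)]

end transducer

end Pool.Agent.LibBS2
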