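import Pool.Agent.LibBS2.D01

/-!
D02. Affine maps on `q`-adic digits.

`aff u l` is the map `ω ↦ l + u ω` on the `q`-adic integers, in digits (a transducer with the carry as
its state).

PLAN. aff_cons: `funext k; cases k`; for `k + 1`: `car u l (cons j ω) (k+1) = car u ((l+uj)/q) ω k` by
induction. aff_aff: prove the equality of the digits `k` by induction on `k`, all `l l' ω`, writing
`ω = cons (ω 0) (shift 1 ω)` (cons_head_tail) and aff_cons: with `z = l' + u' j = q (z/q) + dig z`,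
`l + u z = (l + u dig z) + q (u (z/q))`, so `dig (l + u z) = dig (l + u dig z)` and
`(l + u z)/q = (l + u dig z)/q + u (z/q)` (`Int.add_mul_ediv_left`, `Int.emod_emod_of_dvd`,
`Int.ediv_add_emod`). aff_zero_one: digits are `< q`. aff_mp: transducer_mp with states `ℤ`,
`π l j = dig q (l + u j)`, `δ l j = (l + u j) / q`; bijective because `u` is coprime to `q`
(injective on the finite set `Fin q`).
-/

set_option autoImplicit false

namespace Pool.Agent.LibBS2

open MeasureTheory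
open scoped ENNReal

/-- the last digit of an integer -/
def dig (q : ℕ) [NeZero q] (z : ℤ) : Fin q :=
  ⟨(z % (q : ℤ)).toNat, by
    have h1 : (0 : ℤ) < (q : ℤ) := by exact_mod_cast Nat.pos_of_ne_zero (NeZero.ne q)
    have h2 := Int.emod_lt_of_pos z h1
    have h3 := Int.emod_nonneg z (ne_of_gt h1)
    omega⟩

theorem dig_val (q : ℕ) [NeZero q] (z : ℤ) : (((dig q z : Fin q) : ℕ) : ℤ) = z % (q : ℤ) := by
  have h1 : (0 : ℤ) < (q : ℤ) := by exact_mod_cast Nat.pos_of_ne_zero (NeZero.ne q)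
  exact Int.toNat_of_nonneg (Int.emod_nonneg z (ne_of_gt h1))

variable {q : ℕ} [NeZero q]

/-- the carries -/
def car (u : ℕ) (l : ℤ) (ω : Om q) : ℕ → ℤ
  | 0 => l
  | k + 1 => (car u l ω k + u * ((ω k : ℕ) : ℤ)) / (q : ℤ)

/-- the digits of `l + u ω` -/
def aff (u : ℕ) (l : ℤ) (ω : Om q) : Om q := fun k => dig q (car u l ω k + u * ((ω k : ℕ) : ℤ))

/-- decomposition of an integer -/
theorem dig_add (z : ℤ) : (((dig q z : Fin q) : ℕ) : ℤ) + (q : ℤ) * (z / (q : ℤ)) = z := by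
  rw [dig_val]
  exact Int.emod_add_mul_ediv z q

theorem dig_eq_iff (z w : ℤ) : dig q z = dig q w ↔ (q : ℤ) ∣ z - w := by
  rw [Int.dvd_iff_emod_eq_zero, ← Int.emod_eq_emod_iff_emod_sub_eq_zero, ← dig_val, ← dig_val]
  constructor
  · intro h
    rw [h]
  · intro h
    exact Fin.ext (by exact_mod_cast h)

omit [NeZero q] in
private theorem D02_car_cons (u : ℕ) (l : ℤ) (j : Fin q) (ω : Om q) (k : ℕ) :
    car u l (cons j ω) (k + 1) = car u ((l + u * ((j : ℕ) : ℤ)) / (q : ℤ)) ω k := by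
  induction k with
  | zero => rfl
  | succ k ih =>
    rw [car, ih]
    rfl

theorem aff_cons (u : ℕ) (l : ℤ) (j : Fin q) (ω : Om q) :
    aff u l (cons j ω) =
      cons (dig q (l + u * ((j : ℕ) : ℤ))) (aff u ((l + u * ((j : ℕ) : ℤ)) / (q : ℤ)) ω) := by
  funext k
  cases k with
  | zero => rfl
  | succ k =>
    change dig q (car u l (cons j ω) (k + 1) + u * ((ω k : ℕ) : ℤ)) =
      dig q (car u ((l + u * ((j : ℕ) : ℤ)) / (q : ℤ)) ω k + u * ((ω k : ℕ) : ℤ))
    rw [D02_car_cons]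

theorem aff_aff (u u' : ℕ) (l l' : ℤ) (ω : Om q) :
    aff u l (aff u' l' ω) = aff (u * u') (l + u * l') ω := by
  have hq0 : (q : ℤ) ≠ 0 := by exact_mod_cast NeZero.ne q
  funext k
  induction k generalizing l l' ω with
  | zero =>
    rw [← cons_head_tail ω, aff_cons, aff_cons, aff_cons]
    change dig q (l + u * (((dig q (l' + u' * ((ω 0 : ℕ) : ℤ)) : Fin q) : ℕ) : ℤ)) =
      dig q (l + u * l' + ((u * u' : ℕ) : ℤ) * ((ω 0 : ℕ) : ℤ))
    rw [dig_eq_iff]
    have h1 := dig_add (q := q) (l' + u' * ((ω 0 : ℕ) : ℤ))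
    refine ⟨-(u * ((l' + u' * ((ω 0 : ℕ) : ℤ)) / (q : ℤ))), ?_⟩
    push_cast
    linear_combination (u : ℤ) * h1
  | succ k ih =>
    rw [← cons_head_tail ω, aff_cons, aff_cons, aff_cons]
    change aff u _ (aff u' _ (shift 1 ω)) k = aff (u * u') _ (shift 1 ω) k
    rw [ih]
    congr 1
    have h1 := dig_add (q := q) (l' + u' * ((ω 0 : ℕ) : ℤ))
    have h2 : l + u * l' + ((u * u' : ℕ) : ℤ) * ((ω 0 : ℕ) : ℤ) =
        (l + u * (((dig q (l' + u' * ((ω 0 : ℕ) : ℤ)) : Fin q) : ℕ) : ℤ)) +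
          (q : ℤ) * (u * ((l' + u' * ((ω 0 : ℕ) : ℤ)) / (q : ℤ))) := by
      push_cast
      linear_combination -(u : ℤ) * h1
    rw [h2, Int.add_mul_ediv_left _ _ hq0]

theorem aff_one_zero (ω : Om q) : aff 1 0 ω = ω := by
  have hlt : ∀ k, ((ω k : ℕ) : ℤ) < (q : ℤ) := fun k => by exact_mod_cast (ω k).2
  have hnn : ∀ k, (0 : ℤ) ≤ ((ω k : ℕ) : ℤ) := fun k => Int.natCast_nonneg _
  have hcar : ∀ k, car 1 0 ω k = 0 := by
    intro k
    induction k with
    | zero => rfl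
    | succ k ih =>
      rw [car, ih, Nat.cast_one, one_mul, zero_add]
      exact Int.ediv_eq_zero_of_lt (hnn k) (hlt k)
  funext k
  change dig q (car 1 0 ω k + (1 : ℕ) * ((ω k : ℕ) : ℤ)) = ω k
  rw [hcar, Nat.cast_one, one_mul, zero_add]
  apply Fin.ext
  have h1 := dig_val q ((ω k : ℕ) : ℤ)
  rw [Int.emod_eq_of_lt (hnn k) (hlt k)] at h1
  exact_mod_cast h1

theorem aff_mp {u : ℕ} (hu : Nat.Coprime u q) (l : ℤ) :
    MeasurePreserving (aff u l : Om q → Om q) (P q) (P q) := by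
  refine transducer_mp (St := ℤ) (fun l => aff u l) (fun l j => dig q (l + u * ((j : ℕ) : ℤ)))
    (fun l j => (l + u * ((j : ℕ) : ℤ)) / (q : ℤ)) (fun s i ω => aff_cons u s i ω) ?_ l
  intro s
  refine Finite.injective_iff_bijective.1 ?_
  intro j j' h
  have h1 := (dig_eq_iff (q := q) _ _).1 h
  have h2 : (q : ℤ) ∣ (u : ℤ) * (((j : ℕ) : ℤ) - ((j' : ℕ) : ℤ)) := by
    have h3 : (u : ℤ) * (((j : ℕ) : ℤ) - ((j' : ℕ) : ℤ)) =
        s + u * ((j : ℕ) : ℤ) - (s + u * ((j' : ℕ) : ℤ)) := by ring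
    rw [h3]
    exact h1
  have hco : IsCoprime (q : ℤ) (u : ℤ) := Nat.isCoprime_iff_coprime.2 hu.symm
  have h4 := hco.dvd_of_dvd_mul_left h2
  have h5 : ((j : ℕ) : ℤ) < (q : ℤ) := by exact_mod_cast j.2
  have h6 : ((j' : ℕ) : ℤ) < (q : ℤ) := by exact_mod_cast j'.2
  have h7 : ((j : ℕ) : ℤ) - ((j' : ℕ) : ℤ) = 0 := by
    refine Int.eq_zero_of_abs_lt_dvd h4 ?_
    rw [abs_lt]
    constructor
    · have := Int.natCast_nonneg (j : ℕ)
      linarith
    · have := Int.natCast_nonneg (j' : ℕ)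
      linarith
  apply Fin.ext
  have h8 : ((j : ℕ) : ℤ) = ((j' : ℕ) : ℤ) := by linarith
  exact_mod_cast h8

end Pool.Agent.LibBS2
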