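import Pool.Agent.LibBS2.CDefs
import Pool.Agent.LibBS2.D02

/-!
D03. Coordinates on `G ⧸ ⟨a⟩` and its `q`-adic extension.

PLAN. exists_crd: `σ x = if x = mk 1 then 1 else x.out`; `g * σ x` and `σ (g • x)` have the same class,
so they differ by a power of `a` (`QuotientGroup.eq`, `Subgroup.mem_zpowers_iff`, `choose`).
n_mul: `g h σ x = g σ(hx) a^n(h,x) = σ(ghx) a^(n(g,hx)+n(h,x))`, powers of `a` are different (ha).
ext: `act g x = aff 1 (n g x)`; aff_aff, aff_one_zero, aff_mp.
-/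

set_option autoImplicit false

namespace Pool.Agent.LibBS2

open MeasureTheory
open scoped ENNReal

/-- coordinates on the cosets of `⟨a⟩` -/
structure Crd (G : Type) [Group G] (a : G) where
  /-- a section -/
  σ : G ⧸ Subgroup.zpowers a → G
  mk_σ : ∀ x, (QuotientGroup.mk (σ x) : G ⧸ Subgroup.zpowers a) = x
  σ_one : σ (QuotientGroup.mk 1) = 1
  /-- the cocycle -/
  n : G → G ⧸ Subgroup.zpowers a → ℤ
  n_spec : ∀ g x, g * σ x = σ (g • x) * a ^ n g x

theorem exists_crd {G : Type} [Group G] (a : G) : Nonempty (Crd G a) := by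
  classical
  have hmk : ∀ x : G ⧸ Subgroup.zpowers a, (QuotientGroup.mk (if x = QuotientGroup.mk 1 then 1
      else x.out : G) : G ⧸ Subgroup.zpowers a) = x := by
    intro x
    split_ifs with h
    · exact h.symm
    · exact QuotientGroup.out_eq' x
  have hn : ∀ (g : G) (x : G ⧸ Subgroup.zpowers a), ∃ n : ℤ,
      g * (if x = QuotientGroup.mk 1 then 1 else x.out : G) =
        (if g • x = QuotientGroup.mk 1 then 1 else (g • x).out : G) * a ^ n := by
    intro g x
    have h1 : (QuotientGroup.mk (if g • x = QuotientGroup.mk 1 then 1 else (g • x).out : G) :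
        G ⧸ Subgroup.zpowers a) =
        QuotientGroup.mk (g * (if x = QuotientGroup.mk 1 then 1 else x.out : G)) := by
      rw [hmk (g • x)]
      conv_lhs => rw [← hmk x]
      rfl
    rw [QuotientGroup.eq, Subgroup.mem_zpowers_iff] at h1
    obtain ⟨n, hn⟩ := h1
    exact ⟨n, by rw [hn, mul_inv_cancel_left]⟩
  choose n hn using hn
  exact ⟨⟨fun x => if x = QuotientGroup.mk 1 then 1 else x.out, hmk, if_pos rfl, n, hn⟩⟩

/-- powers of an element of infinite order -/
theorem zpow_inj {G : Type} [Group G] {a : G} (ha : ∀ n : ℤ, n ≠ 0 → a ^ n ≠ 1) {m n : ℤ}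
    (h : a ^ m = a ^ n) : m = n := by
  by_contra hne
  apply ha (m - n) (sub_ne_zero.2 hne)
  rw [zpow_sub, h, mul_inv_cancel]

namespace Crd

variable {G : Type} [Group G] {a : G} (C : Crd G a)

theorem n_mul (ha : ∀ n : ℤ, n ≠ 0 → a ^ n ≠ 1) (g h : G) (x : G ⧸ Subgroup.zpowers a) :
    C.n (g * h) x = C.n g (h • x) + C.n h x := by
  apply zpow_inj ha
  have h1 := C.n_spec (g * h) x
  rw [mul_assoc, C.n_spec h x, ← mul_assoc, C.n_spec g (h • x), mul_smul, mul_assoc,
    ← zpow_add] at h1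
  exact (mul_left_cancel h1).symm

theorem n_one (ha : ∀ n : ℤ, n ≠ 0 → a ^ n ≠ 1) (x : G ⧸ Subgroup.zpowers a) : C.n 1 x = 0 := by
  by_contra hne
  apply ha _ hne
  have h1 := C.n_spec 1 x
  rw [one_mul, one_smul] at h1
  exact (mul_eq_left.1 h1.symm)

/-- the value at the powers of `a` and the base point -/
theorem n_pow (ha : ∀ n : ℤ, n ≠ 0 → a ^ n ≠ 1) (i : ℤ) :
    C.n (a ^ i) (QuotientGroup.mk 1) = i := by
  apply zpow_inj ha
  have h1 := C.n_spec (a ^ i) (QuotientGroup.mk 1)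
  have h2 : a ^ i • (QuotientGroup.mk 1 : G ⧸ Subgroup.zpowers a) = QuotientGroup.mk 1 := by
    show (QuotientGroup.mk (a ^ i * 1) : G ⧸ Subgroup.zpowers a) = QuotientGroup.mk 1
    rw [QuotientGroup.eq, mul_one, mul_one]
    exact Subgroup.inv_mem _ (Subgroup.mem_zpowers_iff.2 ⟨i, rfl⟩)
  rw [h2, C.σ_one, mul_one, one_mul] at h1
  exact h1.symm

/-- the `q`-adic extension -/
def ext (ha : ∀ n : ℤ, n ≠ 0 → a ^ n ≠ 1) (q : ℕ) [NeZero q] :
    Ext G (G ⧸ Subgroup.zpowers a) (Om q) (P q) where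
  act g x := aff 1 (C.n g x)
  one x ω := by rw [C.n_one ha, aff_one_zero]
  mul g h x ω := by
    rw [aff_aff, C.n_mul ha]
    simp
  mp g x := aff_mp (Nat.coprime_one_left q) _

end Crd

end Pool.Agent.LibBS2
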