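import Pool.Agent.LibBS2.D03

/-!
D04. The map `K`: right multiplication by `t`, in coordinates.

`y x j = σ(x) a^j t ⟨a⟩` and `σ(x) a^j t = σ(y x j) a^(l x j)`.

PLAN. exists_kdat: `QuotientGroup.eq`, `Subgroup.mem_zpowers_iff`, `choose`. Equivariance: let
`z = n g x + j = j' + q l'` (`j' = dig q z`, `l' = z / q`, dig_add). Then
`g σ(x) a^j t = σ(gx) a^(n g x + j) t = σ(gx) a^j' a^(q l') t = σ(gx) a^j' t a^(p l')`
(`a^(q k) t = t a^(p k)` from `h`). So the coset of `σ(gx) a^j' t` is `g • y x j`, and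
`σ(y (g x) j') a^(l (gx) j' + p l') = g σ(y x j) a^(l x j) = σ(g • y x j) a^(n g (y x j) + l x j)`;
zpow_inj. card_fibre: on the fibre over `z` the map `(x,j) ↦ l x j mod p` is injective: if
`l x' j' = l x j + p k` then `σ x' a^j' t = σ x a^j t a^(p k) = σ x a^(j + q k) t`, so
`σ x' a^j' = σ x a^(j+qk)`: the cosets agree, `x' = x`, then `j' = j + q k`, `0 ≤ j, j' < q` give
`k = 0`, `j' = j`. (Injective map of the finset into `Fin p` or `Finset.range p`.)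
-/

set_option autoImplicit false

namespace Pool.Agent.LibBS2

open MeasureTheory
open scoped ENNReal

/-- the map `K` in coordinates -/
structure KDat {G : Type} [Group G] {a : G} (C : Crd G a) (t : G) (q : ℕ) where
  /-- the new coset -/
  y : G ⧸ Subgroup.zpowers a → Fin q → G ⧸ Subgroup.zpowers a
  /-- the translation -/
  l : G ⧸ Subgroup.zpowers a → Fin q → ℤ
  y_def : ∀ (x : G ⧸ Subgroup.zpowers a) (j : Fin q), y x j = QuotientGroup.mk (C.σ x * a ^ ((j : ℕ) : ℤ) * t)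
  l_spec : ∀ (x : G ⧸ Subgroup.zpowers a) (j : Fin q), C.σ x * a ^ ((j : ℕ) : ℤ) * t = C.σ (y x j) * a ^ l x j

theorem exists_kdat {G : Type} [Group G] {a : G} (C : Crd G a) (t : G) (q : ℕ) :
    Nonempty (KDat C t q) := by
  have hl : ∀ (x : G ⧸ Subgroup.zpowers a) (j : Fin q), ∃ n : ℤ,
      C.σ x * a ^ ((j : ℕ) : ℤ) * t =
        C.σ (QuotientGroup.mk (C.σ x * a ^ ((j : ℕ) : ℤ) * t)) * a ^ n := by
    intro x j
    have h1 := C.mk_σ (QuotientGroup.mk (C.σ x * a ^ ((j : ℕ) : ℤ) * t))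
    rw [QuotientGroup.eq, Subgroup.mem_zpowers_iff] at h1
    obtain ⟨n, hn⟩ := h1
    exact ⟨n, by rw [hn, mul_inv_cancel_left]⟩
  choose l hl using hl
  exact ⟨⟨fun x j => QuotientGroup.mk (C.σ x * a ^ ((j : ℕ) : ℤ) * t), l, fun _ _ => rfl, hl⟩⟩

namespace KDat

variable {G : Type} [Group G] {a : G} {C : Crd G a} {t : G} {q : ℕ} (D : KDat C t q)

omit D in
theorem D04_comm {p : ℕ} (h : t * a ^ p * t⁻¹ = a ^ q) (k : ℤ) :
    a ^ ((q : ℤ) * k) * t = t * a ^ ((p : ℤ) * k) := by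
  have h1 : t * a ^ ((p : ℤ) * k) * t⁻¹ = a ^ ((q : ℤ) * k) := by
    rw [zpow_mul, zpow_mul, ← conj_zpow, zpow_natCast, h, zpow_natCast]
  rw [← h1, inv_mul_cancel_right]

omit D in
theorem D04_mk (g : G) (m : ℤ) : (QuotientGroup.mk (g * a ^ m) : G ⧸ Subgroup.zpowers a) =
    QuotientGroup.mk g := by
  rw [QuotientGroup.eq, mul_inv_rev, inv_mul_cancel_right, Subgroup.mem_zpowers_iff]
  exact ⟨-m, zpow_neg a m⟩

omit D in
theorem D04_shift [NeZero q] {p : ℕ} (h : t * a ^ p * t⁻¹ = a ^ q) (g : G)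
    (x : G ⧸ Subgroup.zpowers a) (j : Fin q) :
    g * (C.σ x * a ^ ((j : ℕ) : ℤ) * t) =
      C.σ (g • x) * a ^ (((dig q (C.n g x + ((j : ℕ) : ℤ)) : Fin q) : ℕ) : ℤ) * t *
        a ^ ((p : ℤ) * ((C.n g x + ((j : ℕ) : ℤ)) / (q : ℤ))) := by
  have e : a ^ (((dig q (C.n g x + ((j : ℕ) : ℤ)) : Fin q) : ℕ) : ℤ) *
      a ^ ((q : ℤ) * ((C.n g x + ((j : ℕ) : ℤ)) / (q : ℤ))) =
      a ^ C.n g x * a ^ ((j : ℕ) : ℤ) := by rw [← zpow_add, dig_add, zpow_add]
  calc g * (C.σ x * a ^ ((j : ℕ) : ℤ) * t) = (g * C.σ x) * (a ^ ((j : ℕ) : ℤ) * t) := by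
        simp only [mul_assoc]
    _ = C.σ (g • x) * ((a ^ C.n g x * a ^ ((j : ℕ) : ℤ)) * t) := by
        rw [C.n_spec]
        simp only [mul_assoc]
    _ = C.σ (g • x) * (a ^ (((dig q (C.n g x + ((j : ℕ) : ℤ)) : Fin q) : ℕ) : ℤ) *
          (a ^ ((q : ℤ) * ((C.n g x + ((j : ℕ) : ℤ)) / (q : ℤ))) * t)) := by
        rw [← e]
        simp only [mul_assoc]
    _ = _ := by
        rw [D04_comm h]
        simp only [mul_assoc]

theorem y_equiv [NeZero q] {p : ℕ} (h : t * a ^ p * t⁻¹ = a ^ q) (g : G)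
    (x : G ⧸ Subgroup.zpowers a) (j : Fin q) :
    D.y (g • x) (dig q (C.n g x + ((j : ℕ) : ℤ))) = g • D.y x j := by
  rw [D.y_def, D.y_def]
  have h1 := D04_shift (C := C) h g x j
  show _ = (QuotientGroup.mk (g * (C.σ x * a ^ ((j : ℕ) : ℤ) * t)) : G ⧸ Subgroup.zpowers a)
  rw [h1, D04_mk]

theorem l_equiv [NeZero q] (ha : ∀ n : ℤ, n ≠ 0 → a ^ n ≠ 1) {p : ℕ}
    (h : t * a ^ p * t⁻¹ = a ^ q) (g : G) (x : G ⧸ Subgroup.zpowers a) (j : Fin q) :
    D.l (g • x) (dig q (C.n g x + ((j : ℕ) : ℤ))) + p * ((C.n g x + ((j : ℕ) : ℤ)) / (q : ℤ)) =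
      C.n g (D.y x j) + D.l x j := by
  apply zpow_inj ha
  have h1 := D04_shift (C := C) h g x j
  have h2 := D.y_equiv h g x j
  rw [D.l_spec, D.l_spec, ← mul_assoc, C.n_spec, h2, mul_assoc, mul_assoc, ← zpow_add,
    ← zpow_add] at h1
  exact (mul_left_cancel h1).symm

/-- the fibres of `(x, j) ↦ y x j` have at most `p` elements -/
theorem card_fibre (ha : ∀ n : ℤ, n ≠ 0 → a ^ n ≠ 1) {p : ℕ} (hp : 0 < p)
    (h : t * a ^ p * t⁻¹ = a ^ q) (z : G ⧸ Subgroup.zpowers a)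
    (s : Finset ((G ⧸ Subgroup.zpowers a) × Fin q)) (hs : ∀ b ∈ s, D.y b.1 b.2 = z) :
    s.card ≤ p := by
  have hp' : (0 : ℤ) < (p : ℤ) := by exact_mod_cast hp
  have hcard : (Finset.Ico (0 : ℤ) (p : ℤ)).card = p := by
    rw [Int.card_Ico, sub_zero, Int.toNat_natCast]
  rw [← hcard]
  refine Finset.card_le_card_of_injOn (fun b => D.l b.1 b.2 % (p : ℤ)) (fun b _ => ?_) ?_
  · rw [Finset.mem_coe, Finset.mem_Ico]
    exact ⟨Int.emod_nonneg _ hp'.ne', Int.emod_lt_of_pos _ hp'⟩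
  · rintro ⟨x, j⟩ hb ⟨x', j'⟩ hb' hl
    have hy : D.y x j = z := hs _ hb
    have hy' : D.y x' j' = z := hs _ hb'
    have hl' : D.l x j % (p : ℤ) = D.l x' j' % (p : ℤ) := hl
    obtain ⟨k, hk⟩ := Int.ModEq.dvd (show D.l x j ≡ D.l x' j' [ZMOD (p : ℤ)] from hl')
    have h1 := D.l_spec x j
    have h2 := D.l_spec x' j'
    have hk' : D.l x' j' = D.l x j + p * k := by omega
    rw [hy] at h1
    rw [hy', hk', zpow_add, ← mul_assoc, ← h1, mul_assoc _ t, ← D04_comm h, ← mul_assoc,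
      mul_assoc (C.σ x), ← zpow_add] at h2
    have h3 := mul_right_cancel h2
    have hx : x' = x := by
      have h4 := congrArg (fun g : G => (QuotientGroup.mk g : G ⧸ Subgroup.zpowers a)) h3
      simp only [D04_mk, C.mk_σ] at h4
      exact h4
    subst hx
    have h5 := zpow_inj ha (mul_left_cancel h3)
    have hj := j.2
    have hj' := j'.2
    have hq : (0 : ℤ) < (q : ℤ) := by
      have : 0 < q := lt_of_le_of_lt (Nat.zero_le _) hj
      exact_mod_cast this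
    have hk0 : k = 0 := by
      by_contra hne
      rcases lt_or_gt_of_ne hne with h6 | h6
      · have h7 : (q : ℤ) * k ≤ -q := by nlinarith
        omega
      · have h7 : (q : ℤ) ≤ q * k := by nlinarith
        omega
    rw [hk0, mul_zero, add_zero] at h5
    have h8 : j = j' := Fin.ext (by exact_mod_cast h5.symm)
    rw [h8]

end KDat

end Pool.Agent.LibBS2
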