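import Mathlib

/-!
D11. The chain identity.

PLAN. `d₂₁_single`: `d₂₁ (single (g,h) n) = single h (ρ g⁻¹ n) - single (g*h) n + single g n`
(check the form in Mathlib, RepresentationTheory/Homological/GroupHomology/LowDegree), so modulo the
boundaries `(gh; n) ~ (g; n) + (h; g⁻¹ n)` and `(1; n) ~ 0` (single_one_mem_boundaries₁).
pow_chain by induction on `k`: `(b^(k+1); n) = (b^k b; n) ~ (b^k; n) + (b; b^-k n)`.
`(a^q; e) = (t a^p t⁻¹; e) ~ (t; e) + (a^p t⁻¹; t⁻¹ e) ~ (t; e) + (a^p; t⁻¹ e) + (t⁻¹; a^-p t⁻¹ e)`, and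
`a^-p t⁻¹ e = t⁻¹ a^-q e = t⁻¹ e`, `(t; e) + (t⁻¹; t⁻¹ e) ~ (1; e) ~ 0`.
-/

set_option autoImplicit false

namespace Pool.Agent.LibBS2

open groupHomology

private theorem D11_mul {k G : Type} [CommRing k] [Group G] (A : Rep.{0} k G) (g h : G) (x : A) :
    A.ρ (g * h) x = A.ρ g (A.ρ h x) := by
  rw [map_mul]
  rfl

private theorem D11_one {k G : Type} [CommRing k] [Group G] (A : Rep.{0} k G) (x : A) :
    A.ρ 1 x = x := by
  rw [map_one]
  rfl

variable {G : Type} [Group G] (N : Rep.{0} ℤ G)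

theorem chain_mul (g h : G) (n : N) :
    (Finsupp.single (g * h) n : G →₀ N) - Finsupp.single g n - Finsupp.single h (N.ρ g⁻¹ n) ∈
      boundaries₁ N := by
  have h1 : (Finsupp.single h (N.ρ g⁻¹ n) - Finsupp.single (g * h) n + Finsupp.single g n :
      G →₀ N) ∈ boundaries₁ N := by
    have h2 := d₂₁_single (A := N) (g, h) n
    exact ⟨Finsupp.single (g, h) n, h2⟩
  have h3 := Submodule.neg_mem _ h1
  convert h3 using 1
  abel

theorem pow_chain (b : G) (k : ℕ) (n : N) :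
    (Finsupp.single (b ^ k) n : G →₀ N) -
      Finsupp.single b (∑ i ∈ Finset.range k, N.ρ (b ^ i)⁻¹ n) ∈ boundaries₁ N := by
  induction k with
  | zero =>
    rw [pow_zero, Finset.range_zero, Finset.sum_empty, Finsupp.single_zero, sub_zero]
    exact single_one_mem_boundaries₁ n
  | succ k ih =>
    have h1 := Submodule.add_mem _ (chain_mul N (b ^ k) b n) ih
    rw [pow_succ, Finset.sum_range_succ, Finsupp.single_add]
    convert h1 using 1
    abel

theorem chain_identity (a t : G) (p q : ℕ) (h : t * a ^ p * t⁻¹ = a ^ q) (e : N)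
    (he : N.ρ (a ^ q) e = e) :
    (Finsupp.single a (∑ i ∈ Finset.range q, N.ρ (a ^ i)⁻¹ e) : G →₀ N) -
      Finsupp.single a (∑ i ∈ Finset.range p, N.ρ (a ^ i)⁻¹ (N.ρ t⁻¹ e)) ∈ boundaries₁ N := by
  have h1 := pow_chain N a q e
  have h2 := pow_chain N a p (N.ρ t⁻¹ e)
  have h3 := chain_mul N (t * a ^ p) t⁻¹ e
  have h4 := chain_mul N t (a ^ p) e
  have h5 : (Finsupp.single t⁻¹ (N.ρ t⁻¹ e) + Finsupp.single t e : G →₀ N) ∈ boundaries₁ N :=
    single_inv_ρ_self_add_single_mem_boundaries₁ t e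
  have h6 : N.ρ (t * a ^ p)⁻¹ e = N.ρ t⁻¹ e := by
    have h7 : t * a ^ p = a ^ q * t := by rw [← h]; group
    have h8 : N.ρ (a ^ q)⁻¹ e = e := by
      conv_lhs => rw [← he]
      rw [← D11_mul, inv_mul_cancel, D11_one]
    rw [h7, mul_inv_rev, D11_mul, h8]
  rw [h6, h] at h3
  have h9 := Submodule.add_mem _ (Submodule.add_mem _ (Submodule.sub_mem _
    (Submodule.add_mem _ (Submodule.add_mem _ h3 h4) h5) h1) h2) (Submodule.zero_mem _)
  convert h9 using 1
  abel

end Pool.Agent.LibBS2
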