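import Mathlib
import Pool.Agent.LibCod83.Elem

/-!
Forests with a `G`-action, the space of descending paths and its measure.

`X` is a `G`-set, every vertex `x` has a parent `par x` and exactly `m` children `ch x i`, `i < m`; the
parent map is equivariant, the enumeration of the children is not. A descending path which starts at `x`
is described by its sequence of digits `ω : ℕ → Fin m`. The measure `P m` on the set of the sequences
of digits is the infinite product of the uniform measures.
-/

set_option autoImplicit false

namespace Pool.Agent.LibBS2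

open MeasureTheory
open scoped ENNReal
open Pool.Agent.LibCod83 (ex)

/-- A `G`-set with an equivariant `m`-to-one self map `par`, and an enumeration of its fibres. -/
structure Forest (G : Type) [Group G] (X : Type) [MulAction G X] (m : ℕ) where
  /-- the parent -/
  par : X → X
  /-- the children -/
  ch : X → Fin m → X
  /-- the number of a vertex among the children of its parent -/
  idx : X → Fin m
  par_smul : ∀ (g : G) (x : X), par (g • x) = g • par x
  par_ch : ∀ (x : X) (i : Fin m), par (ch x i) = x
  idx_ch : ∀ (x : X) (i : Fin m), idx (ch x i) = i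
  ch_idx : ∀ y : X, ch (par y) (idx y) = y

/-- sequences of digits -/
abbrev Om (m : ℕ) : Type := ℕ → Fin m

/-- the uniform measure on the digits -/
noncomputable def uni (m : ℕ) : Measure (Fin m) := (m : ℝ≥0∞)⁻¹ • Measure.count

instance uni_prob (m : ℕ) [NeZero m] : IsProbabilityMeasure (uni m) := by
  refine ⟨?_⟩
  rw [uni, Measure.smul_apply, Measure.count_univ, smul_eq_mul, ENat.card_eq_coe_fintype_card,
    Fintype.card_fin]
  exact ENNReal.inv_mul_cancel (by simpa using NeZero.ne m) (ENNReal.natCast_ne_top m)

/-- the product measure on the sequences of digits -/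
noncomputable def P (m : ℕ) [NeZero m] : Measure (Om m) := Measure.infinitePi fun _ => uni m

instance P_prob (m : ℕ) [NeZero m] : IsProbabilityMeasure (P m) := by
  unfold P
  infer_instance

/-- the product measure on pairs -/
noncomputable abbrev PP (m : ℕ) [NeZero m] : Measure (Om m × Om m) := (P m).prod (P m)

/-- the product measure on triples -/
noncomputable abbrev PPP (m : ℕ) [NeZero m] : Measure (Om m × Om m × Om m) := (P m).prod (PP m)

/-- one more digit in front -/
def cons {m : ℕ} (i : Fin m) (ω : Om m) : Om m
  | 0 => i
  | k + 1 => ω k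

/-- one more digit in front, on pairs -/
def cons2 {m : ℕ} (i : Fin m) (z : Om m × Om m) : Om m × Om m := (cons i z.1, cons i z.2)

/-- the tail -/
def shift {m : ℕ} (k : ℕ) (ω : Om m) : Om m := fun j => ω (j + k)

/-- square summable functions -/
def Sq {X : Type} (c : X → ℝ) : Prop := Summable fun x => |c x| ^ 2

/-- all orbits are infinite -/
def InfOrb (G X : Type) [Group G] [MulAction G X] : Prop :=
  ∀ x : X, (MulAction.orbit G x).Infinite

/-- a unitary one-cocycle: the data of a vector valued twisted monomial representation
`(ρ g f) x = U g x (f (g⁻¹ x))` -/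
structure VCoc (G X K : Type) [Group G] [MulAction G X] [NormedAddCommGroup K]
    [InnerProductSpace ℂ K] where
  /-- the operators -/
  U : G → X → K →ₗᵢ[ℂ] K
  one : ∀ (x : X) (v : K), U 1 x v = v
  mul : ∀ (g h : G) (x : X) (v : K), U (g * h) x v = U g x (U h (g⁻¹ • x) v)

/-- every `1`-cocycle with values in a vector valued twisted monomial representation on
`ℓ²(X; K)` is a coboundary -/
def H1V (G X K : Type) [Group G] [MulAction G X] [NormedAddCommGroup K]
    [InnerProductSpace ℂ K] : Prop :=
  ∀ (C : VCoc G X K) (b : G → lp (fun _ : X => K) 2),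
    (∀ (g h : G) (x : X), b (g * h) x = b g x + C.U g x (b h (g⁻¹ • x))) →
    ∃ v : lp (fun _ : X => K) 2, ∀ (g : G) (x : X), b g x = C.U g x (v (g⁻¹ • x)) - v x

namespace Forest

variable {G : Type} [Group G] {X : Type} [MulAction G X] {m : ℕ} (F : Forest G X m)

/-- the vertices of the descending path which starts at `x` -/
def node (x : X) (ω : Om m) : ℕ → X
  | 0 => x
  | k + 1 => F.ch (node x ω k) (ω k)

/-- the digits of the translate by `g` of the path with digits `ω` which starts at `x` -/
def act (g : G) (x : X) (ω : Om m) : Om m := fun k => F.idx (g • F.node x ω (k + 1))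

/-- the action on pairs -/
def act2 (g : G) (x : X) (z : Om m × Om m) : Om m × Om m := (F.act g x z.1, F.act g x z.2)

/-- the action on triples -/
def act3 (g : G) (x : X) (z : Om m × Om m × Om m) : Om m × Om m × Om m :=
  (F.act g x z.1, F.act g x z.2.1, F.act g x z.2.2)

/-- the sum of `c` along the path, without the starting point -/
noncomputable def S (c : X → ℝ) (x : X) (ω : Om m) : ℝ := ∑' k : ℕ, c (F.node x ω (k + 1))

/-- `exp 2πi (c~)` on the pairs of paths -/
noncomputable def sg (c : X → ℝ) (x : X) (z : Om m × Om m) : ℂ := ex (F.S c x z.1 - F.S c x z.2)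

/-- `θ` is the sum of an integral function with finite support and of `f - f ∘ par`, `f` square
summable -/
def Tame (θ : X → ℝ) : Prop :=
  ∃ n : X → ℤ, (Function.support n).Finite ∧ ∃ f : X → ℝ, Sq f ∧
    ∀ x, θ x = n x + (f x - f (F.par x))

/-- `c : G → ℓ²(X; ℝ)` is a cocycle modulo `ℤ[X] + δ ℓ²(X)` -/
def IsCoc (c : G → X → ℝ) : Prop :=
  (∀ g, Sq (c g)) ∧ ∀ g h : G, F.Tame fun x => c h (g⁻¹ • x) - c (g * h) x + c g x

/-- the equation of a fixed point of the twisted action on the functions on pairs of paths, with the
normalisation `w - 1 ∈ L²` -/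
structure Fix [NeZero m] (c : G → X → ℝ) (w : X → Om m × Om m → ℂ) : Prop where
  meas : ∀ x, Measurable (w x)
  sum : ∑' x, ∫⁻ z, ‖w x z - 1‖ₑ ^ 2 ∂(PP m) ≠ ∞
  eq : ∀ (g : G) (x : X), ∀ᵐ z ∂(PP m), F.sg (c g) x z * w (g⁻¹ • x) (F.act2 g⁻¹ x z) = w x z

end Forest

end Pool.Agent.LibBS2
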