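import Pool.Agent.LibBS2.NMod

/-!
The fibrewise expectation.
-/

set_option autoImplicit false

namespace Pool.Agent.LibBS2

open MeasureTheory
open scoped ENNReal

variable {G X Ω : Type} [Group G] [MulAction G X] [MeasurableSpace Ω] {μ : Measure Ω}
  [IsProbabilityMeasure μ]

private lemma K2_int (v : Lp ℂ 2 μ) : Integrable (v : Ω → ℂ) μ :=
  (Lp.memLp v).integrable (by norm_num)

lemma norm_integral_le_norm (v : Lp ℂ 2 μ) : ‖∫ ω, v ω ∂μ‖ ≤ ‖v‖ := by
  have h1 : ‖∫ ω, v ω ∂μ‖ₑ ≤ eLpNorm (v : Ω → ℂ) 1 μ := by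
    rw [eLpNorm_one_eq_lintegral_enorm]
    exact enorm_integral_le_lintegral_enorm _
  have h2 : eLpNorm (v : Ω → ℂ) 1 μ ≤ eLpNorm (v : Ω → ℂ) 2 μ :=
    eLpNorm_le_eLpNorm_of_exponent_le (by norm_num) (Lp.aestronglyMeasurable v)
  have h3 := h1.trans h2
  rw [← Lp.enorm_def, ← ofReal_norm_eq_enorm, ← ofReal_norm_eq_enorm] at h3
  exact (ENNReal.ofReal_le_ofReal_iff (norm_nonneg _)).1 h3

lemma norm_one1 : ‖one1 μ‖ = 1 := by
  unfold one1
  rw [Lp.norm_const' 2 μ (1 : ℂ) (by norm_num) (by norm_num)]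
  simp

lemma EL_summable (f : LX X Ω μ) : Summable fun x => ‖(∫ ω, f x ω ∂μ) • one1 μ‖ ^ 2 := by
  refine Summable.of_nonneg_of_le (fun x => sq_nonneg _) (fun x => ?_) (lp_summable f)
  rw [norm_smul, norm_one1, mul_one]
  exact pow_le_pow_left₀ (norm_nonneg _) (norm_integral_le_norm (f x)) 2

/-- the fibrewise expectation. -/
noncomputable def EL (f : LX X Ω μ) : LX X Ω μ :=
  lpMk (fun x => (∫ ω, f x ω ∂μ) • one1 μ) (EL_summable f)

lemma EL_apply (f : LX X Ω μ) (x : X) : EL f x = (∫ ω, f x ω ∂μ) • one1 μ := rfl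

private lemma K2_add (v v' : Lp ℂ 2 μ) :
    ∫ ω, (v + v' : Lp ℂ 2 μ) ω ∂μ = ∫ ω, v ω ∂μ + ∫ ω, v' ω ∂μ := by
  rw [integral_congr_ae (Lp.coeFn_add v v'), ← integral_add (K2_int v) (K2_int v')]
  rfl

private lemma K2_smul (c : ℂ) (v : Lp ℂ 2 μ) :
    ∫ ω, (c • v : Lp ℂ 2 μ) ω ∂μ = c * ∫ ω, v ω ∂μ := by
  rw [integral_congr_ae (Lp.coeFn_smul c v)]
  exact integral_const_mul _ _

private lemma K2_one : ∫ ω, (one1 μ : Ω → ℂ) ω ∂μ = 1 := by
  rw [integral_congr_ae (one1_ae (μ := μ))]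
  simp

lemma EL_add (f f' : LX X Ω μ) : EL (f + f') = EL f + EL f' := by
  ext x : 2
  show (∫ ω, (f x + f' x : Lp ℂ 2 μ) ω ∂μ) • one1 μ =
    (∫ ω, f x ω ∂μ) • one1 μ + (∫ ω, f' x ω ∂μ) • one1 μ
  rw [K2_add, add_smul]

private lemma K2_EL_smul (c : ℂ) (f : LX X Ω μ) : EL (c • f) = c • EL f := by
  ext x : 2
  show (∫ ω, (c • f x : Lp ℂ 2 μ) ω ∂μ) • one1 μ = c • ((∫ ω, f x ω ∂μ) • one1 μ)
  rw [K2_smul, mul_smul]

lemma EL_sub (f f' : LX X Ω μ) : EL (f - f') = EL f - EL f' := by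
  have h : f - f' = f + (-1 : ℂ) • f' := by rw [neg_one_smul, sub_eq_add_neg]
  rw [h, EL_add, K2_EL_smul, neg_one_smul, sub_eq_add_neg]

lemma EL_iotaL (p : MonoidAlgebra ℤ X) : EL (iotaL X μ p) = iotaL X μ p := by
  ext x : 2
  rw [EL_apply, iotaL_apply, K2_smul, K2_one, mul_one]

lemma EL_op (E : Ext G X Ω μ) (g : G) (f : LX X Ω μ) :
    EL (E.coc.op g f) = E.coc.op g (EL f) := by
  ext x : 2
  rw [EL_apply, VCoc.op_apply, VCoc.op_apply, EL_apply, map_smul, E.U_one1]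
  congr 1
  rw [integral_congr_ae (E.coc_apply g x (f (g⁻¹ • x)))]
  have hmp := E.mp g⁻¹ x
  have h := integral_map (μ := μ) (φ := E.act g⁻¹ x) hmp.aemeasurable
    (f := ((f (g⁻¹ • x) : Lp ℂ 2 μ) : Ω → ℂ)) (by
      rw [hmp.map_eq]
      exact Lp.aestronglyMeasurable _)
  rw [hmp.map_eq] at h
  exact h.symm

/-- the expectations of the real part are square summable. -/
lemma sq_integral_re (f : LX X Ω μ) : Sq fun x => (∫ ω, f x ω ∂μ).re := by
  refine Summable.of_nonneg_of_le (fun x => sq_nonneg _) (fun x => ?_) (lp_summable f)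
  exact pow_le_pow_left₀ (abs_nonneg _) ((Complex.abs_re_le_norm _).trans (norm_integral_le_norm (f x))) 2

/-- real primitives of the two-cocycles modulo `ℤ[X]`. -/
theorem exists_prim (E : Ext G X Ω μ) (H2 : H2V G X (Lp ℂ 2 μ)) (n : G → G → LX X Ω μ)
    (hn : ∀ g h j : G, ∃ p : MonoidAlgebra ℤ X,
      E.coc.op g (n h j) - n (g * h) j + n g (h * j) - n g h = iotaL X μ p) :
    ∃ c : G → LX X Ω μ, ∀ g h : G, n g h - EL (n g h) = E.coc.op g (c h) - c (g * h) + c g := by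
  obtain ⟨c, hc⟩ := H2 E.coc (fun g h => n g h - EL (n g h)) (by
    intro g h j x
    obtain ⟨p, hp⟩ := hn g h j
    have hE := congrArg EL hp
    rw [EL_iotaL, EL_sub, EL_add, EL_sub, EL_op] at hE
    have key : E.coc.op g (n h j - EL (n h j)) - (n (g * h) j - EL (n (g * h) j)) +
        (n g (h * j) - EL (n g (h * j))) - (n g h - EL (n g h)) = 0 := by
      rw [map_sub]
      have h3 : E.coc.op g (n h j) - n (g * h) j + n g (h * j) - n g h -
          (E.coc.op g (EL (n h j)) - EL (n (g * h) j) + EL (n g (h * j)) - EL (n g h)) = 0 := by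
        rw [hp, hE, sub_self]
      rw [← h3]
      abel
    have h4 := congrArg (fun F : LX X Ω μ => F x) key
    exact h4)
  refine ⟨c, fun g h => ?_⟩
  ext x : 2
  exact hc g h x

end Pool.Agent.LibBS2
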