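import Pool.Agent.LibBS2.NMod
import Pool.Agent.LibCod83.Elem

/-!
Integer valued square summable functions which are constant on the fibres.
-/

set_option autoImplicit false

namespace Pool.Agent.LibBS2

open MeasureTheory
open scoped ENNReal

variable {X Ω : Type} [MeasurableSpace Ω] {μ : Measure Ω} [IsProbabilityMeasure μ]

theorem mem_range_iotaN (f : NN X Ω μ)
    (hf : ∀ x, ∃ r : ℂ, ∀ᵐ ω ∂μ, (f.1 x : Ω → ℂ) ω = r) :
    f ∈ LinearMap.range (iotaN X μ) := by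
  classical
  have hn : ∀ x, ∃ n : ℤ, ∀ᵐ ω ∂μ, (f.1 x : Ω → ℂ) ω = (n : ℂ) := by
    intro x
    obtain ⟨r, hr⟩ := hf x
    obtain ⟨ω, ⟨n, h1⟩, h2⟩ := ((f.2 x).and hr).exists
    refine ⟨n, ?_⟩
    filter_upwards [hr] with ω' h3
    rw [h3, ← h2, h1]
  choose n hn using hn
  have hfx : ∀ x, f.1 x = ((n x : ℤ) : ℂ) • one1 μ := by
    intro x
    apply Lp.ext
    filter_upwards [hn x, Lp.coeFn_smul ((n x : ℤ) : ℂ) (one1 μ), one1_ae (μ := μ)] with ω h1 h2 h3
    rw [h1, h2, Pi.smul_apply, h3, smul_eq_mul, mul_one]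
  have hne : one1 μ ≠ 0 := by
    intro h
    have h1 := one1_ae (μ := μ)
    rw [h] at h1
    have h2 : ∀ᵐ _ω ∂μ, False := by
      filter_upwards [h1, Lp.coeFn_zero ℂ 2 μ] with ω h1 h2
      rw [h2] at h1
      exact zero_ne_one h1
    rw [Filter.eventually_false_iff_eq_bot, ae_eq_bot] at h2
    exact IsProbabilityMeasure.ne_zero μ h2
  have hne2 : ‖one1 μ‖ ^ 2 ≠ 0 := pow_ne_zero 2 (norm_ne_zero_iff.2 hne)
  have hsum : Summable fun x => |((n x : ℤ) : ℝ)| ^ 2 := by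
    have h1 := lp_summable f.1
    have h2 : (fun x => ‖f.1 x‖ ^ 2) = fun x => |((n x : ℤ) : ℝ)| ^ 2 * ‖one1 μ‖ ^ 2 := by
      funext x
      rw [hfx x, norm_smul, mul_pow, Complex.norm_intCast]
    rw [h2] at h1
    exact (summable_mul_right_iff hne2).1 h1
  have hfin := Pool.Agent.LibCod83.finite_support_of_int (fun x => ((n x : ℤ) : ℝ)) hsum
    (fun x => ⟨n x, rfl⟩)
  have hfin' : (Function.support n).Finite := by
    refine hfin.subset fun x hx => ?_
    show ((n x : ℤ) : ℝ) ≠ 0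
    exact_mod_cast hx
  refine ⟨MonoidAlgebra.ofCoeff (Finsupp.ofSupportFinite n hfin'), ?_⟩
  apply Subtype.ext
  rw [iotaN_apply]
  ext x : 2
  rw [iotaL_apply, hfx x]
  rfl

end Pool.Agent.LibBS2
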