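import Mathlib

/-!
A criterion for the vanishing of the second cohomology of a quotient module, and the chain level
form of the injectivity in the long exact sequence of homology.
-/

set_option autoImplicit false

namespace Pool.Agent.LibBS2

open CategoryTheory

variable {G : Type} [Group G]

/-- the criterion. -/
theorem not_nontrivial_quot {A : Type} [AddCommGroup A] (ρ : Representation ℤ G A)
    (W : Submodule ℤ A) (hW : ∀ g, W ≤ W.comap (ρ g))
    (H : ∀ n : G → G → A, (∀ g h j, ρ g (n h j) - n (g * h) j + n g (h * j) - n g h ∈ W) →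
      ∃ m : G → A, ∀ g h, n g h - (ρ g (m h) - m (g * h) + m g) ∈ W) :
    ¬ Nontrivial (groupCohomology (Rep.of (ρ.quotient W hW)) 2) := by
  rw [not_nontrivial_iff_subsingleton]
  have key : ∀ x : groupCohomology (Rep.of (ρ.quotient W hW)) 2, x = 0 := by
    intro x
    refine groupCohomology.H2_induction_on (A := Rep.of (ρ.quotient W hW))
      (C := fun x => x = 0) x fun f => ?_
    rw [groupCohomology.H2π_eq_zero_iff]
    have hf := (groupCohomology.mem_cocycles₂_def f.1).1 f.2
    let F : G × G → A ⧸ W := fun x => f.1 x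
    have hF : ∀ g h j : G, ρ.quotient W hW g (F (h, j)) - F (g * h, j) + F (g, h * j) -
        F (g, h) = 0 := fun g h j => hf g h j
    have hn0 : ∀ g h : G, ∃ a : A, W.mkQ a = F (g, h) := fun g h =>
      Submodule.mkQ_surjective W _
    choose n hn using hn0
    have hact : ∀ (g : G) (a : A), ρ.quotient W hW g (W.mkQ a) = W.mkQ (ρ g a) :=
      fun g a => rfl
    obtain ⟨m, hm⟩ := H n (fun g h j => by
      have h1 := hF g h j
      rw [← hn, ← hn, ← hn, ← hn, hact, ← map_sub, ← map_add, ← map_sub] at h1
      rw [← Submodule.Quotient.mk_eq_zero]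
      exact h1)
    refine ⟨fun g => (W.mkQ (m g) : A ⧸ W), ?_⟩
    funext ⟨g, h⟩
    show ρ.quotient W hW g (W.mkQ (m h)) - W.mkQ (m (g * h)) + W.mkQ (m g) = F (g, h)
    rw [hact, ← hn, ← map_sub, ← map_add]
    have h4 := hm g h
    rw [← Submodule.Quotient.mk_eq_zero] at h4
    have h5 : W.mkQ (n g h - (ρ g (m h) - m (g * h) + m g)) = 0 := h4
    rw [map_sub, sub_eq_zero] at h5
    exact h5.symm
  exact ⟨fun a b => by rw [key a, key b]⟩

end Pool.Agent.LibBS2
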