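import Pool.Agent.LibBS2.K1
import Pool.Agent.LibBS2.K2
import Pool.Agent.LibBS2.K4
import Pool.Agent.LibBS2.K6
import Pool.Agent.LibBS2.C01

/-!
The second cohomology of `N / ℤ[X]` vanishes, given the analytic form of the relative theorem.
-/

set_option autoImplicit false

namespace Pool.Agent.LibBS2

open MeasureTheory
open scoped ENNReal

variable {G X Ω : Type} [Group G] [MulAction G X] [MeasurableSpace Ω] {μ : Measure Ω}
  [IsProbabilityMeasure μ]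

/-- the coboundary of the real parts. -/
lemma prim_ae (E : Ext G X Ω μ) (n : G → G → LX X Ω μ) (c : G → LX X Ω μ)
    (hc : ∀ g h : G, n g h - EL (n g h) = E.coc.op g (c h) - c (g * h) + c g)
    (cR : G → X → Ω → ℝ) (hcR : ∀ g x, ∀ᵐ ω ∂μ, cR g x ω = ((c g x : Ω → ℂ) ω).re)
    (g h : G) (x : X) : ∀ᵐ ω ∂μ,
      cR h (g⁻¹ • x) (E.act g⁻¹ x ω) - cR (g * h) x ω + cR g x ω =
        ((n g h x : Ω → ℂ) ω).re - (∫ ω, n g h x ω ∂μ).re := by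
  have e1 := congrArg (fun f : LX X Ω μ => (f x : Lp ℂ 2 μ)) (hc g h)
  have e2 : (n g h x - EL (n g h) x : Lp ℂ 2 μ) =
      E.coc.U g x (c h (g⁻¹ • x)) - c (g * h) x + c g x := e1
  rw [EL_apply] at e2
  have q1 := Lp.coeFn_sub (n g h x) ((∫ ω, n g h x ω ∂μ) • one1 μ)
  have q2 := Lp.coeFn_smul (∫ ω, n g h x ω ∂μ) (one1 μ)
  have q3 := one1_ae (μ := μ)
  have q4 := Lp.coeFn_add (E.coc.U g x (c h (g⁻¹ • x)) - c (g * h) x) (c g x)
  have q5 := Lp.coeFn_sub (E.coc.U g x (c h (g⁻¹ • x))) (c (g * h) x)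
  have q6 := E.coc_apply g x (c h (g⁻¹ • x))
  have q7 := (E.mp g⁻¹ x).quasiMeasurePreserving.ae (hcR h (g⁻¹ • x))
  rw [e2] at q1
  filter_upwards [q1, q2, q3, q4, q5, q6, q7, hcR (g * h) x, hcR g x] with ω q1 q2 q3 q4 q5 q6 q7 q8 q9
  rw [q7, q8, q9]
  rw [q4, Pi.add_apply, q5, Pi.sub_apply, q6, Pi.sub_apply, q2, Pi.smul_apply, q3, smul_eq_mul,
    mul_one] at q1
  have q10 := congrArg Complex.re q1
  simpa using q10

theorem coh2_QRep (E : Ext G X Ω μ) (H2 : H2V G X (Lp ℂ 2 μ))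
    (hrel : ∀ c : G → X → Ω → ℝ, E.IsCoc c → ∃ l : X → Ω → ℝ, SqE μ l ∧
      ∀ g : G, TameE μ fun y ω => c g y ω - l y ω + l (g⁻¹ • y) (E.act g⁻¹ y ω)) :
    ¬ Nontrivial (groupCohomology E.QRep 2) := by
  refine not_nontrivial_quot E.repN (LinearMap.range (iotaN X μ)) E.range_le fun n hn => ?_
  obtain ⟨c, hc⟩ := exists_prim E H2 (fun g h => (n g h).1) (fun g h j => by
    obtain ⟨p, hp⟩ := hn g h j
    exact ⟨p, (congrArg Subtype.val hp).symm⟩)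
  choose cR hcS hcR using fun g => exists_re (c g)
  have hP := prim_ae E (fun g h => (n g h).1) c hc cR hcR
  have hcoc : E.IsCoc cR := by
    refine ⟨hcS, fun g h x => ⟨-(∫ ω, (n g h).1 x ω ∂μ).re, ?_⟩⟩
    filter_upwards [hP g h x, (n g h).2 x] with ω h1 ⟨k, hk⟩
    refine ⟨k, ?_⟩
    rw [h1, hk]
    simp only [Complex.intCast_re]
    ring
  obtain ⟨l, hl, hT⟩ := hrel cR hcoc
  choose r hr hm using hT
  have hθ : ∀ g, SqE μ (fun y ω => cR g y ω - l y ω + l (g⁻¹ • y) (E.act g⁻¹ y ω) - r g y) :=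
    fun g => (((hcS g).sub hl).add (E.sqE_act g hl)).sub (SqE.of_sq (hr g))
  let m : G → NN X Ω μ := fun g => ⟨(hθ g).toLX, fun x => by
    filter_upwards [(hθ g).toLX_ae x, hm g x] with ω h1 ⟨k, hk⟩
    refine ⟨k, ?_⟩
    rw [h1, hk]
    push_cast
    ring⟩
  refine ⟨m, fun g h => mem_range_iotaN _ fun x => ?_⟩
  refine ⟨(((∫ ω, (n g h).1 x ω ∂μ).re + (r h (g⁻¹ • x) - r (g * h) x + r g x) : ℝ) : ℂ), ?_⟩
  have e1 : ((n g h - (E.repN g (m h) - m (g * h) + m g) : NN X Ω μ) : LX X Ω μ) x =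
      (n g h).1 x - (E.coc.U g x ((hθ h).toLX (g⁻¹ • x)) - (hθ (g * h)).toLX x + (hθ g).toLX x) :=
    rfl
  have q0 := congrArg (fun v : Lp ℂ 2 μ => (v : Ω → ℂ)) e1
  have q1 := Lp.coeFn_sub ((n g h).1 x)
    (E.coc.U g x ((hθ h).toLX (g⁻¹ • x)) - (hθ (g * h)).toLX x + (hθ g).toLX x)
  have q2 := Lp.coeFn_add (E.coc.U g x ((hθ h).toLX (g⁻¹ • x)) - (hθ (g * h)).toLX x) ((hθ g).toLX x)
  have q3 := Lp.coeFn_sub (E.coc.U g x ((hθ h).toLX (g⁻¹ • x))) ((hθ (g * h)).toLX x)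
  have q4 := E.coc_apply g x ((hθ h).toLX (g⁻¹ • x))
  have q5 := (E.mp g⁻¹ x).quasiMeasurePreserving.ae ((hθ h).toLX_ae (g⁻¹ • x))
  have q6 := (hθ (g * h)).toLX_ae x
  have q7 := (hθ g).toLX_ae x
  filter_upwards [q1, q2, q3, q4, q5, q6, q7, hP g h x, (n g h).2 x] with ω q1 q2 q3 q4 q5 q6 q7 q8
    ⟨k, hk⟩
  have q0' := congrFun q0 ω
  simp only at q0'
  rw [q0', q1, Pi.sub_apply, q2, Pi.add_apply, q3, Pi.sub_apply, q4, q5, q6, q7, hk]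
  rw [hk] at q8
  simp only [Complex.intCast_re] at q8
  have e2 : E.act (g * h)⁻¹ x ω = E.act h⁻¹ (g⁻¹ • x) (E.act g⁻¹ x ω) := by
    rw [mul_inv_rev, E.mul]
  have e3 : (g * h)⁻¹ • x = h⁻¹ • g⁻¹ • x := by rw [mul_inv_rev, mul_smul]
  rw [e2, e3]
  have q9 : (k : ℝ) = cR h (g⁻¹ • x) (E.act g⁻¹ x ω) - cR (g * h) x ω + cR g x ω +
      (∫ ω, (n g h).1 x ω ∂μ).re := by
    rw [q8]
    ring
  have q10 : ((k : ℤ) : ℂ) = (((k : ℝ)) : ℂ) := by push_cast; rfl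
  rw [q10, q9]
  push_cast
  ring

end Pool.Agent.LibBS2
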