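import Mathlib

/-!
The chain level form of the injectivity in the long exact sequence of homology.
-/

set_option autoImplicit false

namespace Pool.Agent.LibBS2

open CategoryTheory

variable {G : Type} [Group G]

/-- naturality of the first differential. -/
theorem d₂₁_nat {A B : Rep.{0} ℤ G} (f : A ⟶ B) (x : G × G →₀ A) :
    groupHomology.d₂₁ B (x.mapRange f.hom (map_zero _)) =
      Finsupp.mapRange f.hom (map_zero _) (groupHomology.d₂₁ A x : G →₀ A) := by
  induction x using Finsupp.induction_linear with
  | zero =>
    rw [Finsupp.mapRange_zero]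
    rw [map_zero, map_zero]
    exact (Finsupp.mapRange_zero (hf := map_zero f.hom)).symm
  | add x y hx hy =>
    have h1 : Finsupp.mapRange f.hom (map_zero _) (x + y) =
        Finsupp.mapRange f.hom (map_zero _) x + Finsupp.mapRange f.hom (map_zero _) y :=
      Finsupp.mapRange_add (fun a b => map_add f.hom a b) x y
    rw [h1, map_add, map_add, hx, hy]
    exact (Finsupp.mapRange_add (fun a b => map_add f.hom a b) _ _).symm
  | single g a =>
    rw [Finsupp.mapRange_single, groupHomology.d₂₁_single, groupHomology.d₂₁_single]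
    have h2 : ∀ u v w : G →₀ A, Finsupp.mapRange f.hom (map_zero _) (u - v + w) =
        Finsupp.mapRange f.hom (map_zero _) u - Finsupp.mapRange f.hom (map_zero _) v +
          Finsupp.mapRange f.hom (map_zero _) w := by
      intro u v w
      rw [Finsupp.mapRange_add (fun a b => map_add f.hom a b),
        Finsupp.mapRange_sub (fun a b => map_sub f.hom a b)]
    refine Eq.trans ?_ (h2 _ _ _).symm
    rw [Finsupp.mapRange_single, Finsupp.mapRange_single, Finsupp.mapRange_single,
      Rep.hom_comm_apply]

/-- naturality of the second differential. -/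
theorem d₃₂_nat {A B : Rep.{0} ℤ G} (f : A ⟶ B) (x : G × G × G →₀ A) :
    groupHomology.d₃₂ B (x.mapRange f.hom (map_zero _)) =
      Finsupp.mapRange f.hom (map_zero _) (groupHomology.d₃₂ A x : G × G →₀ A) := by
  induction x using Finsupp.induction_linear with
  | zero =>
    rw [Finsupp.mapRange_zero]
    rw [map_zero, map_zero]
    exact (Finsupp.mapRange_zero (hf := map_zero f.hom)).symm
  | add x y hx hy =>
    have h1 : Finsupp.mapRange f.hom (map_zero _) (x + y) =
        Finsupp.mapRange f.hom (map_zero _) x + Finsupp.mapRange f.hom (map_zero _) y :=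
      Finsupp.mapRange_add (fun a b => map_add f.hom a b) x y
    rw [h1, map_add, map_add, hx, hy]
    exact (Finsupp.mapRange_add (fun a b => map_add f.hom a b) _ _).symm
  | single g a =>
    rw [Finsupp.mapRange_single, groupHomology.d₃₂_single, groupHomology.d₃₂_single]
    have h2 : ∀ u v w t : G × G →₀ A, Finsupp.mapRange f.hom (map_zero _) (u - v + w - t) =
        Finsupp.mapRange f.hom (map_zero _) u - Finsupp.mapRange f.hom (map_zero _) v +
          Finsupp.mapRange f.hom (map_zero _) w - Finsupp.mapRange f.hom (map_zero _) t := by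
      intro u v w t
      rw [Finsupp.mapRange_sub (fun a b => map_sub f.hom a b),
        Finsupp.mapRange_add (fun a b => map_add f.hom a b),
        Finsupp.mapRange_sub (fun a b => map_sub f.hom a b)]
    refine Eq.trans ?_ (h2 _ _ _ _).symm
    rw [Finsupp.mapRange_single, Finsupp.mapRange_single, Finsupp.mapRange_single,
      Finsupp.mapRange_single, Rep.hom_comm_apply]

/-- a one-cycle of the submodule which bounds in the big module bounds in the submodule, when the
second homology of the quotient vanishes. -/
theorem exists_chain {A B C : Rep.{0} ℤ G} (f : A ⟶ B) (p : B ⟶ C)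
    (hf : Function.Injective f.hom) (hp : Function.Surjective p.hom)
    (h0 : ∀ a : A, p.hom (f.hom a) = 0) (hex : ∀ b : B, p.hom b = 0 → ∃ a : A, f.hom a = b)
    (hC : ¬ Nontrivial (groupHomology C 2)) (z : G →₀ A) (β : G × G →₀ B)
    (hβ : groupHomology.d₂₁ B β = z.mapRange f.hom (map_zero _)) :
    ∃ γ : G × G →₀ A, groupHomology.d₂₁ A γ = z := by
  rw [not_nontrivial_iff_subsingleton] at hC
  have h1 : Finsupp.mapRange p.hom (map_zero _) β ∈ groupHomology.cycles₂ C := by
    show groupHomology.d₂₁ C (Finsupp.mapRange p.hom (map_zero _) β) = 0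
    rw [d₂₁_nat, hβ]
    ext g
    show p.hom (f.hom (z g)) = 0
    exact h0 _
  have h2 := (groupHomology.H2π_eq_zero_iff
    (⟨Finsupp.mapRange p.hom (map_zero _) β, h1⟩ : groupHomology.cycles₂ C)).1
    (Subsingleton.elim _ _)
  obtain ⟨c, hc⟩ := h2
  obtain ⟨c', rfl⟩ := Finsupp.mapRange_surjective (α := G × G × G) p.hom (map_zero _) hp c
  have hc1 : groupHomology.d₃₂ C (Finsupp.mapRange p.hom (map_zero _) c') =
    Finsupp.mapRange p.hom (map_zero _) β := hc
  rw [d₃₂_nat] at hc1
  have h3 : ∀ x : G × G, ∃ a : A, f.hom a = β x - (groupHomology.d₃₂ B c' : G × G →₀ B) x := by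
    intro x
    apply hex
    have h4 : p.hom ((groupHomology.d₃₂ B c' : G × G →₀ B) x) = p.hom (β x) :=
      DFunLike.congr_fun hc1 x
    rw [map_sub, h4, sub_self]
  choose a ha using h3
  have hfin : (Function.support a).Finite := by
    refine (Finset.finite_toSet (β - (groupHomology.d₃₂ B c' : G × G →₀ B)).support).subset ?_
    intro x hx
    rw [Finset.mem_coe, Finsupp.mem_support_iff]
    intro h5
    apply hx
    apply hf
    rw [ha, map_zero]
    exact h5
  refine ⟨Finsupp.ofSupportFinite a hfin, ?_⟩
  have h6 : Finsupp.mapRange f.hom (map_zero _) (Finsupp.ofSupportFinite a hfin) =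
      β - (groupHomology.d₃₂ B c' : G × G →₀ B) := by
    ext x
    exact ha x
  apply Finsupp.mapRange_injective (α := G) f.hom (map_zero _) hf
  show Finsupp.mapRange f.hom (map_zero _)
    (groupHomology.d₂₁ A (Finsupp.ofSupportFinite a hfin) : G →₀ A) = _
  rw [← d₂₁_nat, h6]
  have h7 : groupHomology.d₂₁ B (groupHomology.d₃₂ B c') = 0 := by
    have := groupHomology.d₃₂_comp_d₂₁ B
    exact congrArg (fun u => u.hom c') this
  have h8 : groupHomology.d₂₁ B (β - (groupHomology.d₃₂ B c' : G × G →₀ B)) =
      groupHomology.d₂₁ B β - groupHomology.d₂₁ B (groupHomology.d₃₂ B c') := map_sub _ _ _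
  rw [h8, h7, hβ, sub_zero]

end Pool.Agent.LibBS2
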