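import Pool.Agent.LibBS2.T6
import Pool.Agent.LibBS2.CAN
import Pool.Agent.LibBS2.K5
import Pool.Agent.LibBS2.K7
import Pool.Agent.LibBS2.B4S

/-!
Theorem C for `0 < p < q` coprime.
-/

set_option autoImplicit false

namespace Pool.Agent.LibBS2

open Pool.Agent.LibZIS Pool.Agent.LibCod83 CategoryTheory

universe v

variable {G : Type} [Group G] {E : Type v} [TopologicalSpace E] [PathConnectedSpace E]
  [MulAction G E] [ContinuousConstSMul G E]

theorem main_coprime (hfree : ∀ (g : G) (e : E), g • e = e → g = 1) (hE : H1Zero E)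
    (hG : IsPD G 4) (a t : G) (ha : ∀ n : ℤ, n ≠ 0 → a ^ n ≠ 1) (p q : ℕ)
    (hp : 0 < p) (hpq : p < q) (hc : Nat.Coprime p q) (h : t * a ^ p * t⁻¹ = a ^ q) :
    ∃ i, i ≤ 2 ∧ Nontrivial (Hgy (lam G) E i) := by
  by_contra hcon
  push Not at hcon
  have H : ∀ i, i ≤ 2 → ¬ Nontrivial (Hgy (lam G) E i) := fun i hi => by
    have := hcon i hi
    rwa [not_nontrivial_iff_subsingleton]
  have hA : Amenable (Subgroup.zpowers a) := amenable_of_cyclic _
  have hst := amenable_stabilizer (Subgroup.zpowers a) hA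
  have hne : NeZero q := ⟨by omega⟩
  rcases finite_or_infinite (G ⧸ Subgroup.zpowers a) with hfin | hinf
  · exact H 0 (by norm_num) (main_finite (E := E) (G ⧸ Subgroup.zpowers a) hst)
  have htr : ∀ x y : G ⧸ Subgroup.zpowers a, ∃ g : G, g • x = y :=
    fun x y => MulAction.exists_smul_eq G x y
  have horb : InfOrb G (G ⧸ Subgroup.zpowers a) := fun x => by
    rw [MulAction.orbit_eq_univ]
    exact Set.infinite_univ
  obtain ⟨D, β, hβ⟩ := exists_ext_chain a t ha p q hp hpq hc h
  have h2 : ¬ Nontrivial (groupCohomology D.QRep 2) := coh2_QRep D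
    (h2v_of_gap (E := E) hfree hE htr hst (H 0 (by norm_num)) (H 1 (by norm_num))
      (H 2 (by norm_num)))
    (fun c hc => D.main_rel horb
      (h1v_of_gap (E := E) hfree htr hst (H 0 (by norm_num)) (H 1 (by norm_num))) hc)
  have h3 : ¬ Nontrivial (groupHomology D.QRep 2) := by
    obtain ⟨e⟩ := hG D.QRep 2 (by norm_num)
    intro h4
    refine h2 ?_
    have e' : groupCohomology D.QRep 2 ≃ groupHomology D.QRep 2 :=
      ((forget _).mapIso e).toEquiv
    exact e'.nontrivial
  obtain ⟨γ, hγ⟩ := exists_chain D.iota D.prQ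
    (fun x y hxy => iotaL_injective (congrArg Subtype.val hxy))
    (Submodule.mkQ_surjective _)
    (fun x => (Submodule.Quotient.mk_eq_zero _).2 ⟨x, rfl⟩)
    (fun _ hb => (Submodule.Quotient.mk_eq_zero _).1 hb) h3
    (Finsupp.single a (MonoidAlgebra.single (QuotientGroup.mk 1) 1)) β (by
      rw [hβ, Finsupp.mapRange_single])
  exact not_bounds a ha γ hγ

end Pool.Agent.LibBS2
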