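import Mathlib

/-!
MP_48737f_gt, Theorem C, reduction row: commensurating elements.
-/

set_option autoImplicit false

namespace Pool.Agent.LibBS2

/-- the conjugation relation for powers -/
theorem R1_conj_zpow {G : Type*} [Group G] {t x y : G} (h : t * x * t⁻¹ = y) (n : ℤ) :
    t * x ^ n * t⁻¹ = y ^ n := by
  rw [← h, conj_zpow]

/-- two commuting independent elements -/
theorem R1_zsq {G : Type*} [Group G] {x y : G} (hc : Commute x y)
    (hi : ∀ i j : ℤ, x ^ i * y ^ j = 1 → i = 0 ∧ j = 0) :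
    ∃ f : Multiplicative (Fin 2 → ℤ) →* G, Function.Injective f := by
  refine ⟨{ toFun := fun u => x ^ (u.toAdd 0) * y ^ (u.toAdd 1), map_one' := ?_, map_mul' := ?_ }, ?_⟩
  · simp
  · intro u v
    have h1 : (Multiplicative.toAdd (u * v)) 0 = u.toAdd 0 + v.toAdd 0 := rfl
    have h2 : (Multiplicative.toAdd (u * v)) 1 = u.toAdd 1 + v.toAdd 1 := rfl
    rw [h1, h2, zpow_add, zpow_add]
    have hc2 : Commute (x ^ (v.toAdd 0)) (y ^ (u.toAdd 1)) := hc.zpow_zpow _ _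
    calc x ^ (u.toAdd 0) * x ^ (v.toAdd 0) * (y ^ (u.toAdd 1) * y ^ (v.toAdd 1))
        = x ^ (u.toAdd 0) * (x ^ (v.toAdd 0) * y ^ (u.toAdd 1)) * y ^ (v.toAdd 1) := by group
      _ = x ^ (u.toAdd 0) * (y ^ (u.toAdd 1) * x ^ (v.toAdd 0)) * y ^ (v.toAdd 1) := by rw [hc2.eq]
      _ = x ^ (u.toAdd 0) * y ^ (u.toAdd 1) * (x ^ (v.toAdd 0) * y ^ (v.toAdd 1)) := by group
  · rw [injective_iff_map_eq_one]
    intro u hu
    obtain ⟨h0, h1⟩ := hi _ _ hu
    apply Multiplicative.toAdd.injective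
    funext k
    fin_cases k
    · exact h0
    · exact h1

/-- The reduction: either `ℤ²` embeds or there is a commensurating relation with coprime exponents
`0 < p < q`. -/
theorem reduction {G : Type*} [Group G] (a t : G) (ha : ∀ n : ℤ, n ≠ 0 → a ^ n ≠ 1)
    (p q : ℤ) (hp : p ≠ 0) (hq : q ≠ 0) (h : t * a ^ p * t⁻¹ = a ^ q)
    (hor : p.natAbs ≠ q.natAbs ∨ ∀ i : ℤ, i ≠ 0 → t ^ i ∉ Subgroup.zpowers a) :
    (∃ f : Multiplicative (Fin 2 → ℤ) →* G, Function.Injective f) ∨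
      ∃ (a' t' : G) (p' q' : ℕ), (∀ n : ℤ, n ≠ 0 → a' ^ n ≠ 1) ∧ 0 < p' ∧ p' < q' ∧
        Nat.Coprime p' q' ∧ t' * a' ^ p' * t'⁻¹ = a' ^ q' := by
  by_cases hpq : p.natAbs = q.natAbs
  · left
    have ht := hor.resolve_left (by simpa using hpq)
    -- `t^2` commutes with `a^p`
    have h2 : t * (t * a ^ p * t⁻¹) * t⁻¹ = a ^ p := by
      rcases Int.natAbs_eq_natAbs_iff.1 hpq with e | e
      · rw [h, ← e, h, e]
      · rw [h]
        have h3 : t * a ^ q * t⁻¹ = (t * a ^ p * t⁻¹)⁻¹ := by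
          rw [show q = -p by omega, zpow_neg]; group
        rw [h3, h, show q = -p by omega, zpow_neg, inv_inv]
    have hc : Commute (a ^ p) (t ^ 2) := by
      have h4 : t ^ 2 * a ^ p = a ^ p * t ^ 2 := by
        have e3 : t ^ 2 * a ^ p = (t * (t * a ^ p * t⁻¹) * t⁻¹) * t ^ 2 := by
          rw [pow_two]; simp only [mul_assoc, inv_mul_cancel_left, inv_mul_cancel, mul_one]
        rw [e3, h2]
      exact h4.symm
    refine R1_zsq hc ?_
    intro i j hij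
    have hj : j = 0 := by
      by_contra hj
      apply ht (2 * j) (by omega)
      rw [Subgroup.mem_zpowers_iff]
      refine ⟨-(p * i), ?_⟩
      have e1 : (a ^ p) ^ i = a ^ (p * i) := (zpow_mul a p i).symm
      have e2 : (t ^ 2) ^ j = t ^ (2 * j) := by rw [zpow_mul]; norm_cast
      rw [e1, e2] at hij
      rw [zpow_neg]
      exact (eq_inv_of_mul_eq_one_right hij).symm
    subst hj
    refine ⟨?_, rfl⟩
    by_contra hi
    rw [zpow_zero, mul_one, ← zpow_mul] at hij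
    exact ha _ (mul_ne_zero hp hi) hij
  · right
    obtain ⟨d, p1, q1, hd, hcop, hp1, hq1⟩ : ∃ d p1 q1 : ℤ, d ≠ 0 ∧ Nat.Coprime p1.natAbs q1.natAbs ∧
        p = d * p1 ∧ q = d * q1 := by
      have hg : 0 < Int.gcd p q := Int.gcd_pos_of_ne_zero_left _ hp
      obtain ⟨p1, q1, h1, h2, h3⟩ := Int.exists_gcd_one hg
      refine ⟨((Int.gcd p q : ℕ) : ℤ), p1, q1, by exact_mod_cast hg.ne', h1, ?_, ?_⟩
      · rw [mul_comm]; exact h2
      · rw [mul_comm]; exact h3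
    have hp10 : p1 ≠ 0 := by rintro rfl; exact hp (by rw [hp1, mul_zero])
    have hq10 : q1 ≠ 0 := by rintro rfl; exact hq (by rw [hq1, mul_zero])
    have hne : p1.natAbs ≠ q1.natAbs := by
      intro e; apply hpq; rw [hp1, hq1, Int.natAbs_mul, Int.natAbs_mul, e]
    obtain ⟨b, hb⟩ : ∃ b, b = a ^ d := ⟨_, rfl⟩
    have hbi : ∀ n : ℤ, n ≠ 0 → b ^ n ≠ 1 := by
      intro n hn
      rw [hb, ← zpow_mul]
      exact ha _ (mul_ne_zero hd hn)
    have h1 : t * b ^ p1 * t⁻¹ = b ^ q1 := by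
      rw [hb, ← zpow_mul, ← zpow_mul, ← hp1, ← hq1]; exact h
    have h2 : t ^ 2 * b ^ (p1 * p1) * (t ^ 2)⁻¹ = b ^ (q1 * q1) := by
      have e1 : t * b ^ (p1 * p1) * t⁻¹ = b ^ (q1 * p1) := by
        rw [zpow_mul, zpow_mul]; exact R1_conj_zpow h1 p1
      have e2 : t * b ^ (q1 * p1) * t⁻¹ = b ^ (q1 * q1) := by
        rw [mul_comm q1 p1, zpow_mul, zpow_mul]; exact R1_conj_zpow h1 q1
      have e3 : t ^ 2 * b ^ (p1 * p1) * (t ^ 2)⁻¹ = t * (t * b ^ (p1 * p1) * t⁻¹) * t⁻¹ := by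
        rw [pow_two, mul_inv_rev]; simp only [mul_assoc]
      rw [e3, e1, e2]
    have cp : (p1 * p1) = ((p1.natAbs ^ 2 : ℕ) : ℤ) := by
      push_cast; rw [sq_abs]; ring
    have cq : (q1 * q1) = ((q1.natAbs ^ 2 : ℕ) : ℤ) := by
      push_cast; rw [sq_abs]; ring
    rw [cp, cq, zpow_natCast, zpow_natCast] at h2
    have hP : 0 < p1.natAbs ^ 2 := pow_pos (Int.natAbs_pos.2 hp10) 2
    have hQ : 0 < q1.natAbs ^ 2 := pow_pos (Int.natAbs_pos.2 hq10) 2
    have hC : Nat.Coprime (p1.natAbs ^ 2) (q1.natAbs ^ 2) := Nat.Coprime.pow 2 2 hcop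
    rcases lt_or_gt_of_ne hne with hlt | hlt
    · exact ⟨b, t ^ 2, _, _, hbi, hP, Nat.pow_lt_pow_left hlt (by norm_num), hC, h2⟩
    · refine ⟨b, (t ^ 2)⁻¹, _, _, hbi, hQ, Nat.pow_lt_pow_left hlt (by norm_num), hC.symm, ?_⟩
      rw [← h2]; group

end Pool.Agent.LibBS2
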