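import Mathlib

/-!
MP_48737f_gt, Theorem C: Baumslag-Solitar groups.
-/

set_option autoImplicit false

namespace Pool.Agent.LibBS2

/-- the relator `t a^p t⁻¹ a^{-q}`, `a = of 0`, `t = of 1` -/
def bsRel (p q : ℤ) : Set (FreeGroup (Fin 2)) :=
  {FreeGroup.of 1 * FreeGroup.of 0 ^ p * (FreeGroup.of 1)⁻¹ * (FreeGroup.of 0 ^ q)⁻¹}

/-- the Baumslag-Solitar group `⟨a, t | t a^p t⁻¹ = a^q⟩` -/
abbrev BSgrp (p q : ℤ) : Type := PresentedGroup (bsRel p q)

theorem R2_rel (p q : ℤ) :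
    (PresentedGroup.of 1 : BSgrp p q) * PresentedGroup.of 0 ^ p * (PresentedGroup.of 1)⁻¹ =
      PresentedGroup.of 0 ^ q := by
  have h := PresentedGroup.one_of_mem (rels := bsRel p q)
    (x := FreeGroup.of 1 * FreeGroup.of 0 ^ p * (FreeGroup.of 1)⁻¹ * (FreeGroup.of 0 ^ q)⁻¹) rfl
  rw [map_mul, map_mul, map_mul, map_inv, map_inv, map_zpow, map_zpow] at h
  exact mul_inv_eq_one.1 h

theorem R2_zpow (n : ℤ) (x : ℚ) : ((Equiv.addRight (1:ℚ) : Equiv.Perm ℚ) ^ n) x = x + n := by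
  induction n using Int.induction_on generalizing x with
  | zero => simp
  | succ n ih =>
    rw [zpow_add_one, Equiv.Perm.mul_apply, Equiv.coe_addRight, ih]
    push_cast; ring
  | pred n ih =>
    rw [zpow_sub_one, Equiv.Perm.mul_apply, ih]
    have e : ((Equiv.addRight (1:ℚ) : Equiv.Perm ℚ)⁻¹) x = x - 1 := by
      rw [Equiv.Perm.inv_eq_iff_eq, Equiv.coe_addRight]; ring
    rw [e]; push_cast; ring

/-- the affine representation on `ℚ` -/
noncomputable def R2_aff (p q : ℤ) (hp : p ≠ 0) (hq : q ≠ 0) : BSgrp p q →* Equiv.Perm ℚ :=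
  PresentedGroup.toGroup
    (f := fun k : Fin 2 => if k = 0 then Equiv.addRight (1:ℚ) else
      Equiv.mulRight₀ ((q:ℚ) / p) (div_ne_zero (Int.cast_ne_zero.2 hq) (Int.cast_ne_zero.2 hp))) (by
    intro r hr
    rw [bsRel, Set.mem_singleton_iff] at hr
    subst hr
    have hp' : (p:ℚ) ≠ 0 := Int.cast_ne_zero.2 hp
    have hq' : (q:ℚ) ≠ 0 := Int.cast_ne_zero.2 hq
    rw [map_mul, map_mul, map_mul, map_inv, map_inv, map_zpow, map_zpow, FreeGroup.lift_apply_of,
      FreeGroup.lift_apply_of, if_pos rfl, if_neg (by decide), mul_inv_eq_one, mul_inv_eq_iff_eq_mul]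
    ext x
    rw [Equiv.Perm.mul_apply, Equiv.Perm.mul_apply, R2_zpow, R2_zpow]
    show (x + p) * ((q:ℚ) / p) = x * ((q:ℚ) / p) + q
    field_simp)

/-- the exponent of `t` -/
noncomputable def R2_exp (p q : ℤ) : BSgrp p q →* Multiplicative ℤ :=
  PresentedGroup.toGroup
    (f := fun k : Fin 2 => if k = 0 then 1 else Multiplicative.ofAdd 1) (by
    intro r hr
    rw [bsRel, Set.mem_singleton_iff] at hr
    subst hr
    rw [map_mul, map_mul, map_mul, map_inv, map_inv, map_zpow, map_zpow, FreeGroup.lift_apply_of,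
      FreeGroup.lift_apply_of, if_pos rfl, if_neg (by decide), one_zpow, one_zpow]
    simp)

theorem R2_order {p q : ℤ} (hp : p ≠ 0) (hq : q ≠ 0) (n : ℤ) (hn : n ≠ 0) :
    (PresentedGroup.of 0 : BSgrp p q) ^ n ≠ 1 := by
  intro h
  have h1 := congrArg (R2_aff p q hp hq) h
  rw [map_zpow, map_one] at h1
  have h2 : R2_aff p q hp hq (PresentedGroup.of 0) = Equiv.addRight (1:ℚ) := by
    unfold R2_aff
    rw [PresentedGroup.toGroup.of, if_pos rfl]
  rw [h2] at h1
  have h3 := congrArg (fun e : Equiv.Perm ℚ => e 0) h1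
  simp only [R2_zpow, Equiv.Perm.one_apply, zero_add] at h3
  exact hn (by exact_mod_cast h3)

theorem R2_indep {p q : ℤ} (i : ℤ) (hi : i ≠ 0) :
    (PresentedGroup.of 1 : BSgrp p q) ^ i ∉ Subgroup.zpowers (PresentedGroup.of 0 : BSgrp p q) := by
  intro h
  obtain ⟨j, hj⟩ := Subgroup.mem_zpowers_iff.1 h
  have h1 := congrArg (R2_exp p q) hj
  have h2 : R2_exp p q (PresentedGroup.of 0) = 1 := by
    unfold R2_exp
    rw [PresentedGroup.toGroup.of, if_pos rfl]
  have h3 : R2_exp p q (PresentedGroup.of 1) = Multiplicative.ofAdd 1 := by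
    unfold R2_exp
    rw [PresentedGroup.toGroup.of, if_neg (by decide)]
  rw [map_zpow, map_zpow, h2, h3, one_zpow, ← ofAdd_zsmul] at h1
  have h4 := congrArg Multiplicative.toAdd h1
  simp at h4
  exact hi h4.symm

/-- a group containing a Baumslag-Solitar group contains commensurating elements -/
theorem bs_elements {G : Type*} [Group G] {p q : ℤ} (hp : p ≠ 0) (hq : q ≠ 0)
    (f : BSgrp p q →* G) (hf : Function.Injective f) :
    ∃ a t : G, (∀ n : ℤ, n ≠ 0 → a ^ n ≠ 1) ∧ t * a ^ p * t⁻¹ = a ^ q ∧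
      ∀ i : ℤ, i ≠ 0 → t ^ i ∉ Subgroup.zpowers a := by
  refine ⟨f (PresentedGroup.of 0), f (PresentedGroup.of 1), ?_, ?_, ?_⟩
  · intro n hn h
    rw [← map_zpow, ← map_one f] at h
    exact R2_order hp hq n hn (hf h)
  · rw [← map_zpow, ← map_zpow, ← map_inv, ← map_mul, ← map_mul, R2_rel]
  · intro i hi h
    obtain ⟨j, hj⟩ := Subgroup.mem_zpowers_iff.1 h
    rw [← map_zpow, ← map_zpow] at hj
    exact R2_indep i hi (Subgroup.mem_zpowers_iff.2 ⟨j, hf hj⟩)

end Pool.Agent.LibBS2
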