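import Pool.Agent.LibBS2.R1

/-!
MP_48737f_gt, Theorem C: torsion-free solvable groups in which infinite cyclic subgroups are
commensurated only by dependent elements are locally cyclic.
-/

namespace Pool.Agent.LibBS2

open scoped commutatorElement

/-- an element of a torsion-free abelian normal subgroup is central, and all elements have a
power in it -/
theorem R3_central {H : Type*} [Group H] (tf : ∀ s : H, ∀ n : ℤ, n ≠ 0 → s ^ n = 1 → s = 1)
    (z2 : ∀ x y : H, Commute x y → ∃ i j : ℤ, (i ≠ 0 ∨ j ≠ 0) ∧ x ^ i * y ^ j = 1)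
    (hC : ∀ a t : H, a ≠ 1 → ∀ p q : ℤ, p ≠ 0 → q ≠ 0 → t * a ^ p * t⁻¹ = a ^ q →
      ∃ i : ℤ, i ≠ 0 ∧ t ^ i ∈ Subgroup.zpowers a)
    {b t : H} (hb : b ≠ 1) (hcomm : Commute b (t * b * t⁻¹)) :
    Commute t b ∧ ∃ m : ℤ, m ≠ 0 ∧ t ^ m ∈ Subgroup.zpowers b := by
  obtain ⟨i, j, hij, hrel⟩ := z2 b (t * b * t⁻¹) hcomm
  have hcne : t * b * t⁻¹ ≠ 1 := by
    intro h
    apply hb
    have h1 : t * b = t := by rw [← mul_inv_eq_one]; exact h
    exact mul_eq_left.1 h1
  have hj : j ≠ 0 := by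
    rintro rfl
    rw [zpow_zero, mul_one] at hrel
    exact hb (tf b i (hij.resolve_right (by simp)) hrel)
  have hi : i ≠ 0 := by
    rintro rfl
    rw [zpow_zero, one_mul] at hrel
    exact hcne (tf _ j hj hrel)
  have h1 : t * b ^ j * t⁻¹ = b ^ (-i) := by
    rw [← conj_zpow, zpow_neg]
    exact eq_inv_of_mul_eq_one_right hrel
  obtain ⟨m, hm, hmem⟩ := hC b t hb j (-i) hj (by omega) h1
  refine ⟨?_, m, hm, hmem⟩
  obtain ⟨k, hk⟩ := Subgroup.mem_zpowers_iff.1 hmem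
  by_cases hk0 : k = 0
  · subst hk0
    rw [zpow_zero] at hk
    rw [tf t m hm hk.symm]
    exact Commute.one_left b
  · have h2 : t * b ^ k * t⁻¹ = b ^ k := by
      rw [hk]
      have : Commute t (t ^ m) := (Commute.refl t).zpow_right m
      rw [this.eq, mul_inv_cancel_right]
    have h3 : (t * b * t⁻¹ * b⁻¹) ^ k = 1 := by
      rw [(hcomm.symm.inv_right).mul_zpow, conj_zpow, h2, inv_zpow, mul_inv_cancel]
    have h4 := tf _ k hk0 h3
    rw [mul_inv_eq_one, mul_inv_eq_iff_eq_mul] at h4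
    exact h4

theorem R3_core {H : Type*} [Group H] (hS : Group.IsSolvable H)
    (tf : ∀ s : H, ∀ n : ℤ, n ≠ 0 → s ^ n = 1 → s = 1)
    (z2 : ∀ x y : H, Commute x y → ∃ i j : ℤ, (i ≠ 0 ∨ j ≠ 0) ∧ x ^ i * y ^ j = 1)
    (hC : ∀ a t : H, a ≠ 1 → ∀ p q : ℤ, p ≠ 0 → q ≠ 0 → t * a ^ p * t⁻¹ = a ^ q →
      ∃ i : ℤ, i ≠ 0 ∧ t ^ i ∈ Subgroup.zpowers a) (x y : H) : Commute x y := by
  have key : ∀ n : ℕ, derivedSeries H (n + 1) = ⊥ → derivedSeries H 1 = ⊥ := by
    intro n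
    induction n with
    | zero => exact fun h => h
    | succ n ih =>
      intro h
      apply ih
      by_contra hne
      obtain ⟨b, hbB, hb1⟩ : ∃ b ∈ derivedSeries H (n + 1), b ≠ 1 := by
        by_contra hcon
        push Not at hcon
        exact hne ((Subgroup.eq_bot_iff_forall _).2 hcon)
      have hnorm : (derivedSeries H (n + 1)).Normal := inferInstance
      have habel : ∀ u ∈ derivedSeries H (n + 1), ∀ v ∈ derivedSeries H (n + 1), Commute u v := by
        intro u hu v hv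
        have h1 : ⁅u, v⁆ ∈ derivedSeries H (n + 1 + 1) := by
          rw [derivedSeries_succ]
          exact Subgroup.commutator_mem_commutator hu hv
        rw [h, Subgroup.mem_bot, commutatorElement_eq_one_iff_commute] at h1
        exact h1
      have hcen : ∀ u ∈ derivedSeries H (n + 1), ∀ t : H, Commute t u := by
        intro u hu t
        by_cases hu1 : u = 1
        · rw [hu1]; exact Commute.one_right t
        · exact (R3_central tf z2 hC hu1 (habel u hu _ (hnorm.conj_mem u hu t))).1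
      have hpow : ∀ t : H, ∃ m : ℤ, m ≠ 0 ∧ ∀ s : H, Commute s (t ^ m) := by
        intro t
        obtain ⟨-, m, hm, hmem⟩ := R3_central tf z2 hC hb1 (habel b hbB _ (hnorm.conj_mem b hbB t))
        refine ⟨m, hm, fun s => ?_⟩
        obtain ⟨k, hk⟩ := Subgroup.mem_zpowers_iff.1 hmem
        rw [← hk]
        exact (hcen b hbB s).zpow_right k
      apply hne
      rw [derivedSeries_succ, Subgroup.commutator_eq_bot_iff_le_centralizer]
      intro u hu
      rw [Subgroup.mem_centralizer_iff]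
      intro v hv
      -- `z = ⁅u, v⁆` is central
      have hz : ⁅u, v⁆ ∈ derivedSeries H (n + 1) := by
        rw [derivedSeries_succ]
        exact Subgroup.commutator_mem_commutator hu hv
      obtain ⟨i, hi, hcomm⟩ := hpow u
      have e1 : v * u * v⁻¹ = ⁅u, v⁆⁻¹ * u := by
        rw [commutatorElement_def]; group
      have e2 : v * u ^ i * v⁻¹ = (⁅u, v⁆ ^ i)⁻¹ * u ^ i := by
        rw [← conj_zpow, e1, (hcen _ hz u).symm.inv_left.mul_zpow, inv_zpow]
      rw [(hcomm v).eq, mul_inv_cancel_right] at e2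
      have e3 : ⁅u, v⁆ ^ i = 1 := by
        have := mul_eq_right.1 e2.symm
        exact inv_eq_one.1 this
      have e4 := tf _ i hi e3
      rw [commutatorElement_eq_one_iff_commute] at e4
      exact e4.symm.eq
  obtain ⟨n, hn⟩ := (Group.isSolvable_def H).1 hS
  have h1 : derivedSeries H 1 = ⊥ := by
    apply key n
    exact le_antisymm (hn ▸ derivedSeries_antitone H (Nat.le_succ n)) bot_le
  have h2 : ⁅x, y⁆ ∈ derivedSeries H 1 := by
    rw [derivedSeries_one]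
    exact Subgroup.commutator_mem_commutator (Subgroup.mem_top x) (Subgroup.mem_top y)
  rw [h1, Subgroup.mem_bot, commutatorElement_eq_one_iff_commute] at h2
  exact h2

/-- two commuting dependent elements of a torsion-free group lie in a cyclic group -/
theorem R3_cyclic {H : Type*} [Group H] (tf : ∀ s : H, ∀ n : ℤ, n ≠ 0 → s ^ n = 1 → s = 1)
    {x y : H} (hc : Commute x y) {i j : ℤ} (hij : i ≠ 0 ∨ j ≠ 0) (h : x ^ i * y ^ j = 1) :
    ∃ z : H, x ∈ Subgroup.zpowers z ∧ y ∈ Subgroup.zpowers z := by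
  have hg : 0 < Int.gcd i j := by
    rcases hij with h1 | h1
    · exact Int.gcd_pos_of_ne_zero_left _ h1
    · exact Int.gcd_pos_of_ne_zero_right _ h1
  obtain ⟨i1, j1, hcop, hi, hj⟩ := Int.exists_gcd_one hg
  have h1 : x ^ i1 * y ^ j1 = 1 := by
    apply tf _ ((Int.gcd i j : ℕ) : ℤ) (by exact_mod_cast hg.ne')
    rw [(hc.zpow_zpow i1 j1).mul_zpow, ← zpow_mul, ← zpow_mul, ← hi, ← hj]
    exact h
  have hxy : x ^ i1 = y ^ (-j1) := by
    rw [zpow_neg]; exact eq_inv_of_mul_eq_one_left h1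
  obtain ⟨u, v, huv⟩ : ∃ u v : ℤ, i1 * u + j1 * v = 1 :=
    ⟨Int.gcdA i1 j1, Int.gcdB i1 j1, by rw [← Int.gcd_eq_gcd_ab, hcop]; rfl⟩
  refine ⟨x ^ v * y ^ (-u), ?_, ?_⟩
  · refine Subgroup.mem_zpowers_iff.2 ⟨j1, ?_⟩
    rw [(hc.zpow_zpow v (-u)).mul_zpow, ← zpow_mul, ← zpow_mul]
    have e1 : y ^ (-u * j1) = x ^ (i1 * u) := by
      rw [zpow_mul x, hxy, ← zpow_mul]; congr 1; ring
    rw [e1, ← zpow_add]
    have e2 : v * j1 + i1 * u = 1 := by linarith
    rw [e2, zpow_one]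
  · refine Subgroup.mem_zpowers_iff.2 ⟨-i1, ?_⟩
    rw [(hc.zpow_zpow v (-u)).mul_zpow, ← zpow_mul, ← zpow_mul]
    have e1 : x ^ (v * -i1) = y ^ (j1 * v) := by
      have : v * -i1 = i1 * (-v) := by ring
      rw [this, zpow_mul x, hxy, ← zpow_mul]; congr 1; ring
    rw [e1, ← zpow_add]
    have e2 : j1 * v + -u * -i1 = 1 := by linarith
    rw [e2, zpow_one]

theorem solvable_locally_cyclic {G : Type*} [Group G]
    (hZ2 : ¬ ∃ f : Multiplicative (Fin 2 → ℤ) →* G, Function.Injective f)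
    (hC : ∀ a t : G, (∀ n : ℤ, n ≠ 0 → a ^ n ≠ 1) → ∀ p q : ℤ, p ≠ 0 → q ≠ 0 →
      t * a ^ p * t⁻¹ = a ^ q → ∃ i : ℤ, i ≠ 0 ∧ t ^ i ∈ Subgroup.zpowers a)
    (S : Subgroup G) [Group.IsSolvable S] (htf : ∀ s ∈ S, ∀ n : ℤ, n ≠ 0 → s ^ n = 1 → s = 1) :
    ∀ x ∈ S, ∀ y ∈ S, ∃ z ∈ S, x ∈ Subgroup.zpowers z ∧ y ∈ Subgroup.zpowers z := by
  have tf : ∀ s : S, ∀ n : ℤ, n ≠ 0 → s ^ n = 1 → s = 1 := by
    intro s n hn h
    apply Subtype.ext
    apply htf s s.2 n hn
    have := congrArg (Subtype.val : S → G) h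
    simpa using this
  have z2 : ∀ x y : S, Commute x y → ∃ i j : ℤ, (i ≠ 0 ∨ j ≠ 0) ∧ x ^ i * y ^ j = 1 := by
    intro x y hc
    by_contra hcon
    push Not at hcon
    apply hZ2
    refine R1_zsq (x := (x : G)) (y := (y : G)) ?_ ?_
    · have := congrArg (Subtype.val : S → G) hc.eq
      exact this
    · intro i j hij
      by_contra hne
      have h1 : i ≠ 0 ∨ j ≠ 0 := by
        by_contra h2
        push Not at h2
        exact hne h2
      refine hcon i j h1 (Subtype.ext ?_)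
      simpa using hij
  have hC' : ∀ a t : S, a ≠ 1 → ∀ p q : ℤ, p ≠ 0 → q ≠ 0 → t * a ^ p * t⁻¹ = a ^ q →
      ∃ i : ℤ, i ≠ 0 ∧ t ^ i ∈ Subgroup.zpowers a := by
    intro a t ha p q hp hq h
    obtain ⟨i, hi, hmem⟩ := hC (a : G) (t : G) (fun n hn h1 => ha (tf a n hn (Subtype.ext (by
      simpa using h1)))) p q hp hq (by
        have := congrArg (Subtype.val : S → G) h
        simpa using this)
    refine ⟨i, hi, ?_⟩
    obtain ⟨k, hk⟩ := Subgroup.mem_zpowers_iff.1 hmem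
    exact Subgroup.mem_zpowers_iff.2 ⟨k, Subtype.ext (by simpa using hk)⟩
  intro x hx y hy
  have hc := R3_core (H := S) inferInstance tf z2 hC' ⟨x, hx⟩ ⟨y, hy⟩
  obtain ⟨i, j, hij, h⟩ := z2 _ _ hc
  obtain ⟨z, h1, h2⟩ := R3_cyclic tf hc hij h
  refine ⟨z, z.2, ?_, ?_⟩
  · obtain ⟨k, hk⟩ := Subgroup.mem_zpowers_iff.1 h1
    exact Subgroup.mem_zpowers_iff.2 ⟨k, by simpa using congrArg (Subtype.val : S → G) hk⟩
  · obtain ⟨k, hk⟩ := Subgroup.mem_zpowers_iff.1 h2
    exact Subgroup.mem_zpowers_iff.2 ⟨k, by simpa using congrArg (Subtype.val : S → G) hk⟩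

end Pool.Agent.LibBS2
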