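import Pool.Agent.LibBS2.FinC
import Pool.Agent.LibBS2.R1
import Pool.Agent.LibBS2.R2
import Pool.Agent.LibBS2.R3

/-!
Theorem C.
-/

set_option autoImplicit false

namespace Pool.Agent.LibBS2

open Pool.Agent.LibZIS Pool.Agent.LibCod83 CategoryTheory

universe v

variable {G : Type} [Group G] {E : Type v} [TopologicalSpace E] [PathConnectedSpace E]
  [MulAction G E] [ContinuousConstSMul G E]

theorem main_C (hfree : ∀ (g : G) (e : E), g • e = e → g = 1) (hE : H1Zero E)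
    (hG : IsPD G 4) (a t : G) (ha : ∀ n : ℤ, n ≠ 0 → a ^ n ≠ 1) (p q : ℤ) (hp : p ≠ 0)
    (hq : q ≠ 0) (h : t * a ^ p * t⁻¹ = a ^ q)
    (hor : p.natAbs ≠ q.natAbs ∨ ∀ i : ℤ, i ≠ 0 → t ^ i ∉ Subgroup.zpowers a) :
    ∃ i, i ≤ 2 ∧ Nontrivial (Hgy (lam G) E i) := by
  rcases reduction a t ha p q hp hq h hor with ⟨f, hf⟩ | ⟨a', t', p', q', ha', hp', hpq', hc, h'⟩
  · exact main_torus hfree hE 2 hG f hf
  · exact main_coprime hfree hE hG a' t' ha' p' q' hp' hpq' hc h'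

theorem main_BS (hfree : ∀ (g : G) (e : E), g • e = e → g = 1) (hE : H1Zero E)
    (hG : IsPD G 4) (p q : ℤ) (hp : p ≠ 0) (hq : q ≠ 0) (f : BSgrp p q →* G)
    (hf : Function.Injective f) : ∃ i, i ≤ 2 ∧ Nontrivial (Hgy (lam G) E i) := by
  obtain ⟨a, t, h1, h2, h3⟩ := bs_elements hp hq f hf
  exact main_C hfree hE hG a t h1 p q hp hq h2 (Or.inr h3)

/-- a torsion-free solvable subgroup which is not locally cyclic. -/
theorem main_solvable (hfree : ∀ (g : G) (e : E), g • e = e → g = 1) (hE : H1Zero E)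
    (hG : IsPD G 4) (S : Subgroup G) (hS : Group.IsSolvable S)
    (htf : ∀ s ∈ S, ∀ n : ℤ, n ≠ 0 → s ^ n = 1 → s = 1)
    (hn : ¬ ∀ x ∈ S, ∀ y ∈ S, ∃ z ∈ S, x ∈ Subgroup.zpowers z ∧ y ∈ Subgroup.zpowers z) :
    ∃ i, i ≤ 2 ∧ Nontrivial (Hgy (lam G) E i) := by
  by_contra hcon
  refine hn (solvable_locally_cyclic (fun ⟨f, hf⟩ => hcon (main_torus hfree hE 2 hG f hf))
    (fun a t ha p q hp hq h => ?_) S htf)
  by_contra hi
  push Not at hi
  exact hcon (main_C hfree hE hG a t ha p q hp hq h (Or.inr hi))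

end Pool.Agent.LibBS2
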