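import Pool.Agent.LibBS2.NMod

/-!
Square integrable real functions on `X × Ω` and elements of `L²(X × Ω)`.
-/

set_option autoImplicit false

namespace Pool.Agent.LibBS2

open MeasureTheory
open scoped ENNReal

variable {X Ω : Type} [MeasurableSpace Ω] {μ : Measure Ω}

private theorem K1_sq_iff (c : X → ℝ) : Sq c ↔ ∑' x, ‖c x‖ₑ ^ 2 ≠ ∞ := by
  have h1 : (fun x => ‖c x‖ₑ ^ 2) = fun x => (((‖c x‖₊ ^ 2 : NNReal)) : ℝ≥0∞) := by
    funext x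
    rw [enorm_eq_nnnorm, ENNReal.coe_pow]
  rw [h1, ENNReal.tsum_coe_ne_top_iff_summable, ← NNReal.summable_coe, Sq]
  have h2 : (fun x => |c x| ^ 2) = fun x => ((‖c x‖₊ ^ 2 : NNReal) : ℝ) := by
    funext x
    simp
  rw [h2]

/-- the square of the norm in `L²` -/
private theorem K1_pow_eLpNorm (f : Ω → ℂ) : eLpNorm f 2 μ ^ 2 = ∫⁻ z, ‖f z‖ₑ ^ 2 ∂μ := by
  have h := eLpNorm_nnreal_pow_eq_lintegral (f := f) (μ := μ) (p := 2) (by norm_num)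
  have h2 : ((2 : NNReal) : ℝ) = ((2 : ℕ) : ℝ) := by norm_num
  simp only [h2, ENNReal.rpow_natCast] at h
  exact h

private theorem K1_enorm_sq_Lp (f : Lp ℂ 2 μ) : ‖f‖ₑ ^ 2 = ∫⁻ z, ‖f z‖ₑ ^ 2 ∂μ := by
  rw [Lp.enorm_def]
  exact K1_pow_eLpNorm _

private theorem K1_memlp_iff {E : Type} [NormedAddCommGroup E] (f : X → E) :
    (Summable fun x => ‖f x‖ ^ 2) ↔ ∑' x, ‖f x‖ₑ ^ 2 ≠ ∞ := by
  have h := K1_sq_iff (fun x => ‖f x‖)
  have h1 : (∑' x, ‖(‖f x‖ : ℝ)‖ₑ ^ 2) = ∑' x, ‖f x‖ₑ ^ 2 := by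
    simp only [enorm_norm]
  rw [h1] at h
  rw [← h]
  unfold Sq
  simp only [abs_norm]

private theorem K1_enorm_ofReal (r : ℝ) : ‖(r : ℂ)‖ₑ = ‖r‖ₑ := by
  rw [← ofReal_norm_eq_enorm, ← ofReal_norm_eq_enorm, Complex.norm_real]

lemma SqE.memLp {f : X → Ω → ℝ} (hf : SqE μ f) (x : X) : MemLp (fun ω => (f x ω : ℂ)) 2 μ := by
  have hmeas : Measurable fun ω => (f x ω : ℂ) := Complex.measurable_ofReal.comp (hf.1 x)
  refine ⟨hmeas.aestronglyMeasurable, ?_⟩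
  have hfin : ∫⁻ ω, ‖f x ω‖ₑ ^ 2 ∂μ ≠ ∞ := ENNReal.ne_top_of_tsum_ne_top hf.2 x
  have h := K1_pow_eLpNorm (μ := μ) (fun ω => (f x ω : ℂ))
  simp only [K1_enorm_ofReal] at h
  rw [lt_top_iff_ne_top]
  intro h0
  rw [h0] at h
  apply hfin
  rw [← h]
  simp

lemma SqE.summable {f : X → Ω → ℝ} (hf : SqE μ f) :
    Summable fun x => ‖((hf.memLp x).toLp _ : Lp ℂ 2 μ)‖ ^ 2 := by
  rw [K1_memlp_iff]
  have h : ∀ x, ‖((hf.memLp x).toLp _ : Lp ℂ 2 μ)‖ₑ ^ 2 = ∫⁻ ω, ‖f x ω‖ₑ ^ 2 ∂μ := by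
    intro x
    rw [Lp.enorm_def, eLpNorm_congr_ae (MemLp.coeFn_toLp (hf.memLp x)), K1_pow_eLpNorm]
    simp only [K1_enorm_ofReal]
  simp only [h]
  exact hf.2

/-- the element of `L²(X × Ω)`. -/
noncomputable def SqE.toLX {f : X → Ω → ℝ} (hf : SqE μ f) : LX X Ω μ :=
  lpMk (fun x => (hf.memLp x).toLp _) hf.summable

lemma SqE.toLX_ae {f : X → Ω → ℝ} (hf : SqE μ f) (x : X) :
    (hf.toLX x : Ω → ℂ) =ᵐ[μ] fun ω => (f x ω : ℂ) := MemLp.coeFn_toLp (hf.memLp x)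

/-- a measurable version of the real part. -/
theorem exists_re (c : LX X Ω μ) :
    ∃ f : X → Ω → ℝ, SqE μ f ∧ ∀ x, ∀ᵐ ω ∂μ, f x ω = ((c x : Ω → ℂ) ω).re := by
  refine ⟨fun x ω => ((c x : Ω → ℂ) ω).re, ⟨fun x => ?_, ?_⟩, fun x => Filter.Eventually.of_forall fun ω => rfl⟩
  · exact Complex.measurable_re.comp (Lp.stronglyMeasurable (c x)).measurable
  · have h1 := (K1_memlp_iff (fun x => c x)).1 (lp_summable c)
    refine ne_top_of_le_ne_top h1 (ENNReal.tsum_le_tsum fun x => ?_)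
    rw [K1_enorm_sq_Lp]
    refine lintegral_mono fun ω => ?_
    refine pow_le_pow_left' ?_ 2
    rw [← ofReal_norm_eq_enorm, ← ofReal_norm_eq_enorm]
    exact ENNReal.ofReal_le_ofReal (Complex.abs_re_le_norm _)

end Pool.Agent.LibBS2
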