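import Pool.Agent.LibBS2.Op

/-!
The module `N` of the integer valued square summable functions on a measured extension of a
`G`-set `X`, the map `ℤ[X] → N` and the quotient.
-/

set_option autoImplicit false

namespace Pool.Agent.LibBS2

open MeasureTheory CategoryTheory Representation
open scoped ENNReal

/-- the square summable functions on `X × Ω`. -/
noncomputable abbrev LX (X Ω : Type) [MeasurableSpace Ω] (μ : Measure Ω) : Type :=
  lp (fun _ : X => Lp ℂ 2 μ) 2

/-- the integer valued square summable functions on `X × Ω`. -/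
noncomputable def NN (X Ω : Type) [MeasurableSpace Ω] (μ : Measure Ω) :
    Submodule ℤ (LX X Ω μ) where
  carrier := {f | ∀ x, ∀ᵐ ω ∂μ, ∃ n : ℤ, (f x : Ω → ℂ) ω = n}
  zero_mem' := fun x => by
    filter_upwards [Lp.coeFn_zero ℂ 2 μ] with ω h
    refine ⟨0, ?_⟩
    show ((0 : Lp ℂ 2 μ) : Ω → ℂ) ω = _
    rw [h]
    simp
  add_mem' := fun {f f'} hf hf' x => by
    filter_upwards [Lp.coeFn_add (f x) (f' x), hf x, hf' x] with ω h ⟨n, hn⟩ ⟨n', hn'⟩
    refine ⟨n + n', ?_⟩
    show ((f x + f' x : Lp ℂ 2 μ) : Ω → ℂ) ω = _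
    rw [h, Pi.add_apply, hn, hn']
    push_cast
    rfl
  smul_mem' := fun k f hf x => by
    have h0 : ((k • f) x : Lp ℂ 2 μ) = (k : ℂ) • f x := by
      have h1 : k • f = (k : ℂ) • f := by
        rw [Int.cast_smul_eq_zsmul]
      rw [h1]
      rfl
    rw [h0]
    filter_upwards [Lp.coeFn_smul (k : ℂ) (f x), hf x] with ω h ⟨n, hn⟩
    refine ⟨k * n, ?_⟩
    rw [h, Pi.smul_apply, hn, smul_eq_mul]
    push_cast
    rfl

variable {G X Ω : Type} [Group G] [MulAction G X] [MeasurableSpace Ω] {μ : Measure Ω}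

lemma mem_NN (f : LX X Ω μ) :
    f ∈ NN X Ω μ ↔ ∀ x, ∀ᵐ ω ∂μ, ∃ n : ℤ, (f x : Ω → ℂ) ω = n := Iff.rfl

namespace Ext

variable (E : Ext G X Ω μ)

lemma op_mem (g : G) {f : LX X Ω μ} (hf : f ∈ NN X Ω μ) : E.coc.op g f ∈ NN X Ω μ := by
  intro x
  have h1 := E.coc_apply g x (f (g⁻¹ • x))
  have h2 := (E.mp g⁻¹ x).quasiMeasurePreserving.ae (hf (g⁻¹ • x))
  filter_upwards [h1, h2] with ω h1 ⟨n, hn⟩
  refine ⟨n, ?_⟩
  rw [VCoc.op_apply, h1, hn]

/-- the action on `N`. -/
noncomputable def repN : Representation ℤ G (NN X Ω μ) where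
  toFun g := ((E.coc.op g).toLinearMap.restrictScalars ℤ).restrict fun _ hf => E.op_mem g hf
  map_one' := by
    ext f : 1
    exact Subtype.ext (E.coc.op_one f.1)
  map_mul' g h := by
    ext f : 1
    exact Subtype.ext (E.coc.op_mul g h f.1)

lemma repN_apply (g : G) (f : NN X Ω μ) : (E.repN g f : LX X Ω μ) = E.coc.op g f := rfl

/-- `N` as a `ℤG`-module. -/
noncomputable def NRep : Rep.{0} ℤ G := Rep.of E.repN

end Ext

/-! ### the constant functions on the fibres -/

/-- the constant function one. -/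
noncomputable def one1 (μ : Measure Ω) [IsFiniteMeasure μ] : Lp ℂ 2 μ := Lp.const 2 μ (1 : ℂ)

lemma one1_ae [IsFiniteMeasure μ] : (one1 μ : Ω → ℂ) =ᵐ[μ] fun _ => 1 := Lp.coeFn_const 2 μ (1 : ℂ)

/-- the map `ℤ[X] → L²(X × Ω)`. -/
noncomputable def iotaL (X : Type) {Ω : Type} [MeasurableSpace Ω] (μ : Measure Ω)
    [IsFiniteMeasure μ] : MonoidAlgebra ℤ X →ₗ[ℤ] LX X Ω μ := by
  classical
  exact (Finsupp.linearCombination ℤ fun x : X => (lp.single 2 x (one1 μ) : LX X Ω μ)) ∘ₗ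
    (MonoidAlgebra.coeffLinearEquiv ℤ).toLinearMap

lemma iotaL_apply [IsFiniteMeasure μ] (p : MonoidAlgebra ℤ X) (x : X) :
    iotaL X μ p x = ((p.coeff x : ℤ) : ℂ) • one1 μ := by
  classical
  induction p using MonoidAlgebra.induction_linear with
  | zero => 
    rw [map_zero]
    simp
  | add p q hp hq =>
    rw [map_add, lp.coeFn_add, Pi.add_apply, hp, hq, MonoidAlgebra.coeff_add, Finsupp.add_apply,
      Int.cast_add, add_smul]
  | single y n =>
    have h1 : iotaL X μ (MonoidAlgebra.single y n) =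
        n • (lp.single 2 y (one1 μ) : LX X Ω μ) := by
      show Finsupp.linearCombination ℤ _ (Finsupp.single y n) = _
      rw [Finsupp.linearCombination_single]
    rw [h1, ← Int.cast_smul_eq_zsmul ℂ]
    show (n : ℂ) • (lp.single 2 y (one1 μ) : LX X Ω μ) x = _
    rw [MonoidAlgebra.coeff_single, Finsupp.single_apply]
    by_cases h : y = x
    · subst h
      rw [lp.single_apply_self, if_pos rfl]
    · rw [lp.single_apply_ne _ _ _ (Ne.symm h), if_neg h]
      simp

lemma iotaL_mem [IsFiniteMeasure μ] (p : MonoidAlgebra ℤ X) : iotaL X μ p ∈ NN X Ω μ := by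
  intro x
  rw [iotaL_apply]
  filter_upwards [Lp.coeFn_smul ((p.coeff x : ℤ) : ℂ) (one1 μ), one1_ae (μ := μ)] with ω h1 h2
  refine ⟨p.coeff x, ?_⟩
  rw [h1, Pi.smul_apply, h2, smul_eq_mul, mul_one]

/-- the map `ℤ[X] → N`. -/
noncomputable def iotaN (X : Type) {Ω : Type} [MeasurableSpace Ω] (μ : Measure Ω)
    [IsFiniteMeasure μ] : MonoidAlgebra ℤ X →ₗ[ℤ] NN X Ω μ :=
  (iotaL X μ).codRestrict (NN X Ω μ) iotaL_mem

lemma iotaN_apply [IsFiniteMeasure μ] (p : MonoidAlgebra ℤ X) :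
    ((iotaN X μ p : NN X Ω μ) : LX X Ω μ) = iotaL X μ p := rfl

namespace Ext

variable [IsFiniteMeasure μ] (E : Ext G X Ω μ)

lemma U_one1 (g : G) (x : X) : E.coc.U g x (one1 μ) = one1 μ := by
  apply Lp.ext
  have h2 := (E.mp g⁻¹ x).quasiMeasurePreserving.ae (one1_ae (μ := μ))
  filter_upwards [E.coc_apply g x (one1 μ), one1_ae (μ := μ), h2] with ω h1 h2 h3
  rw [h1, h2, h3]

lemma iotaL_op (g : G) (p : MonoidAlgebra ℤ X) :
    E.coc.op g (iotaL X μ p) = iotaL X μ (Representation.ofMulAction ℤ G X g p) := by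
  ext x : 2
  rw [VCoc.op_apply, iotaL_apply, iotaL_apply, map_smul, U_one1]
  rw [Representation.coeff_ofMulAction]

lemma iotaN_comm (g : G) (p : MonoidAlgebra ℤ X) :
    iotaN X μ (Representation.ofMulAction ℤ G X g p) = E.repN g (iotaN X μ p) :=
  Subtype.ext (E.iotaL_op g p).symm

/-- the map `ℤ[X] → N` as a morphism. -/
noncomputable def iota : Rep.ofMulAction ℤ G X ⟶ E.NRep :=
  Rep.ofHom ⟨iotaN X μ, fun g => LinearMap.ext fun p => E.iotaN_comm g p⟩

lemma iota_apply (p : MonoidAlgebra ℤ X) : (E.iota.hom p : NN X Ω μ) = iotaN X μ p := rfl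

lemma range_le (g : G) : LinearMap.range (iotaN X μ) ≤ (LinearMap.range (iotaN X μ)).comap (E.repN g) := by
  rintro _ ⟨p, rfl⟩
  exact ⟨Representation.ofMulAction ℤ G X g p, E.iotaN_comm g p⟩

/-- the quotient `N / ℤ[X]`. -/
noncomputable def QRep : Rep.{0} ℤ G :=
  Rep.of (E.repN.quotient (LinearMap.range (iotaN X μ)) E.range_le)

/-- the projection. -/
noncomputable def prQ : E.NRep ⟶ E.QRep :=
  Rep.ofHom ⟨(LinearMap.range (iotaN X μ)).mkQ, fun _ => rfl⟩

end Ext

lemma iotaL_injective [IsProbabilityMeasure μ] : Function.Injective (iotaL X μ) := by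
  rw [injective_iff_map_eq_zero]
  intro p hp
  have hne : one1 μ ≠ 0 := by
    intro h
    have h1 := one1_ae (μ := μ)
    rw [h] at h1
    have h2 : ∀ᵐ _ω ∂μ, False := by
      filter_upwards [h1, Lp.coeFn_zero ℂ 2 μ] with ω h1 h2
      rw [h2] at h1
      exact zero_ne_one h1
    rw [Filter.eventually_false_iff_eq_bot, ae_eq_bot] at h2
    exact IsProbabilityMeasure.ne_zero μ h2
  ext x
  have h := congrArg (fun f : LX X Ω μ => f x) hp
  simp only [iotaL_apply] at h
  have h3 : ((p.coeff x : ℤ) : ℂ) • one1 μ = 0 := h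
  rw [smul_eq_zero] at h3
  rcases h3 with h3 | h3
  · exact Int.cast_eq_zero.1 h3
  · exact absurd h3 hne

end Pool.Agent.LibBS2
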