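import Pool.Agent.LibBS2.CDefs

/-!
The operators of a vector valued twisted monomial
representation.
-/

set_option autoImplicit false

namespace Pool.Agent.LibBS2

open MeasureTheory
open scoped ENNReal

section op

variable {G X K : Type} [Group G] [MulAction G X] [NormedAddCommGroup K]
  [InnerProductSpace ℂ K]

omit [InnerProductSpace ℂ K] in
lemma lp_norm_sq (f : lp (fun _ : X => K) 2) : ‖f‖ ^ 2 = ∑' x, ‖f x‖ ^ 2 := by
  have h := lp.norm_rpow_eq_tsum (p := 2) (by norm_num) f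
  simpa using h

omit [InnerProductSpace ℂ K] in
lemma lp_summable (f : lp (fun _ : X => K) 2) : Summable fun x => ‖f x‖ ^ 2 := by
  have h := (lp.memℓp f).summable (p := 2) (by norm_num)
  simpa using h

/-- a square summable function. -/
def lpMk (f : X → K) (hf : Summable fun x => ‖f x‖ ^ 2) : lp (fun _ : X => K) 2 :=
  ⟨f, memℓp_gen (by simpa using hf)⟩

omit [InnerProductSpace ℂ K] in
lemma lpMk_apply (f : X → K) (hf : Summable fun x => ‖f x‖ ^ 2) (x : X) : lpMk f hf x = f x :=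
  rfl

namespace VCoc

variable (C : VCoc G X K)

lemma op_summable (g : G) (f : lp (fun _ : X => K) 2) :
    Summable fun x => ‖C.U g x (f (g⁻¹ • x))‖ ^ 2 := by
  simp only [LinearIsometry.norm_map]
  exact ((MulAction.toPerm (α := G) (β := X) g⁻¹).summable_iff (f := fun x => ‖f x‖ ^ 2)).2
    (lp_summable f)

/-- the operators of the representation: `(op g f) x = U g x (f (g⁻¹ x))`. -/
noncomputable def op (g : G) : lp (fun _ : X => K) 2 →ₗᵢ[ℂ] lp (fun _ : X => K) 2 where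
  toFun f := lpMk (fun x => C.U g x (f (g⁻¹ • x))) (C.op_summable g f)
  map_add' f f' := by
    ext x
    show C.U g x (f (g⁻¹ • x) + f' (g⁻¹ • x)) = _
    rw [map_add]
    rfl
  map_smul' c f := by
    ext x
    show C.U g x (c • f (g⁻¹ • x)) = _
    rw [map_smul]
    rfl
  norm_map' f := by
    have h : ‖lpMk (fun x => C.U g x (f (g⁻¹ • x))) (C.op_summable g f)‖ ^ 2 = ‖f‖ ^ 2 := by
      rw [lp_norm_sq, lp_norm_sq]
      simp only [lpMk_apply, LinearIsometry.norm_map]
      exact (MulAction.toPerm (α := G) (β := X) g⁻¹).tsum_eq (fun x => ‖f x‖ ^ 2)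
    exact (sq_eq_sq₀ (norm_nonneg _) (norm_nonneg _)).1 h

lemma op_apply (g : G) (f : lp (fun _ : X => K) 2) (x : X) :
    C.op g f x = C.U g x (f (g⁻¹ • x)) := rfl

lemma op_one (f : lp (fun _ : X => K) 2) : C.op 1 f = f := by
  ext x
  rw [op_apply, C.one, inv_one, one_smul]

lemma op_mul (g h : G) (f : lp (fun _ : X => K) 2) : C.op (g * h) f = C.op g (C.op h f) := by
  ext x
  rw [op_apply, op_apply, op_apply, C.mul, mul_inv_rev, mul_smul]

end VCoc

end op

namespace Ext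

variable {G X Ω : Type} [Group G] [MulAction G X] [MeasurableSpace Ω] {μ : Measure Ω}
  (E : Ext G X Ω μ)

lemma act_cancel (g : G) (x : X) (ω : Ω) : E.act g (g⁻¹ • x) (E.act g⁻¹ x ω) = ω := by
  rw [← E.mul, mul_inv_cancel, E.one]

/-- the trivial cocycle: `(g f) (x, ω) = f (g⁻¹ (x, ω))`. -/
noncomputable def coc : VCoc G X (Lp ℂ 2 μ) where
  U g x := Lp.compMeasurePreservingₗᵢ ℂ (E.act g⁻¹ x) (E.mp g⁻¹ x)
  one x v := by
    apply Lp.ext
    have h1 := Lp.coeFn_compMeasurePreserving v (E.mp (1 : G)⁻¹ x)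
    refine h1.trans (Filter.Eventually.of_forall fun ω => ?_)
    show v (E.act (1 : G)⁻¹ x ω) = v ω
    rw [inv_one, E.one]
  mul g h x v := by
    apply Lp.ext
    have h1 := Lp.coeFn_compMeasurePreserving v (E.mp (g * h)⁻¹ x)
    have h2 := Lp.coeFn_compMeasurePreserving
      (Lp.compMeasurePreserving (E.act h⁻¹ (g⁻¹ • x)) (E.mp h⁻¹ (g⁻¹ • x)) v) (E.mp g⁻¹ x)
    have h3 := (E.mp g⁻¹ x).quasiMeasurePreserving.ae_eq_comp
      (Lp.coeFn_compMeasurePreserving v (E.mp h⁻¹ (g⁻¹ • x)))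
    refine h1.trans (Filter.EventuallyEq.trans ?_ (h2.trans h3).symm)
    refine Filter.Eventually.of_forall fun ω => ?_
    show v (E.act (g * h)⁻¹ x ω) = v (E.act h⁻¹ (g⁻¹ • x) (E.act g⁻¹ x ω))
    rw [mul_inv_rev, E.mul]

lemma coc_apply (g : G) (x : X) (v : Lp ℂ 2 μ) :
    (E.coc.U g x v : Ω → ℂ) =ᵐ[μ] fun ω => v (E.act g⁻¹ x ω) :=
  Lp.coeFn_compMeasurePreserving v (E.mp g⁻¹ x)

end Ext

end Pool.Agent.LibBS2
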