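import Pool.Agent.LibCod83.Orbits

/-!
The regular representation with values in a Hilbert space.
-/

set_option autoImplicit false

namespace Pool.Agent.LibBS2

open Pool.Agent.LibZIS

universe u v w

variable {G : Type u} [Group G] {H : Type w} [NormedAddCommGroup H] [InnerProductSpace ℂ H]
  [CompleteSpace H]

/-- square summable functions with values in `H`. -/
noncomputable abbrev LH (Y : Type u) (H : Type w) [NormedAddCommGroup H] := lp (fun _ : Y => H) 2

/-- the square of the norm. -/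
lemma lh_norm_sq {Y : Type u} (F : LH Y H) : ‖F‖ ^ 2 = ∑' h, ‖F h‖ ^ 2 := by
  have h := lp.norm_rpow_eq_tsum (p := 2) (by simp) F
  simpa using h

lemma lh_summable {Y : Type u} (F : LH Y H) : Summable fun h => ‖F h‖ ^ 2 := by
  have h := (memℓp_gen_iff (by simp)).1 (lp.memℓp F)
  simpa using h

/-- a function with summable squares. -/
noncomputable def lhMk {Y : Type u} (F : Y → H) (hF : Summable fun h => ‖F h‖ ^ 2) : LH Y H :=
  ⟨F, memℓp_gen (by simpa using hF)⟩

/-- the translation of `H`-valued functions. -/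
noncomputable def trH (g : G) : LH G H →L[ℂ] LH G H :=
  (LinearMap.mkContinuous
    { toFun := fun F => lhMk (fun h => F (g⁻¹ * h)) (by
        exact ((Equiv.mulLeft g⁻¹).summable_iff (f := fun h => ‖F h‖ ^ 2)).2 (lh_summable F))
      map_add' := fun F F' => by ext h; rfl
      map_smul' := fun c F => by ext h; rfl } 1 (fun F => by
        rw [one_mul]
        refine le_of_sq_le_sq (le_of_eq ?_) (norm_nonneg _)
        rw [lh_norm_sq, lh_norm_sq]
        exact (Equiv.mulLeft g⁻¹).tsum_eq (fun h => ‖F h‖ ^ 2)))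

lemma trH_apply (g : G) (F : LH G H) (h : G) : trH g F h = F (g⁻¹ * h) := rfl

lemma norm_trH (g : G) (F : LH G H) : ‖(trH g F : LH G H)‖ = ‖F‖ := by
  have h1 : ‖(trH g F : LH G H)‖ ^ 2 = ‖F‖ ^ 2 := by
    rw [lh_norm_sq, lh_norm_sq]
    exact (Equiv.mulLeft g⁻¹).tsum_eq (fun h => ‖F h‖ ^ 2)
  exact (sq_eq_sq₀ (norm_nonneg _) (norm_nonneg _)).1 h1

/-- the square of the norm by the coordinates in a Hilbert basis. -/
private lemma t1_repr_sq {ι : Type w} (b : HilbertBasis ι ℂ H) (v : H) :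
    ‖v‖ ^ 2 = ∑' i, ‖b.repr v i‖ ^ 2 := by
  rw [← Raw.norm_sq_eq (b.repr v), LinearIsometryEquiv.norm_map]

/-- the coordinate of a function with values in `H`. -/
private noncomputable def t1_coord {ι : Type w} (b : HilbertBasis ι ℂ H) (i : ι) (F : LH G H) :
    Raw.L2 G :=
  ⟨fun h => b.repr (F h) i, memℓp_gen (by
    have h1 : Summable fun h => ‖b.repr (F h) i‖ ^ 2 := by
      refine Summable.of_nonneg_of_le (fun h => sq_nonneg _) (fun h => ?_) (lh_summable F)
      refine pow_le_pow_left₀ (norm_nonneg _) ?_ 2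
      have h2 := lp.norm_apply_le_norm (by simp) (b.repr (F h)) i
      rwa [LinearIsometryEquiv.norm_map] at h2
    simpa using h1)⟩

private lemma t1_coord_apply {ι : Type w} (b : HilbertBasis ι ℂ H) (i : ι) (F : LH G H) (h : G) :
    t1_coord b i F h = b.repr (F h) i := rfl

private lemma t1_summable_prod {ι : Type w} (b : HilbertBasis ι ℂ H) (F : LH G H) :
    Summable (Function.uncurry fun (h : G) (i : ι) => ‖b.repr (F h) i‖ ^ 2) := by
  have h0 : (0 : G × ι → ℝ) ≤
      Function.uncurry fun (h : G) (i : ι) => ‖b.repr (F h) i‖ ^ 2 := fun _ => sq_nonneg _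
  refine (summable_prod_of_nonneg h0).2 ⟨fun h => Raw.summable_sq (b.repr (F h)), ?_⟩
  refine (lh_summable F).congr fun h => ?_
  exact t1_repr_sq b (F h)

private lemma t1_norm_sq {ι : Type w} (b : HilbertBasis ι ℂ H) (F : LH G H) :
    ‖F‖ ^ 2 = ∑' i, ‖t1_coord b i F‖ ^ 2 := by
  have h1 : ‖F‖ ^ 2 = ∑' h, ∑' i, ‖b.repr (F h) i‖ ^ 2 := by
    rw [lh_norm_sq]
    exact tsum_congr fun h => t1_repr_sq b (F h)
  rw [h1, ← (t1_summable_prod b F).tsum_comm]
  refine tsum_congr fun i => ?_
  rw [Raw.norm_sq_eq]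
  rfl

private lemma t1_summable {ι : Type w} (b : HilbertBasis ι ℂ H) (F : LH G H) :
    Summable fun i => ‖t1_coord b i F‖ ^ 2 := by
  have h1 := (t1_summable_prod b F).prod_symm.prod
  refine h1.congr fun i => ?_
  rw [Raw.norm_sq_eq]
  rfl

private lemma t1_sum_apply (f : MonoidAlgebra ℂ G) (F : LH G H) (h : G) :
    (∑ g ∈ f.coeff.support, f.coeff g • (trH g F : LH G H) : LH G H) h =
      ∑ g ∈ f.coeff.support, f.coeff g • F (g⁻¹ * h) := by
  have h1 : ((∑ g ∈ f.coeff.support, f.coeff g • (trH g F : LH G H) : LH G H) : ∀ _ : G, H) =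
      ∑ g ∈ f.coeff.support, ((f.coeff g • (trH g F : LH G H) : LH G H) : ∀ _ : G, H) := by
    exact map_sum (lp.coeFnAddMonoidHom (fun _ : G => H) 2) _ _
  rw [h1, Finset.sum_apply]
  rfl

private lemma t1_coord_sum {ι : Type w} (b : HilbertBasis ι ℂ H) (i : ι) (f : MonoidAlgebra ℂ G)
    (F : LH G H) :
    t1_coord b i (∑ g ∈ f.coeff.support, f.coeff g • (trH g F : LH G H)) =
      Raw.T G G f (t1_coord b i F) := by
  ext h
  rw [t1_coord_apply, t1_sum_apply, Raw.T_apply_apply, map_sum, lp.coeFn_sum, Finset.sum_apply]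
  refine Finset.sum_congr rfl fun g _ => ?_
  rw [map_smul]
  rfl

/-- the operators of the group algebra on the `H`-valued functions have at most the norm they
have on the scalar functions. -/
theorem norm_sum_trH_le (f : MonoidAlgebra ℂ G) (F : LH G H) :
    ‖∑ g ∈ f.coeff.support, f.coeff g • (trH g F : LH G H)‖ ≤ ‖Raw.T G G f‖ * ‖F‖ := by
  obtain ⟨w, b, -⟩ := exists_hilbertBasis ℂ H
  refine le_of_sq_le_sq ?_ (mul_nonneg (norm_nonneg _) (norm_nonneg _))
  rw [mul_pow, t1_norm_sq b, t1_norm_sq b F, ← tsum_mul_left]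
  refine Summable.tsum_le_tsum (fun i => ?_) (t1_summable b _) ((t1_summable b F).mul_left _)
  rw [t1_coord_sum, ← mul_pow]
  exact pow_le_pow_left₀ (norm_nonneg _) (ContinuousLinearMap.le_opNorm _ _) 2

end Pool.Agent.LibBS2
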