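import Pool.Agent.LibBS2.T1

/-!
Representations with a system of imprimitivity over a transitive `G`-set, and their lifts to the
`H`-valued functions on `G`.
-/

set_option autoImplicit false

namespace Pool.Agent.LibBS2

open Pool.Agent.LibZIS

universe u v w

/-- an isometric representation of `G` on the Hilbert space `H` with a system of imprimitivity
over the `G`-set `X`: orthogonal projections `e x` with sum one, permuted by `G`. -/
structure Imp (G : Type u) [Group G] (X : Type v) [MulAction G X] (H : Type w)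
    [NormedAddCommGroup H] [InnerProductSpace ℂ H] where
  /-- the representation -/
  U : G → (H →L[ℂ] H)
  norm : ∀ g v, ‖U g v‖ = ‖v‖
  one : U 1 = 1
  mul : ∀ g h, U (g * h) = U g * U h
  /-- the projections -/
  e : X → (H →L[ℂ] H)
  tot : ∀ v, HasSum (fun x => e x v) v
  sq : ∀ v, HasSum (fun x => ‖e x v‖ ^ 2) (‖v‖ ^ 2)
  ee : ∀ x v, e x (e x v) = e x v
  ne : ∀ x y v, x ≠ y → e x (e y v) = 0
  eU : ∀ g x v, e (g • x) (U g v) = U g (e x v)

variable {G : Type u} [Group G] {X : Type v} [MulAction G X] {H : Type w}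
  [NormedAddCommGroup H] [InnerProductSpace ℂ H] [CompleteSpace H]

omit [CompleteSpace H] in
/-- the scalar function `x ↦ |e x v|` -/
lemma T2_fib_summable (I : Imp G X H) (v : H) :
    Summable fun x : X => ‖((‖I.e x v‖ : ℝ) : ℂ)‖ ^ 2 := by
  simp only [Complex.norm_real, norm_norm]
  exact (I.sq v).summable

/-- the scalar function `x ↦ |e x v|` -/
noncomputable def T2_fib (I : Imp G X H) (v : H) : Raw.L2 X :=
  ⟨fun x => ((‖I.e x v‖ : ℝ) : ℂ), memℓp_gen (by simpa using T2_fib_summable I v)⟩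

omit [CompleteSpace H] in
lemma T2_fib_apply (I : Imp G X H) (v : H) (x : X) : T2_fib I v x = ((‖I.e x v‖ : ℝ) : ℂ) := rfl

omit [CompleteSpace H] in
lemma T2_norm_fib (I : Imp G X H) (v : H) : ‖T2_fib I v‖ = ‖v‖ := by
  have h : ‖T2_fib I v‖ ^ 2 = ‖v‖ ^ 2 := by
    rw [Raw.norm_sq_eq, ← (I.sq v).tsum_eq]
    refine tsum_congr fun x => ?_
    rw [T2_fib_apply, Complex.norm_real, norm_norm]
  exact (sq_eq_sq₀ (norm_nonneg _) (norm_nonneg _)).1 h

omit [CompleteSpace H] in
lemma T2_norm_apply (I : Imp G X H) (o : X) (w : Raw.L2 (MulAction.stabilizer G o)) (v : H)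
    (h : G) : ‖w (Raw.crd o h) • I.U h⁻¹ (I.e (h • o) v)‖ = ‖Raw.lift o w (T2_fib I v) h‖ := by
  rw [norm_smul, I.norm, Raw.lift_apply, norm_mul, T2_fib_apply, Complex.norm_real, norm_norm,
    mul_comm]

/-- the lift: the `H`-valued function `h ↦ w(h) U(h)⁻¹ e(h o) v`. -/
lemma lift_summable' (I : Imp G X H) (o : X) (w : Raw.L2 (MulAction.stabilizer G o)) (v : H) :
    Summable fun h : G => ‖w (Raw.crd o h) • I.U h⁻¹ (I.e (h • o) v)‖ ^ 2 := by
  simp only [T2_norm_apply]
  exact Raw.summable_sq (Raw.lift o w (T2_fib I v))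

/-- the lift of a vector. -/
noncomputable def liftH (I : Imp G X H) (o : X) (w : Raw.L2 (MulAction.stabilizer G o)) (v : H) :
    LH G H := lhMk (fun h => w (Raw.crd o h) • I.U h⁻¹ (I.e (h • o) v)) (lift_summable' I o w v)

lemma liftH_apply (I : Imp G X H) (o : X) (w : Raw.L2 (MulAction.stabilizer G o)) (v : H)
    (h : G) : liftH I o w v h = w (Raw.crd o h) • I.U h⁻¹ (I.e (h • o) v) := rfl

lemma liftH_add (I : Imp G X H) (o : X) (w : Raw.L2 (MulAction.stabilizer G o)) (v v' : H) :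
    liftH I o w (v + v') = liftH I o w v + liftH I o w v' := by
  apply lp.ext
  funext h
  rw [lp.coeFn_add, Pi.add_apply, liftH_apply, liftH_apply, liftH_apply, map_add, map_add,
    smul_add]

lemma liftH_smul (I : Imp G X H) (o : X) (w : Raw.L2 (MulAction.stabilizer G o)) (c : ℂ)
    (v : H) : liftH I o w (c • v) = c • liftH I o w v := by
  apply lp.ext
  funext h
  rw [lp.coeFn_smul, Pi.smul_apply, liftH_apply, liftH_apply, map_smul, map_smul, smul_comm]

/-- comparison of norms with a scalar function -/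
lemma T2_norm_eq (F : LH G H) (ξ : Raw.L2 G) (h : ∀ k, ‖F k‖ = ‖ξ k‖) : ‖F‖ = ‖ξ‖ := by
  have h1 : ‖F‖ ^ 2 = ‖ξ‖ ^ 2 := by
    rw [lh_norm_sq, Raw.norm_sq_eq]
    exact tsum_congr fun k => by rw [h]
  exact (sq_eq_sq₀ (norm_nonneg _) (norm_nonneg _)).1 h1

/-- the lift is isometric when `X` is transitive. -/
lemma norm_liftH (htr : ∀ x y : X, ∃ g : G, g • x = y) (I : Imp G X H) (o : X)
    (w : Raw.L2 (MulAction.stabilizer G o)) (v : H) : ‖liftH I o w v‖ = ‖w‖ * ‖v‖ := by
  rw [T2_norm_eq (liftH I o w v) (Raw.lift o w (T2_fib I v))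
    (fun k => by rw [liftH_apply, T2_norm_apply]), Raw.norm_lift_of_mem, T2_norm_fib, mul_comm]
  intro x hx
  exact absurd (htr o x) (by simpa [MulAction.mem_orbit_iff] using hx)

/-- the coordinates and the cocycle -/
lemma T2_crd (g : G) {o x : X} (hx : x ∈ MulAction.orbit G o) {h : G} (hh : h • o = g • x) :
    Raw.crd o (g⁻¹ * h) = (Raw.coc o g x hx)⁻¹ • Raw.crd o h := by
  have h1 : (g⁻¹ * h) • o = x := by rw [mul_smul, hh, inv_smul_smul]
  apply Subtype.ext
  show (Raw.sec o ((g⁻¹ * h) • o))⁻¹ * (g⁻¹ * h) =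
    ((Raw.sec o (g • x))⁻¹ * g * Raw.sec o x)⁻¹ * ((Raw.sec o (h • o))⁻¹ * h)
  rw [h1, hh]
  group

/-- the defect of the lift on vectors of one fibre. -/
lemma norm_defectH (htr : ∀ x y : X, ∃ g : G, g • x = y) (I : Imp G X H) (o : X)
    (w : Raw.L2 (MulAction.stabilizer G o)) (g : G) (x : X) (hx : x ∈ MulAction.orbit G o)
    (v : H) :
    ‖(trH g (liftH I o w (I.e x v)) : LH G H) - liftH I o w (I.U g (I.e x v))‖ =
      ‖I.e x v‖ * ‖(Raw.tr (Raw.coc o g x hx) w : Raw.L2 _) - w‖ := by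
  classical
  have hgx : g • x ∈ MulAction.orbit G o := by
    rw [← MulAction.orbit_eq_iff.2 hx]
    exact MulAction.mem_orbit x g
  rw [T2_norm_eq _ (Raw.lift o ((Raw.tr (Raw.coc o g x hx) w : Raw.L2 _) - w)
    (lp.single 2 (g • x) ((‖I.e x v‖ : ℝ) : ℂ))), Raw.norm_lift_single o _ hgx,
    Complex.norm_real, norm_norm]
  intro h
  rw [lp.coeFn_sub, Pi.sub_apply, trH_apply, liftH_apply, liftH_apply, Raw.lift_apply]
  by_cases hh : h • o = g • x
  · have h1 : (g⁻¹ * h) • o = x := by rw [mul_smul, hh, inv_smul_smul]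
    have e1 : I.U (g⁻¹ * h)⁻¹ (I.e x v) = I.U h⁻¹ (I.U g (I.e x v)) := by
      rw [mul_inv_rev, inv_inv, I.mul]; rfl
    rw [h1, I.ee, hh, I.eU, I.ee, e1, ← sub_smul, norm_smul, I.norm, I.norm,
      lp.single_apply_self, norm_mul, Complex.norm_real, norm_norm, lp.coeFn_sub, Pi.sub_apply,
      Raw.tr_apply, T2_crd g hx hh, mul_comm]
  · have h1 : (g⁻¹ * h) • o ≠ x := by
      rw [mul_smul]
      intro h2
      apply hh
      rw [← h2, smul_inv_smul]
    have e2 : I.e (h • o) (I.U g (I.e x v)) = 0 := by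
      rw [← I.eU]
      exact I.ne _ _ _ hh
    rw [I.ne _ _ _ h1, e2, map_zero, map_zero, smul_zero, smul_zero, sub_zero,
      lp.single_apply_ne 2 (g • x) _ hh, zero_mul, norm_zero, norm_zero]

end Pool.Agent.LibBS2
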