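import Pool.Agent.LibBS2.T2

/-!
Representations with a system of imprimitivity over a transitive `G`-set with amenable
stabilizers are weakly contained in the regular representation.
-/

set_option autoImplicit false

namespace Pool.Agent.LibBS2

open Pool.Agent.LibZIS

universe u v w

variable {G : Type u} [Group G] {X : Type v} [MulAction G X] {H : Type w}
  [NormedAddCommGroup H] [InnerProductSpace ℂ H] [CompleteSpace H]

/-- the representation of the group algebra. -/
noncomputable def repH (I : Imp G X H) : MonoidAlgebra ℂ G →ₐ[ℂ] (H →L[ℂ] H) :=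
  MonoidAlgebra.lift ℂ _ G ⟨⟨I.U, I.one⟩, I.mul⟩

lemma repH_apply (I : Imp G X H) (f : MonoidAlgebra ℂ G) (v : H) :
    repH I f v = ∑ g ∈ f.coeff.support, f.coeff g • I.U g v := by
  rw [repH, MonoidAlgebra.lift_apply, Finsupp.sum, sum_apply]
  rfl

/-- the lift as a linear map. -/
noncomputable def T3_lift (I : Imp G X H) (o : X) (w : Raw.L2 (MulAction.stabilizer G o)) :
    H →ₗ[ℂ] LH G H where
  toFun := liftH I o w
  map_add' := liftH_add I o w
  map_smul' := fun c v => liftH_smul I o w c v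

lemma T3_exists (htr : ∀ x y : X, ∃ g : G, g • x = y) (I : Imp G X H) (o : X)
    (hC : Amenable (MulAction.stabilizer G o))
    (f : MonoidAlgebra ℂ G) (s : Finset X) (v : H)
    {ε : ℝ} (hε : 0 < ε) : ∃ w : Raw.L2 (MulAction.stabilizer G o), ‖w‖ = 1 ∧
      ‖(∑ g ∈ f.coeff.support, f.coeff g • (trH g (liftH I o w (∑ x ∈ s, I.e x v)) : LH G H)) -
        liftH I o w (repH I f (∑ x ∈ s, I.e x v))‖ ≤ ε := by
  classical
  have hs : ∀ x ∈ s, x ∈ MulAction.orbit G o := fun x _ => by
    obtain ⟨g, hg⟩ := htr o x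
    exact ⟨g, hg⟩
  set K : ℝ := ∑ g ∈ f.coeff.support, ∑ x ∈ s, ‖f.coeff g‖ * ‖I.e x v‖ with hK
  have hK0 : 0 ≤ K := Finset.sum_nonneg fun g _ => Finset.sum_nonneg fun x _ => by positivity
  let κ : G × X → MulAction.stabilizer G o := fun p =>
    if h : p.2 ∈ MulAction.orbit G o then Raw.coc o p.1 p.2 h else 1
  obtain ⟨w, hw1, hw⟩ := Raw.exists_almost_inv hC ((f.coeff.support ×ˢ s).image κ)
    (ε := ε / (K + 1)) (by positivity)
  refine ⟨w, hw1, ?_⟩
  have hL : ∀ u : H, liftH I o w u = T3_lift I o w u := fun u => rfl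
  have h1 : (∑ g ∈ f.coeff.support, f.coeff g •
        (trH g (liftH I o w (∑ x ∈ s, I.e x v)) : LH G H)) -
        liftH I o w (repH I f (∑ x ∈ s, I.e x v)) =
      ∑ g ∈ f.coeff.support, ∑ x ∈ s, f.coeff g • ((trH g (liftH I o w (I.e x v)) : LH G H) -
        liftH I o w (I.U g (I.e x v))) := by
    rw [repH_apply]
    simp only [hL]
    rw [map_sum (T3_lift I o w) (fun g => f.coeff g • I.U g (∑ x ∈ s, I.e x v)),
      ← Finset.sum_sub_distrib]
    refine Finset.sum_congr rfl fun g _ => ?_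
    rw [map_smul, ← smul_sub, ← Finset.smul_sum, Finset.sum_sub_distrib]
    congr 1
    rw [map_sum, map_sum, map_sum, map_sum]
  rw [h1]
  calc ‖∑ g ∈ f.coeff.support, ∑ x ∈ s, f.coeff g •
        ((trH g (liftH I o w (I.e x v)) : LH G H) - liftH I o w (I.U g (I.e x v)))‖
      ≤ ∑ g ∈ f.coeff.support, ∑ x ∈ s, ‖f.coeff g •
        ((trH g (liftH I o w (I.e x v)) : LH G H) - liftH I o w (I.U g (I.e x v)))‖ :=
        (norm_sum_le _ _).trans (Finset.sum_le_sum fun g _ => norm_sum_le _ _)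
    _ ≤ ∑ g ∈ f.coeff.support, ∑ x ∈ s, ‖f.coeff g‖ * ‖I.e x v‖ * (ε / (K + 1)) := by
        refine Finset.sum_le_sum fun g hg => Finset.sum_le_sum fun x hx => ?_
        rw [norm_smul, norm_defectH htr I o w g x (hs x hx) v, mul_assoc]
        refine mul_le_mul_of_nonneg_left (mul_le_mul_of_nonneg_left ?_ (norm_nonneg _))
          (norm_nonneg _)
        have h2 := hw (κ (g, x)) (Finset.mem_image_of_mem _ (Finset.mk_mem_product hg hx))
        have h3 : κ (g, x) = Raw.coc o g x (hs x hx) := dif_pos (hs x hx)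
        rw [h3] at h2
        exact h2
    _ = K * (ε / (K + 1)) := by
        rw [hK, Finset.sum_mul]
        exact Finset.sum_congr rfl fun g _ => (Finset.sum_mul _ _ _).symm
    _ ≤ ε := by
        rw [mul_div_assoc', div_le_iff₀ (by positivity)]
        nlinarith

/-- finite sums of vectors of fibres. -/
theorem norm_repH_finite (htr : ∀ x y : X, ∃ g : G, g • x = y)
    (hst : ∀ x : X, Amenable (MulAction.stabilizer G x)) (I : Imp G X H) (f : MonoidAlgebra ℂ G)
    (s : Finset X) (v : H) :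
    ‖repH I f (∑ x ∈ s, I.e x v)‖ ≤ ‖Raw.T G G f‖ * ‖∑ x ∈ s, I.e x v‖ := by
  rcases s.eq_empty_or_nonempty with rfl | ⟨o, -⟩
  · rw [Finset.sum_empty, map_zero, norm_zero, mul_zero]
  refine le_of_forall_pos_le_add fun ε hε => ?_
  obtain ⟨w, hw1, hw⟩ := T3_exists htr I o (hst o) f s v hε
  set u : H := ∑ x ∈ s, I.e x v with hu
  set S : LH G H := ∑ g ∈ f.coeff.support, f.coeff g • (trH g (liftH I o w u) : LH G H) with hS
  calc ‖repH I f u‖ = ‖liftH I o w (repH I f u)‖ := by
        rw [norm_liftH htr, hw1, one_mul]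
    _ ≤ ‖S‖ + ‖S - liftH I o w (repH I f u)‖ := by
        have := norm_sub_norm_le (liftH I o w (repH I f u)) S
        rw [norm_sub_rev] at this
        linarith
    _ ≤ ‖Raw.T G G f‖ * ‖liftH I o w u‖ + ε := add_le_add (norm_sum_trH_le f _) hw
    _ = ‖Raw.T G G f‖ * ‖u‖ + ε := by
        rw [norm_liftH htr, hw1, one_mul]

/-- weak containment. -/
theorem norm_repH_le (htr : ∀ x y : X, ∃ g : G, g • x = y)
    (hst : ∀ x : X, Amenable (MulAction.stabilizer G x)) (I : Imp G X H)
    (f : MonoidAlgebra ℂ G) : ‖repH I f‖ ≤ ‖Raw.T G G f‖ := by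
  classical
  refine ContinuousLinearMap.opNorm_le_bound _ (norm_nonneg _) fun v => ?_
  have h2 : Filter.Tendsto (fun s : Finset X => ∑ x ∈ s, I.e x v) Filter.atTop (nhds v) := I.tot v
  have h3 := ((repH I f).continuous.tendsto v).comp h2
  exact le_of_tendsto_of_tendsto' h3.norm (h2.norm.const_mul _)
    fun s => norm_repH_finite htr hst I f s v

end Pool.Agent.LibBS2
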