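import Pool.Agent.LibCod83.Orbits

/-!
Isometric representations on Banach spaces which are weakly contained in the regular
representation extend to the reduced group C*-algebra.
-/

set_option autoImplicit false

namespace Pool.Agent.LibBS2

open Pool.Agent.LibZIS Pool.Agent.LibCod83

universe u w

variable {G : Type u} [Group G] {B : Type w} [NormedAddCommGroup B] [NormedSpace ℂ B]
  [CompleteSpace B]

/-- the closure of the image of the group algebra in the two operator algebras. -/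
noncomputable def T4_gr (R : MonoidAlgebra ℂ G →ₐ[ℂ] (B →L[ℂ] B)) :
    Subalgebra ℂ ((Raw.L2 G →L[ℂ] Raw.L2 G) × (B →L[ℂ] B)) :=
  ((Raw.T G G).prod R).range.topologicalClosure

omit [CompleteSpace B] in
lemma T4_norm_le (R : MonoidAlgebra ℂ G →ₐ[ℂ] (B →L[ℂ] B)) (hR : ∀ f, ‖R f‖ ≤ ‖Raw.T G G f‖)
    {p : (Raw.L2 G →L[ℂ] Raw.L2 G) × (B →L[ℂ] B)} (hp : p ∈ T4_gr R) :
    ‖p.2‖ ≤ ‖p.1‖ := by
  have h1 : IsClosed {p : (Raw.L2 G →L[ℂ] Raw.L2 G) × (B →L[ℂ] B) |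
      ‖p.2‖ ≤ ‖p.1‖} := isClosed_le continuous_snd.norm continuous_fst.norm
  have h2 : closure (((Raw.T G G).prod R).range :
      Set ((Raw.L2 G →L[ℂ] Raw.L2 G) × (B →L[ℂ] B))) ⊆ {p | ‖p.2‖ ≤ ‖p.1‖} := by
    refine closure_minimal ?_ h1
    rintro _ ⟨f, rfl⟩
    exact hR f
  exact h2 hp

omit [CompleteSpace B] in
lemma T4_unique (R : MonoidAlgebra ℂ G →ₐ[ℂ] (B →L[ℂ] B)) (hR : ∀ f, ‖R f‖ ≤ ‖Raw.T G G f‖)
    {a : Raw.L2 G →L[ℂ] Raw.L2 G} {b b' : B →L[ℂ] B} (h : (a, b) ∈ T4_gr R)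
    (h' : (a, b') ∈ T4_gr R) : b = b' := by
  have h1 := T4_norm_le R hR (Subalgebra.sub_mem _ h h')
  have h2 : ‖b - b'‖ ≤ ‖a - a‖ := h1
  rw [sub_self, norm_zero] at h2
  exact sub_eq_zero.1 (norm_le_zero_iff.1 h2)

omit [CompleteSpace B] in
lemma T4_single (R : MonoidAlgebra ℂ G →ₐ[ℂ] (B →L[ℂ] B)) (g : G) :
    ((Raw.tr g : Raw.L2 G →L[ℂ] Raw.L2 G), R (MonoidAlgebra.single g 1)) ∈ T4_gr R := by
  refine subset_closure ⟨MonoidAlgebra.single g 1, ?_⟩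
  show (Raw.T G G _, R _) = _
  rw [Raw.T, MonoidAlgebra.lift_single, one_smul]
  rfl

lemma T4_exists (R : MonoidAlgebra ℂ G →ₐ[ℂ] (B →L[ℂ] B)) (hR : ∀ f, ‖R f‖ ≤ ‖Raw.T G G f‖)
    {a : Raw.L2 G →L[ℂ] Raw.L2 G} (ha : a ∈ Raw.crAlg G) :
    ∃ b : B →L[ℂ] B, (a, b) ∈ T4_gr R := by
  have h1 : Algebra.adjoin ℂ (Set.range (Raw.tr : G → (Raw.L2 G →L[ℂ] Raw.L2 G))) ≤
      (Raw.T G G).range := by
    refine Algebra.adjoin_le ?_
    rintro _ ⟨g, rfl⟩
    refine ⟨MonoidAlgebra.single g 1, ?_⟩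
    show Raw.T G G _ = _
    rw [Raw.T, MonoidAlgebra.lift_single, one_smul]
    rfl
  have h2 : a ∈ closure ((Raw.T G G).range : Set (Raw.L2 G →L[ℂ] Raw.L2 G)) := closure_mono h1 ha
  obtain ⟨u, hu, hlim⟩ := mem_closure_iff_seq_limit.1 h2
  choose f hf using hu
  have hf' : ∀ n, Raw.T G G (f n) = u n := hf
  have hcau : CauchySeq fun n => R (f n) := by
    have h3 := hlim.cauchySeq
    rw [Metric.cauchySeq_iff] at h3 ⊢
    intro ε hε
    obtain ⟨N, hN⟩ := h3 ε hε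
    refine ⟨N, fun m hm n hn => lt_of_le_of_lt ?_ (hN m hm n hn)⟩
    rw [dist_eq_norm, dist_eq_norm, ← hf', ← hf', ← map_sub, ← map_sub]
    exact hR _
  obtain ⟨b, hb⟩ := cauchySeq_tendsto_of_complete hcau
  refine ⟨b, mem_closure_of_tendsto (hlim.prodMk_nhds hb) (Filter.Eventually.of_forall fun n => ?_)⟩
  refine ⟨f n, ?_⟩
  show (Raw.T G G (f n), R (f n)) = _
  rw [hf']

/-- the extension. -/
noncomputable def T4_rep (R : MonoidAlgebra ℂ G →ₐ[ℂ] (B →L[ℂ] B))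
    (hR : ∀ f, ‖R f‖ ≤ ‖Raw.T G G f‖) : Raw.Cr G →+* (B →L[ℂ] B) where
  toFun a := (T4_exists R hR a.2).choose
  map_one' := T4_unique R hR (T4_exists R hR (1 : Raw.Cr G).2).choose_spec
    (Subalgebra.one_mem (T4_gr R))
  map_zero' := T4_unique R hR (T4_exists R hR (0 : Raw.Cr G).2).choose_spec
    (Subalgebra.zero_mem (T4_gr R))
  map_mul' a b := T4_unique R hR (T4_exists R hR (a * b).2).choose_spec
    (Subalgebra.mul_mem (T4_gr R) (T4_exists R hR a.2).choose_spec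
      (T4_exists R hR b.2).choose_spec)
  map_add' a b := T4_unique R hR (T4_exists R hR (a + b).2).choose_spec
    (Subalgebra.add_mem (T4_gr R) (T4_exists R hR a.2).choose_spec
      (T4_exists R hR b.2).choose_spec)

lemma T4_rep_lam (R : MonoidAlgebra ℂ G →ₐ[ℂ] (B →L[ℂ] B))
    (hR : ∀ f, ‖R f‖ ≤ ‖Raw.T G G f‖) (g : G) :
    T4_rep R hR (Raw.lam G g) = R (MonoidAlgebra.single g 1) :=
  T4_unique R hR (T4_exists R hR (Raw.lam G g).2).choose_spec (T4_single R g)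

omit [CompleteSpace B] in
lemma T4_comm_alg (R : MonoidAlgebra ℂ G →ₐ[ℂ] (B →L[ℂ] B)) (D : B →L[ℂ] B)
    (hD : ∀ g : G, D * R (MonoidAlgebra.single g 1) = R (MonoidAlgebra.single g 1) * D)
    (f : MonoidAlgebra ℂ G) : D * R f = R f * D := by
  induction f using MonoidAlgebra.induction_linear with
  | zero => rw [map_zero, mul_zero, zero_mul]
  | add f g hf hg => rw [map_add, mul_add, add_mul, hf, hg]
  | single g c =>
    have h1 : (MonoidAlgebra.single g c : MonoidAlgebra ℂ G) = c • MonoidAlgebra.single g 1 := by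
      rw [MonoidAlgebra.smul_single, smul_eq_mul, mul_one]
    rw [h1, map_smul, mul_smul_comm, smul_mul_assoc, hD g]

omit [CompleteSpace B] in
lemma T4_comm (R : MonoidAlgebra ℂ G →ₐ[ℂ] (B →L[ℂ] B)) (D : B →L[ℂ] B)
    (hD : ∀ g : G, D * R (MonoidAlgebra.single g 1) = R (MonoidAlgebra.single g 1) * D)
    {p : (Raw.L2 G →L[ℂ] Raw.L2 G) × (B →L[ℂ] B)} (hp : p ∈ T4_gr R) : D * p.2 = p.2 * D := by
  have h1 : IsClosed {p : (Raw.L2 G →L[ℂ] Raw.L2 G) × (B →L[ℂ] B) |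
      D * p.2 = p.2 * D} :=
    isClosed_eq (continuous_const.mul continuous_snd) (continuous_snd.mul continuous_const)
  have h2 : closure (((Raw.T G G).prod R).range :
      Set ((Raw.L2 G →L[ℂ] Raw.L2 G) × (B →L[ℂ] B))) ⊆ {p | D * p.2 = p.2 * D} := by
    refine closure_minimal ?_ h1
    rintro _ ⟨f, rfl⟩
    exact T4_comm_alg R D hD f
  exact h2 hp

/-- the extension to the reduced group C*-algebra. Every operator commuting with the group
commutes with the algebra. -/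
theorem exists_rep_of_norm (R : MonoidAlgebra ℂ G →ₐ[ℂ] (B →L[ℂ] B))
    (hR : ∀ f, ‖R f‖ ≤ ‖Raw.T G G f‖) :
    ∃ S : Cr G →+* (B →L[ℂ] B), (∀ g : G, S (lam G g) = R (MonoidAlgebra.single g 1)) ∧
      ∀ D : B →L[ℂ] B, (∀ g : G, D * R (MonoidAlgebra.single g 1) =
        R (MonoidAlgebra.single g 1) * D) → ∀ a : Cr G, D * S a = S a * D := by
  refine ⟨(T4_rep R hR).comp (toRaw G), fun g => ?_, fun D hD a => ?_⟩
  · show T4_rep R hR (toRaw G (lam G g)) = _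
    rw [toRaw_lam, T4_rep_lam]
  · show D * T4_rep R hR (toRaw G a) = T4_rep R hR (toRaw G a) * D
    exact T4_comm R D hD (T4_exists R hR (toRaw G a).2).choose_spec

end Pool.Agent.LibBS2
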