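import Pool.Agent.LibBS2.T3
import Pool.Agent.LibBS2.T4
import Pool.Agent.LibBS2.Defs

/-!
Vector valued twisted monomial representations: vanishing of the first cohomology.
-/

set_option autoImplicit false

namespace Pool.Agent.LibBS2

open Pool.Agent.LibZIS Pool.Agent.LibCod83

universe v

variable {G : Type} [Group G] {X : Type} [MulAction G X] {K : Type} [NormedAddCommGroup K]
  [InnerProductSpace ℂ K] [CompleteSpace K]

/-- the squares of the translate are summable. -/
lemma t5_summable (C : VCoc G X K) (g : G) (F : LH X K) :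
    Summable fun x => ‖C.U g x (F (g⁻¹ • x))‖ ^ 2 := by
  have h := ((MulAction.toPerm (g⁻¹) : Equiv.Perm X).summable_iff
    (f := fun x => ‖F x‖ ^ 2)).2 (lh_summable F)
  refine h.congr fun x => ?_
  rw [LinearIsometry.norm_map]
  rfl

/-- the action of the group. -/
noncomputable def t5_U (C : VCoc G X K) (g : G) : LH X K →L[ℂ] LH X K :=
  (LinearMap.mkContinuous
    { toFun := fun F => lhMk (fun x => C.U g x (F (g⁻¹ • x))) (t5_summable C g F)
      map_add' := fun F F' => by
        ext x
        show C.U g x ((F + F') (g⁻¹ • x)) = C.U g x (F (g⁻¹ • x)) + C.U g x (F' (g⁻¹ • x))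
        rw [lp.coeFn_add, Pi.add_apply, map_add]
      map_smul' := fun c F => by
        ext x
        show C.U g x ((c • F) (g⁻¹ • x)) = c • C.U g x (F (g⁻¹ • x))
        rw [lp.coeFn_smul, Pi.smul_apply, map_smul] } 1 (fun F => by
        rw [one_mul]
        refine le_of_sq_le_sq (le_of_eq ?_) (norm_nonneg _)
        rw [lh_norm_sq, lh_norm_sq]
        have h := (MulAction.toPerm (g⁻¹) : Equiv.Perm X).tsum_eq (fun x => ‖F x‖ ^ 2)
        rw [← h]
        refine tsum_congr fun x => ?_
        show ‖C.U g x (F (g⁻¹ • x))‖ ^ 2 = _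
        rw [LinearIsometry.norm_map]
        rfl))

lemma t5_U_apply (C : VCoc G X K) (g : G) (F : LH X K) (x : X) :
    t5_U C g F x = C.U g x (F (g⁻¹ • x)) := rfl

lemma t5_norm_U (C : VCoc G X K) (g : G) (F : LH X K) : ‖(t5_U C g F : LH X K)‖ = ‖F‖ := by
  have h : ‖(t5_U C g F : LH X K)‖ ^ 2 = ‖F‖ ^ 2 := by
    rw [lh_norm_sq, lh_norm_sq]
    have h := (MulAction.toPerm (g⁻¹) : Equiv.Perm X).tsum_eq (fun x => ‖F x‖ ^ 2)
    rw [← h]
    refine tsum_congr fun x => ?_
    rw [t5_U_apply, LinearIsometry.norm_map]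
    rfl
  exact (sq_eq_sq₀ (norm_nonneg _) (norm_nonneg _)).1 h

open Classical in
/-- the projection on a coordinate. -/
noncomputable def t5_e (x : X) : LH X K →L[ℂ] LH X K :=
  (lp.singleContinuousLinearMap ℂ (fun _ : X => K) 2 x).comp (lp.evalCLM ℂ (fun _ : X => K) 2 x)

open Classical in
omit [CompleteSpace K] in
lemma t5_e_def (x : X) (F : LH X K) :
    t5_e x F = lp.single 2 x (F x) := rfl

open Classical in
omit [CompleteSpace K] in
lemma t5_e_apply (x y : X) (F : LH X K) :
    t5_e x F y = if y = x then F x else 0 := by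
  rw [t5_e_def]
  by_cases h : y = x
  · subst h
    rw [if_pos rfl, lp.single_apply_self]
  · rw [if_neg h, lp.single_apply_ne _ _ _ h]

omit [CompleteSpace K] in
lemma t5_norm_e (x : X) (F : LH X K) : ‖(t5_e x F : LH X K)‖ = ‖F x‖ := by
  classical
  have h := lp.norm_single (E := fun _ : X => K) (p := 2) (by norm_num) x (F x)
  exact h

/-- the system of imprimitivity of a vector valued twisted monomial representation:
`(U g f) x = C.U g x (f (g⁻¹ x))`, `e x f` the restriction of `f` to the point `x`. -/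
theorem exists_imp (C : VCoc G X K) :
    ∃ I : Imp G X (lp (fun _ : X => K) 2), ∀ (g : G) (f : lp (fun _ : X => K) 2) (x : X),
      I.U g f x = C.U g x (f (g⁻¹ • x)) := by
  classical
  refine ⟨{ U := t5_U C
            norm := t5_norm_U C
            one := ?_
            mul := ?_
            e := t5_e
            tot := ?_
            sq := ?_
            ee := ?_
            ne := ?_
            eU := ?_ }, fun g f x => rfl⟩
  · ext F x
    rw [t5_U_apply, inv_one, one_smul, C.one]
    rfl
  · intro g h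
    ext F x
    rw [t5_U_apply, C.mul, mul_inv_rev, mul_smul]
    rfl
  · intro F
    refine (lp.hasSum_single (p := 2) (by norm_num) F).congr_fun ?_
    intro x
    rfl
  · intro F
    have h : HasSum (fun x => ‖F x‖ ^ 2) (‖F‖ ^ 2) := by
      rw [lh_norm_sq]
      exact (lh_summable F).hasSum
    refine h.congr_fun ?_
    intro x
    rw [t5_norm_e]
  · intro x F
    ext y
    rw [t5_e_apply, t5_e_apply, t5_e_apply]
    by_cases h : y = x
    · rw [if_pos h, if_pos rfl, if_pos h]
    · rw [if_neg h, if_neg h]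
  · intro x y F hxy
    ext z
    rw [t5_e_apply, t5_e_apply, if_neg hxy]
    by_cases h : z = x
    · rw [if_pos h]; rfl
    · rw [if_neg h]; rfl
  · intro g x F
    ext y
    rw [t5_e_apply, t5_U_apply, t5_U_apply, t5_e_apply]
    by_cases h : y = g • x
    · subst h
      rw [if_pos rfl, inv_smul_smul, if_pos rfl]
    · rw [if_neg h, if_neg, map_zero]
      intro h2
      apply h
      rw [← h2, smul_inv_smul]

variable {E : Type v} [TopologicalSpace E] [PathConnectedSpace E]
  [MulAction G E] [ContinuousConstSMul G E]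

/-- vanishing in degree one. -/
theorem h1v_of_gap (hfree : ∀ (g : G) (e : E), g • e = e → g = 1)
    (htr : ∀ x y : X, ∃ g : G, g • x = y)
    (hst : ∀ x : X, Amenable (MulAction.stabilizer G x))
    (h0 : ¬ Nontrivial (Hgy (lam G) E 0)) (h1 : ¬ Nontrivial (Hgy (lam G) E 1)) :
    H1V G X K := by
  intro C b hb
  obtain ⟨I, hI⟩ := exists_imp C
  obtain ⟨S, hS, -⟩ := exists_rep_of_norm (repH I) (norm_repH_le htr hst I)
  have hS' : ∀ (g : G) (f : lp (fun _ : X => K) 2), S (lam G g) f = I.U g f := by
    intro g f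
    rw [hS, repH, MonoidAlgebra.lift_single, one_smul]
    rfl
  let _ : Module (Cr G) (lp (fun _ : X => K) 2) := Module.compHom _ S
  have hsm : ∀ (g : G) (v : lp (fun _ : X => K) 2), lam G g • v = S (lam G g) v :=
    fun g v => rfl
  obtain ⟨v, hv⟩ := coboundary_of_trivial (lam G) hfree h0 h1 b (fun g h => by
    ext x
    rw [hsm, lp.coeFn_add, Pi.add_apply, hS', hI, hb])
  refine ⟨v, fun g x => ?_⟩
  have h2 := congrArg (fun ξ : lp (fun _ : X => K) 2 => (ξ : ∀ _ : X, K) x) (hv g)
  simp only [lp.coeFn_sub, Pi.sub_apply] at h2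
  rw [hsm, hS', hI] at h2
  exact h2

end Pool.Agent.LibBS2
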