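import Pool.Agent.LibBS2.T5
import Pool.Agent.LibBS2.CDefs

/-!
Vector valued twisted monomial representations: vanishing of the second cohomology.
-/

set_option autoImplicit false

namespace Pool.Agent.LibBS2

open Pool.Agent.LibZIS Pool.Agent.LibCod83

universe v

variable {G : Type} [Group G] {X : Type} [MulAction G X] {K : Type} [NormedAddCommGroup K]
  [InnerProductSpace ℂ K] [CompleteSpace K]

variable {E : Type v} [TopologicalSpace E] [PathConnectedSpace E]
  [MulAction G E] [ContinuousConstSMul G E]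

/-- vanishing in degree two. -/
theorem h2v_of_gap (hfree : ∀ (g : G) (e : E), g • e = e → g = 1) (hE : H1Zero E)
    (htr : ∀ x y : X, ∃ g : G, g • x = y)
    (hst : ∀ x : X, Amenable (MulAction.stabilizer G x))
    (h0 : ¬ Nontrivial (Hgy (lam G) E 0)) (h1 : ¬ Nontrivial (Hgy (lam G) E 1))
    (h2 : ¬ Nontrivial (Hgy (lam G) E 2)) :
    H2V G X K := by
  intro C b hb
  obtain ⟨I, hI⟩ := exists_imp C
  obtain ⟨S, hS, -⟩ := exists_rep_of_norm (repH I) (norm_repH_le htr hst I)
  let _ : Module (Cr G) (lp (fun _ : X => K) 2) := Module.compHom (lp (fun _ : X => K) 2) S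
  have hsm : ∀ (g : G) (v : lp (fun _ : X => K) 2), lam G g • v = I.U g v := by
    intro g v
    show S (lam G g) v = I.U g v
    rw [hS, repH, MonoidAlgebra.lift_single, one_smul]
    rfl
  obtain ⟨c, hc⟩ := coboundary2_of_trivial (lam G) hfree hE h0 h1 h2 b (fun g h k => by
    apply lp.ext
    funext x
    rw [hsm, lp.coeFn_sub, lp.coeFn_add, lp.coeFn_sub, Pi.sub_apply, Pi.add_apply, Pi.sub_apply,
      hI, hb]
    rfl)
  refine ⟨c, fun g h x => ?_⟩
  have h3 := congrArg (fun ξ : lp (fun _ : X => K) 2 => (ξ : ∀ _ : X, K) x) (hc g h)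
  simp only [lp.coeFn_sub, lp.coeFn_add, Pi.sub_apply, Pi.add_apply] at h3
  rw [hsm, hI] at h3
  exact h3

end Pool.Agent.LibBS2
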